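import Pool.Agent.WD.Final
import Pool.Agent.WD.StX
import Pool.Agent.WD.ORI
import Pool.Agent.WD.PAS
import Pool.Agent.WD.CUT
import Pool.Agent.WD.CAT
import Pool.Agent.WD.LTR
import Pool.Agent.WD.TWL
import Pool.Agent.WD.LSX
import Pool.Agent.WD.FLO
import Pool.Agent.WD.NFU
import Pool.Agent.WD.NFD
import Pool.Agent.WD.NFC
import Pool.Agent.WD.NFS
import Pool.Agent.WD.KNB

/-!
Alexander's theorem for diagrams in Morse position: the modules together.
-/

set_option autoImplicit false

namespace Pool.Agent.WD2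

open Pool.Agent.LibH11 Pool.Agent.IT Pool.Agent.GK Pool.Agent.TwoBr Pool.Agent.WD
open Pool.Agent.LibH11.Sliced (Diag Kind cnt IsLongKnot ofDiag braidWord)

/-- **Alexander's theorem**: every long knot diagram in Morse position is equivalent to the closure of
a braid, cut open at the first strand. -/
theorem alx_all : ALX_Stmt :=
  t_ALX t_ORI (t_FLO (t_LSX t_PAS t_CUT t_CAT t_LTR (t_TWL t_LTR)))
    (t_NFS t_NFU t_NFD (t_NFC t_NFU t_NFD)) t_KNB

end Pool.Agent.WD2
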