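import Pool.Agent.WD2.StF

/-!
# Iterated doubles, module ADX (helper85): the formulas hold for the doubles of all diagrams
-/

set_option autoImplicit false

namespace Pool.Agent.WD2

open Pool.Agent.LibH11 Pool.Agent.IT Pool.Agent.GK Pool.Agent.TwoBr Pool.Agent.WD
open Pool.Agent.LibH11.Sliced (Diag Kind cnt IsLongKnot ofDiag braidWord)
open scoped BigOperators
open PowerSeries

namespace ADX

/-- `exp X - exp (-X)` is not zero -/
theorem den_ne : (E 1 - E (-1) : ℚ⟦X⟧) ≠ 0 := by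
  intro h
  have h3 := congrArg (fun f : ℚ⟦X⟧ => coeff 1 f) h
  simp [E] at h3

theorem toK_inj : Function.Injective toK := IsFractionRing.injective ℚ⟦X⟧ KQ

section Gen

variable {K : Type} [Field K] {s : K}

theorem qn_ne (hs : IT.Gen s) {w : ℤ} (hw : w ≠ 0) : qn s w ≠ 0 := by
  rw [qn_eq]
  exact div_ne_zero (br_ne hs hw) (br_ne hs one_ne_zero)

theorem qfac_ne (hs : IT.Gen s) (n : ℕ) : qfac s n ≠ 0 := by
  rw [qfac, Finset.prod_ne_zero_iff]
  intro i _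
  exact qn_ne hs (by omega)

theorem gtop_ne (hs : IT.Gen s) (N : ℕ) (e : Bool) : gtop s N e ≠ 0 := by
  have h1 : s ^ (2 : ℤ) - s ^ (-2 : ℤ) ≠ 0 := by
    have h2 : br s 1 ≠ 0 := br_ne hs one_ne_zero
    simpa [br] using h2
  have h2 : s ^ (-2 : ℤ) - s ^ (2 : ℤ) ≠ 0 := by
    rw [← neg_sub]
    exact neg_ne_zero.2 h1
  unfold gtop
  split_ifs
  · exact mul_ne_zero (mul_ne_zero (zpow_ne_zero _ hs.1) (pow_ne_zero _ h1)) (qfac_ne hs _)
  · exact mul_ne_zero (mul_ne_zero (zpow_ne_zero _ hs.1) (pow_ne_zero _ h2)) (qfac_ne hs _)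

end Gen

theorem Cfg_ne (hG : GS2_Stmt) (hs : IT.Gen sQ) (e : Bool) (j : ℕ) : Cfg (j + 1) e j ≠ 0 := by
  have h1 := (hG KQ sQ hs (j + 1) (by omega) e).1
  rw [Nat.add_sub_cancel] at h1
  unfold Cfg
  rw [h1]
  refine div_ne_zero (mul_ne_zero (mul_ne_zero (mul_ne_zero ?_ ?_) (gtop_ne hs _ _)) ?_) ?_
  · exact pow_ne_zero _ (neg_ne_zero.2 one_ne_zero)
  · exact zpow_ne_zero _ hs.1
  · exact qn_ne hs (by omega)
  · exact qn_ne hs (by omega)

/-- The invariant of dimension 1. -/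
theorem one_eq {M : CommMonoid Knot} {cb : ℕ → ℤ → Knot → Knot}
    {v : ℕ → Knot → ℚ⟦X⟧} {JS : ℕ → SKnot → ℚ⟦X⟧} (hv : VOk M cb v)
    (hj : JOk v JS) {n : ℕ} {w : Word} (h : LibH11.IsKnot (ev n w)) (hl : IsLongKnot (cl n w))
    (hb : Bd n w) : JS 1 (ofDiag (cl n w) hl) = 1 := by
  have h1 := hj.br 1 le_rfl n w h hl hb
  rw [Nat.cast_one, hv.one] at h1
  exact mul_left_cancel₀ den_ne h1

/-- the formulas for the doubles of closed braids -/
theorem fields (hY : CYF_Stmt) (hF : CFV_Stmt) {M : CommMonoid Knot} {cb : ℕ → ℤ → Knot → Knot}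
    {v : ℕ → Knot → ℚ⟦X⟧} {JS : ℕ → SKnot → ℚ⟦X⟧} (ho : Ops M cb) (hv : VOk M cb v)
    (hj : JOk v JS) (hg : DblG JS) (e : Bool) (m : ℤ) (n : ℕ) (w : Word)
    (hl : IsLongKnot (cl n w)) (hd : IsLongKnot (double e m (cl n w))) (hb : Bd n w)
    (hk : LibH11.IsKnot (ev n w)) :
    DF JS (fun e N j => Cfg N e j) e (m + wr w) (ofDiag (double e m (cl n w)) hd)
      (ofDiag (cl n w) hl) := by
  have hs : ∀ N : ℕ, 1 ≤ N → toK (JS N (ofDiag (double e m (cl n w)) hd)) =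
      ∑ j ∈ Finset.range N, Cfg N e j * toK (E (2 * j * (j + 1) * ((m + wr w : ℤ) : ℚ)) *
        JS (2 * j + 1) (ofDiag (cl n w) hl)) := by
    intro N hN
    rw [Int.cast_add]
    exact hg e N hN m n w hl hd hb hk
  have h2 := hF M cb v JS ho hv hj e m n w hl hd hb hk
  refine ⟨fun N hN => ?_, hs, ?_, ?_⟩
  · apply toK_inj
    rw [hY e N hN, hs N hN]
  · rw [Int.cast_add]
    exact h2.1
  · rw [Int.cast_add]
    exact h2.2

end ADX

open ADX in
theorem t_ADX (hY : CYF_Stmt) (hG : GS2_Stmt) (hF : CFV_Stmt) (hD : DBE_Stmt) (hE : ESER_Stmt) :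
    ADX_Stmt := by
  intro M cb v JS ho hv hj hg hc
  refine ⟨fun e N j => Cfg N e j, fun e j => Cfg_ne hG hE.2.2.2.2.1 e j, ?_, ?_, ?_⟩
  · intro K
    induction K using Quot.ind with
    | _ x =>
      obtain ⟨D, hD'⟩ := x
      obtain ⟨n, w, hb, hk, hE'⟩ := hc D hD'
      have h1 : ofDiag D hD' = ofDiag (cl n w) _ := hE'.knot hD'
      have h2 : JS 1 (ofDiag D hD') = 1 := by
        rw [h1]
        exact one_eq hv hj hk _ hb
      exact h2
  · intro D hD'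
    obtain ⟨n, w, hb, hk, hE'⟩ := hc D hD'
    obtain ⟨c, hc'⟩ := hD D (cl n w) hE' hD'
    refine ⟨c + wr w, fun e m hd => ?_⟩
    have h1 := fields hY hF ho hv hj hg e (m + c) n w (hE'.isLongKnot hD')
      ((hc' e m).isLongKnot hd) hb hk
    rw [(hc' e m).knot hd, hE'.knot hD', ← add_assoc]
    exact h1
  · intro h0 e m hd
    have h1 := fields hY hF ho hv hj hg e m 0 [] h0 hd (bd_nil 0) isKnot_nil
    rw [wr_nil, add_zero] at h1
    exact h1

end Pool.Agent.WD2
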