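import Pool.Agent.WD2.BaseE

/-!
# Iterated doubles: statements of the modules on the coefficients of the clasp

The module `WE_XXX` is the file `Pool/Agent/WD2/XXX.lean` with `theorem t_XXX : XXX_Stmt` (other
statements that are used are explicit hypotheses) in the namespace `Pool.Agent.WD2`, helper lemmas in
the namespace `Pool.Agent.WD2.XXX`.

`br s n = {n}`, `bf s n = {n}!`, `om`, `pp`, `gam`, `sg`: `WD2/BaseE.lean` with the basic lemmas
(`br_ne`, `bf_succ`, `bf_ne`, `om_sub`, `pp_succ`, `pp_of_lt`, `pp_ne`, `pp_mul`, `pp_self`,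
`zpow_diff`, `qn_eq`, `qfac_eq`). `W = fpow s (V s N) 2`, labels `x : Fin 2 → Fin N`; the label `x`
has weight `2 (N - 1 - x 0 - x 1)` (`GSUMM.wt_val` in `WD/GSUM.lean`), and `GSUMM.E_two` identifies
`(fpow s M 2).E` with `(tens s M M).E`.
-/

set_option autoImplicit false

namespace Pool.Agent.WD2

open Pool.Agent.LibH11 Pool.Agent.IT Pool.Agent.GK Pool.Agent.TwoBr Pool.Agent.WD
open Pool.Agent.LibH11.Sliced (Diag Kind cnt IsLongKnot ofDiag braidWord)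
open scoped BigOperators
open PowerSeries

/-! ## Identities -/

/-- D0.

Proof. Let `H i m` be the sum. `pp (i + 1) j = pp i j (om j - om i)` and
`om j - om i = (om m - om i) - (om m - om j)` with `om m - om j = {m - j} {m + j + 1}`, which cancels
with the denominator: `H (i + 1) m = (om m - om i) H i m + H i (m - 1)` for `1 ≤ m` (the term `j = m`
vanishes; the sign changes since `(-1)^(m+j)` becomes `(-1)^(m-1+j)`). `H i m = 0` for `m < i`
(`pp_of_lt`), `H i i = {2 i + 1} {2 i}! / {2 i + 1}! = 1`. For `i < m`: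
`(om m - om i) H i m = H (i + 1) m - H i (m - 1)`, which is `1 - 1` for `m = i + 1` and `0 - 0` for
`m > i + 1` (induction on `m - i`), and `om m - om i ≠ 0`. -/
def D0_Stmt : Prop :=
  ∀ (K : Type) [Field K] (s : K), IT.Gen s → ∀ i m : ℕ, i ≤ m →
    ∑ j ∈ Finset.range (m + 1), (-1) ^ (m + j) * br s (2 * j + 1) * pp s i j /
      (bf s (m - j) * bf s (m + j + 1)) = if i = m then 1 else 0

/-- D1.

Proof. Let `F i m` be the left side (`n` fixed), `R i m` the right side. As in `D0`,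
`F (i + 1) m = {m - i} {m + i + 1} F i m - F i (m - 1)` for `i < m`. The same holds for `R`:
`R (i + 1) m + R i (m - 1) = R i m {m - i} ({i + 1} {n - i} + {m} {m + n + 1}) / {m + n - i}` and
`{m + n - i} {m + i + 1} = {i + 1} {n - i} + {m} {m + n + 1}` (`zpow_diff`). Induction on `m - i`;
`m = i`: only `j = i` contributes, `{2 i + 1} {2 i}! / ({2 i + 1}! {n - i}! {n + i + 1}!)`. -/
def D1_Stmt : Prop :=
  ∀ (K : Type) [Field K] (s : K), IT.Gen s → ∀ i m n : ℕ, i ≤ m → m ≤ n →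
    ∑ j ∈ Finset.range (m + 1), br s (2 * j + 1) * pp s i j /
      (bf s (m - j) * bf s (m + j + 1) * (bf s (n - j) * bf s (n + j + 1))) =
    bf s i * bf s (m + n - i) /
      (bf s (m - i) * bf s (n - i) * (bf s m * bf s n * bf s (m + n + 1)))

/-- D2.

Proof. First `e = true`. Let `S r n` be the left side; the claim is `S r n = s^(4 r (n + 1))`.
Induction on `r` for all `n`, with Pascal's rule for `B r k = {r}! / ({k}! {r - k}!)`:
`B r k = s^(2 k) B (r - 1) k + s^(2 (k - r)) B (r - 1) (k - 1)` (from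
`{r} = s^(2 k) {r - k} + s^(2 (k - r)) {k}`). The first part of the sum is `S (r - 1) n`, the second
part is `{n + 1} s^(2 n - 4 r + 6) S (r - 1) (n + 1)` (put `k = k' + 1`:
`∏_{l ≤ k} {n + l} = {n + 1} ∏_{l ≤ k'} {n + 1 + l}`). So
`S r n = s^(4 (r-1) (n+1)) + (s^(2 (n+1)) - s^(-2 (n+1))) s^(2 n - 4 r + 6 + 4 (r-1) (n+2))
= s^(4 r (n + 1))`. `e = false`: the same identity for `s⁻¹` (`br s⁻¹ a = - br s a`; the factors
`(-1)^k` come from the last product, those of `B` cancel). -/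
def D2_Stmt : Prop :=
  ∀ (K : Type) [Field K] (s : K), IT.Gen s → ∀ (e : Bool) (r n : ℕ),
    ∑ k ∈ Finset.range (r + 1), ((sg e : ℤ) : K) ^ k * (bf s r / (bf s k * bf s (r - k))) *
      s ^ (sg e * ((k : ℤ) * (k + 3) + 2 * ((n : ℤ) - r) * k)) *
      ∏ l ∈ Finset.range k, br s ((n : ℤ) + (l + 1)) = s ^ (sg e * (4 * (r : ℤ) * (n + 1)))

/-- UNQ: uniqueness.

Proof. `pp i j = 0` for `j < i` and `pp i i ≠ 0`. Show `a j = 0` for `j < N` by downward induction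
(for all `j` with `N - k ≤ j < N`, induction on `k`): in the equation for `i = j` only the terms
`≥ j` contribute. -/
def UNQ_Stmt : Prop :=
  ∀ (K : Type) [Field K] (s : K), IT.Gen s → ∀ (N : ℕ) (a : ℕ → K),
    (∀ i < N, ∑ j ∈ Finset.range N, pp s i j * a j = 0) → ∀ j < N, a j = 0

/-- Gaussian binomial theorem.

Proof: induction on `i` with Pascal's rule `B (i + 1) m = s^(-2 m) B i m + s^(2 (i + 1 - m)) B i (m - 1)`
for `B i m = {i}! / ({m}! {i - m}!)` (from `{i + 1} = s^(-2 m) {i + 1 - m} + s^(2 (i + 1 - m)) {m}`):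
`∑_m s^(2 m i) B (i+1) m x^m = ∑ s^(2 m (i - 1)) B i m x^m + s^(2 (i + 1 - m) + 2 m i) B i (m-1) x^m`,
and the second sum is `x s^(2 i) * ∑ s^(2 m' (i - 1)) B i m' x^m'` (`m = m' + 1`). -/
def GBT_Stmt : Prop :=
  ∀ (K : Type) [Field K] (s : K), IT.Gen s → ∀ (i : ℕ) (x : K),
    ∏ l ∈ Finset.range i, (1 + x * s ^ (4 * (l : ℤ))) =
      ∑ m ∈ Finset.range (i + 1), s ^ (2 * ((m : ℤ) * ((i : ℤ) - 1))) *
        (bf s i / (bf s m * bf s (i - m))) * x ^ m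

/-- CND: the candidate for the coefficients of the clasp satisfies the equations.

Proof. Put `n = N - 1`. (a) is `D0` for `m = n` multiplied by `({n}!)²`. (b): insert the definition
and exchange the sums (`j ≤ m < N`): the signs cancel, and by `D1` (`i ≤ m ≤ n`; for `m < i` all
`pp i j` vanish)
`({n}!)² s^(-2 σ (N²-1)) ∑_{m=i}^n σ^m s^(σ m (m+3)) ({m}! {n+1+m}! / {n-m}!) *
{i}! {m+n-i}! / ({m-i}! {n-i}! {m}! {n}! {m+n+1}!)`
`= {n}! ({i}! / {n-i}!) s^(-2 σ (N²-1)) ∑_m σ^m s^(σ m (m+3)) {m+n-i}! / ({n-m}! {m-i}!)`;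
with `r = n - i`, `m = i + k`, `{n + k}! = {n}! ∏_{l ≤ k} {n + l}` the sum is
`σ^i s^(σ i (i+3)) ({n}! / {r}!) ∑_k σ^k B r k s^(σ (k (k+3) + 2 i k)) ∏_{l ≤ k} {n + l}`, by `D2`
`= σ^i s^(σ i (i+3)) ({n}! / {r}!) s^(4 σ r (n+1))`; exponents:
`-2 (n² + 2 n) + i (i+3) + 4 (n-i) (n+1) = 2 n² - 4 i n + i (i-1)`. -/
def CND_Stmt : Prop :=
  ∀ (K : Type) [Field K] (s : K), IT.Gen s → ∀ (N : ℕ), 1 ≤ N → ∀ i < N,
    (∑ j ∈ Finset.range N, pp s i j * ((-1) ^ (N - 1 + j) * br s (2 * j + 1) * bf s (N - 1) ^ 2 /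
      (bf s (N - 1 - j) * bf s (N + j))) = if i + 1 = N then bf s (N - 1) ^ 2 else 0) ∧
    ∀ e : Bool,
      ∑ j ∈ Finset.range N, pp s i j * (((-1) ^ (N - 1 + j) * br s (2 * j + 1) *
        bf s (N - 1) ^ 2 / (bf s (N - 1 - j) * bf s (N + j))) *
        ((-1) ^ (N - 1 + j) * s ^ (-(sg e * (2 * ((N : ℤ) ^ 2 - 1)))) *
          ∑ m ∈ Finset.Ico j N, ((sg e : ℤ) : K) ^ m * s ^ (sg e * ((m : ℤ) * (m + 3))) *
            (bf s m * bf s (N + m) / (bf s (m - j) * bf s (m + j + 1) * bf s (N - 1 - m))))) =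
      ((sg e : ℤ) : K) ^ i * bf s i * (bf s (N - 1) / bf s (N - 1 - i)) ^ 2 *
        s ^ (sg e * (2 * ((N : ℤ) - 1) ^ 2 - 4 * i * ((N : ℤ) - 1) + i * ((i : ℤ) - 1)))

/-! ## The tensor square of the module of dimension `N` -/

/-- ENT: the entries of an endomorphism of `V ⊗ V` between labels of weight zero.

Proof. For `j < N` let `P`, `Q` be as in `MULT` for `M = W`, `k = 2 j`; with `X = 1`: the number of
columns of `P` is the number of labels of weight `2 j` minus the number of labels of weight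
`2 j + 2`, `(N - j) - (N - j - 1) = 1`. So `u j := P · 0` is a vector of weight `2 j` with
`E u = 0`, and `Y u = (wtr (2 j) Y - wtr (2 j + 2) Y) u` for every endomorphism `Y`. Put
`v j = F ^ j u j` (weight zero); `Y v j = (…) v j`. By `BRK` (`E F^(n+1) = F^(n+1) E +
[n+1] F^n diag [wt - n]`) `E (F^(n+1) u) = [n + 1] [2 j - n] F^n u`, so `E^i v j =
(∏_{l<i} [j - l] [j + l + 1]) F^(j - i) u` for `i ≤ j` and `0` for `i > j`, and
`{1}^(2 i) F^i E^i v j = pp i j • v j` for all `i` (`om_sub`; for `i > j` both sides vanish);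
`v j ≠ 0` since `E^j v j ≠ 0`. The `v j`, `j < N`, are eigenvectors of `F E` for the different
eigenvalues `pp 1 j / {1}²`, hence linearly independent (`Module.End.eigenvectors_linearIndependent'`)
in the space of functions that vanish outside the `N` labels of weight zero, so they span it. Write
the basis vector of `y` as `∑ c j v j`; then `ρ j = c j * v j x`. -/
def ENT_Stmt : Prop :=
  ∀ (K : Type) [Field K] (s : K), IT.Gen s → ∀ (N : ℕ), 1 ≤ N → ∀ x y : Fin 2 → Fin N,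
    (x 0 : ℕ) + x 1 + 1 = N → (y 0 : ℕ) + y 1 + 1 = N → ∃ ρ : ℕ → K,
    ∀ Y, Mor (fpow s (V s N) 2) (fpow s (V s N) 2) Y → ∀ i : ℕ,
      br s 1 ^ (2 * i) * (Y * ((fpow s (V s N) 2).F ^ i * (fpow s (V s N) 2).E ^ i)) x y =
        ∑ j ∈ Finset.range N, ρ j * pp s i j *
          (wtr (fpow s (V s N) 2) (2 * (j : ℤ)) Y - wtr (fpow s (V s N) 2) (2 * (j : ℤ) + 2) Y)

/-- FEN: two columns of `F^i E^i` on `V ⊗ V` (checked by computer).

Proof. `E = E ⊗ K + 1 ⊗ E`, `F = F ⊗ 1 + K⁻¹ ⊗ F` (entries as in `tens`), `E e_b = [N - b] e_(b-1)`,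
`F e_a = [a + 1] e_(a+1)`. Column `(0, N-1)`: `E^i (e_0 ⊗ e_(N-1)) = [i]! e_0 ⊗ e_(N-1-i)`
(induction on `i`; `E e_0 = 0`), and by induction on `k` (with `b` fixed, Pascal's rule)
`F^k (e_0 ⊗ e_b) = ∑_m s^(2 (k - m) (m - N + 1)) ([k]! / [k - m]!) ([b + k - m]! / [b]!)
e_m ⊗ e_(b+k-m)` (terms with `b + k - m ≥ N` are zero), then `k = i`, `b = N - 1 - i`. Column
`(N-1, 0)`: `E^i (e_(N-1) ⊗ e_0) = s^(2 (N-1) i) [i]! e_(N-1-i) ⊗ e_0`, and
`F^k (e_b ⊗ e_0) = ∑_p s^(2 ((k - p) p - p (N - 1 - 2 b))) ([k]! / [k - p]!) ([b + k - p]! / [b]!)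
e_(b+k-p) ⊗ e_p`. -/
def FEN_Stmt : Prop :=
  ∀ (K : Type) [Field K] (s : K), IT.Gen s → ∀ (N : ℕ), 1 ≤ N → ∀ x y : Fin 2 → Fin N,
    (x 0 : ℕ) + x 1 + 1 = N → ∀ i < N,
    ((y 0 : ℕ) = 0 → (y 1 : ℕ) + 1 = N →
      ((fpow s (V s N) 2).F ^ i * (fpow s (V s N) 2).E ^ i) x y = if (x 0 : ℕ) ≤ i then
        qfac s i * s ^ (2 * (((i : ℤ) - (x 0 : ℕ)) * ((x 0 : ℕ) - (N : ℤ) + 1))) *
          (qfac s i / qfac s (i - x 0)) * (qfac s (x 1) / qfac s (N - 1 - i)) else 0) ∧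
    ((y 0 : ℕ) + 1 = N → (y 1 : ℕ) = 0 →
      ((fpow s (V s N) 2).F ^ i * (fpow s (V s N) 2).E ^ i) x y = if (x 1 : ℕ) ≤ i then
        qfac s i * s ^ (2 * (((N : ℤ) - 1) * i + ((i : ℤ) - (x 1 : ℕ)) * (x 1 : ℕ) -
          (x 1 : ℕ) * (2 * (i : ℤ) - N + 1))) *
          (qfac s i / qfac s (i - x 1)) * (qfac s (x 0) / qfac s (N - 1 - i)) else 0)

/-- CRW: one row of the clasp (checked by computer).

Proof. `clasp M e x y = ∑ c z, cup c (y 1) * (∑ p r, X e (x 1) c p r * X e p r z (y 0)) * cap (x 0) z`.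
`e = true`, `x = (N-1, 0)`: `cap (N-1) z ≠ 0` only for `z = 0`; `X true 0 c p r = s^(wt 0 * wt c)` for
`p = c`, `r = 0` and zero otherwise (in `Rm` only `n = 0` contributes since `(F^n) 0 r = 0` for
`0 < n`), and `X true c 0 0 (y 0) = s^(wt c * wt 0)` for `c = y 0` and zero otherwise
(`(E^n) 0 0 = 0` for `0 < n`). `e = false`, `x = (0, N-1)`: `z = N - 1`;
`X false (N-1) c p r = s^(-(wt r * wt p))` for `r = N - 1`, `p = c` and zero otherwise
(`(E^n) (N-1) r = 0` for `0 < n`), and `X false c (N-1) (N-1) (y 0) = s^(-(wt (y 0) * wt (N-1)))` for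
`c = y 0` (`(F^n) (N-1) (N-1) = 0`); `wt (N-1) = -(N-1)`. -/
def CRW_Stmt : Prop :=
  ∀ (K : Type) [Field K] (s : K), IT.Gen s → ∀ (N : ℕ), 1 ≤ N → ∀ x y : Fin 2 → Fin N,
    ((x 0 : ℕ) + 1 = N → (x 1 : ℕ) = 0 → clasp (MV s N) true x y = vcup s N (y 0) (y 1) *
      s ^ (2 * (((N : ℤ) - 1) * ((N : ℤ) - 1 - 2 * (y 0 : ℕ)))) * vcap s N (x 0) (x 1)) ∧
    ((x 0 : ℕ) = 0 → (x 1 : ℕ) + 1 = N → clasp (MV s N) false x y = vcup s N (y 0) (y 1) *
      s ^ (2 * (((N : ℤ) - 1) * ((N : ℤ) - 1 - 2 * (y 0 : ℕ)))) * vcap s N (x 0) (x 1))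

/-- BIV: the entries of `clasp * F^i E^i` and of `F^i E^i` (checked by computer). Here `x = (N-1, 0)`,
`y = (0, N-1)` for `e = true` and `x = (0, N-1)`, `y = (N-1, 0)` for `e = false`.

Proof. The second claim is `FEN` (only `i = N - 1` gives a nonzero value, `[N-1]!²`). First claim,
`e = true`: `cap (N-1) 0 = 1`, `cup m m' = (-1)^m s^(2 m (m - N)) [N-1]! / ([m]! [m']!)`
(`m' = N - 1 - m`), so by `CRW` and `FEN` the entry is
`∑_{m ≤ i} (-1)^m s^(2 (m (m - N) + (N-1) (N-1-2m) + (i-m) (m-N+1))) [i]! ([N-1]! / [N-1-i]!) *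
([i]! / ([m]! [i-m]!))`; the exponent is `2 ((N-1)² - i (N-1) + m (i-1) - 2 m (N-1))`, so by `GBT` with
`x = -s^(-4 (N-1))` (`[i]! / ([m]! [i-m]!) = {i}! / ({m}! {i-m}!)`) the sum over `m` is
`s^(2 ((N-1)² - i (N-1))) ∏_{l<i} (1 - s^(4 (l - (N-1))))`, and `1 - s^(-4 a) = s^(-2 a) {a}` with
`a = N - 1 - l`; `∏_{l<i} {N-1-l} = {N-1}! / {N-1-i}!`. Finally `{1}^i [i]! = {i}!` etc. (`qfac_eq`).
`e = false`: `cap 0 (N-1) = (-1)^(N-1) s^(2 (N-1))`, the sum is over `p = y' 1 ≤ i`, `m = N - 1 - p`, and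
the sum over `p` is `∑ (-1)^(N-1-p) (-1)^(N-1) …`, again `GBT` (with `s⁻¹`). -/
def BIV_Stmt : Prop :=
  ∀ (K : Type) [Field K] (s : K), IT.Gen s → ∀ (N : ℕ), 1 ≤ N → ∀ (e : Bool) (x y : Fin 2 → Fin N),
    (x 0 : ℕ) = (if e then N - 1 else 0) → (x 1 : ℕ) = (if e then 0 else N - 1) →
    (y 0 : ℕ) = (if e then 0 else N - 1) → (y 1 : ℕ) = (if e then N - 1 else 0) → ∀ i < N,
    br s 1 ^ (2 * i) * (clasp (MV s N) e *
      ((fpow s (V s N) 2).F ^ i * (fpow s (V s N) 2).E ^ i)) x y =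
      ((sg e : ℤ) : K) ^ i * bf s i * (bf s (N - 1) / bf s (N - 1 - i)) ^ 2 *
        s ^ (sg e * (2 * ((N : ℤ) - 1) ^ 2 - 4 * i * ((N : ℤ) - 1) + i * ((i : ℤ) - 1))) ∧
    br s 1 ^ (2 * i) * ((fpow s (V s N) 2).F ^ i * (fpow s (V s N) 2).E ^ i) x y =
      if i + 1 = N then bf s (N - 1) ^ 2 else 0

/-- GMF: the coefficients of the clasp.

Proof. `ENT` for the labels `x`, `y` of `BIV` (`ρ` depends only on `x`, `y`). With `Y = 1`
(`wtr (2 j) 1 - wtr (2 j + 2) 1 = 1` for `j < N`: numbers of labels) and `BIV`: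
`∑ pp i j ρ j = if i + 1 = N then {N-1}!² else 0` for `i < N`; `CND` (a) and `UNQ` give
`ρ j = (-1)^(N-1+j) {2 j + 1} {N-1}!² / ({N-1-j}! {N+j}!)`, which is not zero. With `Y = clasp`
(`CLM`), `BIV`, `CND` (b) and `UNQ`: `ρ j gam j = ρ j * (candidate)`. -/
def GMF_Stmt : Prop :=
  ∀ (K : Type) [Field K] (s : K), IT.Gen s → ∀ (N : ℕ), 1 ≤ N → ∀ (e : Bool), ∀ j < N,
    gam s N e j = (-1) ^ (N - 1 + j) * s ^ (-(sg e * (2 * ((N : ℤ) ^ 2 - 1)))) *
      ∑ m ∈ Finset.Ico j N, ((sg e : ℤ) : K) ^ m * s ^ (sg e * ((m : ℤ) * (m + 3))) *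
        (bf s m * bf s (N + m) / (bf s (m - j) * bf s (m + j + 1) * bf s (N - 1 - m)))

/-- GS2: the closure with twists and clasp, with explicit coefficients.

Proof: this is what the proof of `t_GSUM` (`WD/GSUM.lean`) shows. -/
def GS2_Stmt : Prop :=
  ∀ (K : Type) [Field K] (s : K), IT.Gen s → ∀ (N : ℕ), 1 ≤ N → ∀ (e : Bool),
    gam s N e (N - 1) = gtop s N e ∧ ∀ (m : ℤ) (n : ℕ) (w : Word), LibH11.IsKnot (ev n w) →
    G (blkD (RD s (V s N)) 1) n w (tw (RD s (V s N)) m * clasp (MV s N) e) =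
      ∑ j ∈ Finset.range N,
        gam s N e j * s ^ (m * ((2 * (j : ℤ) + 1) ^ 2 - 1 - 2 * ((N : ℤ) ^ 2 - 1))) *
          Jfr (RD s (V s (2 * j + 1))) n w

/-- The coefficients in the formula for doubles. -/
noncomputable def Cfg (N : ℕ) (e : Bool) (j : ℕ) : KQ :=
  (-1) ^ (N - 1) * sQ ^ (if e then 2 * ((N : ℤ) ^ 2 - 1) else -(2 * ((N : ℤ) ^ 2 - 1))) *
    gam sQ N e j * qn sQ (2 * j + 1) / qn sQ N

/-- The formula for the doubles of closed braids. -/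
def DblG (JS : ℕ → SKnot → ℚ⟦X⟧) : Prop :=
  ∀ (e : Bool) (N : ℕ), 1 ≤ N → ∀ (m : ℤ) (n : ℕ) (w : Word) (hl : IsLongKnot (cl n w))
    (hd : IsLongKnot (double e m (cl n w))), Bd n w → LibH11.IsKnot (ev n w) →
    toK (JS N (ofDiag (double e m (cl n w)) hd)) = ∑ j ∈ Finset.range N,
      Cfg N e j * toK (E (2 * j * (j + 1) * (m + wr w)) * JS (2 * j + 1) (ofDiag (cl n w) hl))

/-- JX2: the invariants exist.

Proof: as `t_JSX` (`WD/JSX.lean`) with `GS2` in the place of `GSUM`: the coefficients there are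
`Cfg`. -/
def JX2_Stmt : Prop :=
  ∀ (M : CommMonoid Knot) (cb : ℕ → ℤ → Knot → Knot), Ops M cb →
    ∃ (v : ℕ → Knot → ℚ⟦X⟧) (JS : ℕ → SKnot → ℚ⟦X⟧), VOk M cb v ∧ JOk v JS ∧ DblG JS

end Pool.Agent.WD2
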