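import Pool.Agent.WD2.BaseF
import Pool.Agent.WD2.StE
import Pool.Agent.WD.StT

/-!
# Iterated doubles: statements of the algebraic modules

The module `WF_XXX` is the file `Pool/Agent/WD2/XXX.lean` with `theorem t_XXX : XXX_Stmt` (other
statements that are used are explicit hypotheses) in the namespace `Pool.Agent.WD2`, helper lemmas in
the namespace `Pool.Agent.WD2.XXX`.

Definitions and basic lemmas: `WD2/BaseF.lean` (`b1`, `c2`, `uF`, `PT`, `gC`, `cyc`, `LdE`, `PolyC`,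
`Triv`, `Inf`; `X_mul_b1`, `X_sq_mul_c2`, `constantCoeff_b1`, `constantCoeff_uF`, `gC_mul`, `PT_of_le`,
`cyc_eq`), `D2E`, `D3E`, `Ex3`, `HAB`, `QAB`: `WD/StA.lean`. All formulas were checked by computer.
-/

set_option autoImplicit false

namespace Pool.Agent.WD2

open Pool.Agent.LibH11 Pool.Agent.IT Pool.Agent.GK Pool.Agent.TwoBr Pool.Agent.WD
open Pool.Agent.LibH11.Sliced (Diag Kind cnt IsLongKnot ofDiag braidWord)
open scoped BigOperators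
open PowerSeries

/-! ## The cyclotomic form -/

/-- CYF: the cyclotomic form.

Proof. `sQ ^ k = toK (E (k / 2))` (`ESER`), so `br sQ n = toK (E n - E (-n)) = toK (X * b1 n)`,
`bf sQ n = toK (X ^ n * uF n)`. By `GMF`, for `j < N`,
`Cfg N e j = (-1)^j ∑_{i = j}^{N-1} σ^i s^(σ i (i+3)) {i}! {N+i}! {2 j + 1} /
({i-j}! {i+j+1}! {N-1-i}! {N})` (signs and powers of `s` cancel; `qn a / qn b = {a} / {b}`), and
`{N+i}! / ({N-1-i}! {N}) = ∏_{l < i} {N+l+1} {N-l-1} = toK (X ^ (2 i) * PT N i)` (induction on `i`,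
`br_mul_br`, `X_sq_mul_c2`). So each summand is `toK (X^i * PT N i * σ^i * E (…) * gC i j)` (`gC_mul`;
multiply by `{i-j}! {i+j+1}! = toK (X^(2 i + 1) uF (i-j) uF (i+j+1)) ≠ 0`). Exchange the sums. -/
def CYF_Stmt : Prop :=
  ∀ (e : Bool) (N : ℕ), 1 ≤ N → ∀ y : ℕ → ℚ⟦X⟧,
    toK (cyc e N y) = ∑ j ∈ Finset.range N, Cfg N e j * toK (y j)

/-- SG0: the sums of the coefficients.

Proof: `gC_mul` for `i = j = 0`; and `D0` for `s = sQ`, `i = 0`, `m = i`, multiplied by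
`{i}! toK X ^ i`: `toK (gC i j) = (-1)^j toK X ^ i {i}! {2 j + 1} / ({i-j}! {i+j+1}!)`. -/
def SG0_Stmt : Prop := gC 0 0 = 1 ∧ ∀ i : ℕ, 1 ≤ i → ∑ j ∈ Finset.range (i + 1), gC i j = 0

/-- GCV: the first coefficients.

Proof. By `gC_mul` and cancellation (`uF 0 = 1`, `uF (n+1) = uF n * b1 (n+1)`, domain):
`b1 2 * gC 1 1 = -1`, `b1 1 * b1 4 * gC 2 1 = -1`, `b1 3 * b1 4 * gC 2 2 = 1`,
`b1 1 * b1 2 * b1 4 * b1 5 * gC 3 1 = -b1 3`, `b1 1 * b1 4 * b1 6 * gC 3 2 = 1`,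
`b1 4 * b1 5 * b1 6 * gC 3 3 = -1`, and `b1 a = 2 a + (a³/3) X² + …` (odd coefficients vanish),
`c2 a = a² + (a⁴/12) X² + …`. -/
def GCV_Stmt : Prop :=
  (coeff 0 (gC 1 1) = -1 / 4 ∧ coeff 1 (gC 1 1) = 0 ∧ coeff 2 (gC 1 1) = 1 / 6) ∧
  (coeff 0 (gC 2 1) = -1 / 16 ∧ coeff 1 (gC 2 1) = 0) ∧
  (coeff 0 (gC 2 2) = 1 / 48 ∧ coeff 1 (gC 2 2) = 0) ∧
  coeff 0 (gC 3 1) = -3 / 320 ∧ coeff 0 (gC 3 2) = 1 / 192 ∧ coeff 0 (gC 3 3) = -1 / 960 ∧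
  ∀ a : ℚ, (coeff 0 (PT a 1) = 4 * (a ^ 2 - 1) ∧ coeff 1 (PT a 1) = 0 ∧
    coeff 2 (PT a 1) = 4 / 3 * (a ^ 4 - 1)) ∧
    (coeff 0 (PT a 2) = 16 * (a ^ 2 - 1) * (a ^ 2 - 4) ∧ coeff 1 (PT a 2) = 0)

/-- LDC: the expansion of the cyclotomic form.

Proof. Let `w j = y j - 1`, divisible by `X^δ`, `w 0 = 0`. By `SG0` and `cyc_eq` (with `M = N + 4`)
`J N - 1 = ∑_{i ≥ 1} T i`, `T i = X^i PT N i σ^i E (σ i (i+3)/2) ∑_{j ≤ i} gC i j w j`, divisible by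
`X^(δ + i)`; modulo `X^(δ+4)` only `i = 1, 2, 3` matter. `T 3`: the coefficient of `X^(δ+3)` is a
multiple of `-3/320 α + 1/192 (3 α) - 1/960 (6 α) = 0`. `T 2`: `gC 2 1 w 1 + gC 2 2 w 2 =
X^δ (0 + (β₂ - 3 β)/48 X + …)`, `PT N 2 = 16 (N²-1)(N²-4) + O(X²)`, so `T 2 =
(N²-1)(N²-4) (β₂ - 3 β)/3 X^(δ+3) + …`. `T 1 = X^(δ+1) (4 (N²-1) + (4/3)(N⁴-1) X²)
σ (1 + 2 σ X + 2 X²) (-1/4 + X²/6) (α + β X + γ X²)`. Result: `d = δ + 1`, `x = -σ α`,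
`z = -σ (β + 2 σ α)`, `u = -σ α / 3 + (β₂ - 3 β) / 3`,
`v = -σ (γ + 2 σ β + (5/3) α) - 4 (β₂ - 3 β) / 3`. -/
def LDC_Stmt : Prop :=
  ∀ (e : Bool) (δ : ℕ) (α β γ β₂ : ℚ) (y J : ℕ → ℚ⟦X⟧), (∀ N : ℕ, 1 ≤ N → J N = cyc e N y) →
    y 0 = 1 → (∀ j, X ^ δ ∣ y j - 1) →
    X ^ (δ + 3) ∣ y 1 - (1 + C α * X ^ δ + C β * X ^ (δ + 1) + C γ * X ^ (δ + 2)) →
    X ^ (δ + 2) ∣ y 2 - (1 + C (3 * α) * X ^ δ + C β₂ * X ^ (δ + 1)) →
    X ^ (δ + 1) ∣ y 3 - (1 + C (6 * α) * X ^ δ) →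
    ∃ z v : ℚ, LdE (δ + 1) (-(((sg e : ℤ) : ℚ) * α)) z
      (-(((sg e : ℤ) : ℚ) * α) / 3 + (β₂ - 3 * β) / 3) v J

/-- What holds for the coloured Jones polynomials of a double. -/
def InfD (J : ℕ → ℚ⟦X⟧) : Prop :=
  Triv J ∨ ∃ (d : ℕ) (x z u v : ℚ), LdE d x z u v J ∧ x ≠ 0 ∧
    ((d = 2 ∧ u = x / 3 + x ^ 2) ∨ (3 ≤ d ∧ u = x / 3))

/-- LDD: the leading terms of a double.

Proof. `y j = E (2 j (j+1) t) J (2 j + 1)`. (1) `t ≠ 0`: there are `a`, `b` with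
`X^4 ∣ J M - (1 + C (a (M²-1)) X² + C (b (M²-1)) X³)` for all `M ≥ 1` (trivial: `a = b = 0`; `d = 2`:
`a = x`, `b = z`; `d = 3`: `a = 0`, `b = x`; `d ≥ 4`: `a = b = 0`). `LDC` with `δ = 1`, `α = 4 t`,
`β = 8 t² + 8 a`, `γ = 32 t³ / 3 + 32 t a + 8 b`, `β₂ = 72 t² + 24 a`: `x' = -4 σ t`,
`u' = x'/3 + 16 t² = x'/3 + x'²` (`σ² = 1`), `d' = 2`. (2) `t = 0`, `J` trivial: `y = 1` for the odd
numbers, `J' N = cyc e N 1 = 1` by `SG0`. (3) `t = 0`, `LdE d x z u v J`, `x ≠ 0`, `2 ≤ d`: `LDC` with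
`δ = d`, `α = 8 x`, `β = 8 z`, `γ = 8 (9 u + v)`, `β₂ = 24 z`: `d' = d + 1 ≥ 3`, `x' = -8 σ x`,
`u' = x'/3`. -/
def LDD_Stmt : Prop :=
  ∀ (e : Bool) (t : ℤ) (J J' : ℕ → ℚ⟦X⟧), J 1 = 1 → Inf J →
    (∀ N : ℕ, 1 ≤ N → J' N = cyc e N (fun j => E (2 * j * (j + 1) * t) * J (2 * j + 1))) →
    InfD J'

/-! ## Polynomiality -/

/-- PLD: the coefficients of the cyclotomic form are polynomials in `N`.

Proof. `coeff n (c2 (2 * N)) = ((2 N)^(n+2) + (-2 N)^(n+2)) / (n+2)!` is a polynomial in `N`, hence the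
coefficients of `PT N i` and of `PT N i * h` for a fixed series `h` are. The coefficient of `X^r` in
`cyc e N y` is the sum over `i ≤ r` (terms with `i > r` are divisible by `X^(r+1)`; for `N ≤ i ≤ r`
the term vanishes, `PT_of_le`). -/
def PLD_Stmt : Prop :=
  ∀ (e : Bool) (y J : ℕ → ℚ⟦X⟧), (∀ N : ℕ, 1 ≤ N → J N = cyc e N y) → PolyC J

/-- PLG: the coefficients of the coloured Jones polynomials of a graph knot are polynomials in `N`.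

Proof. `E N - E (-N) = N X β` with `coeff n β = (1 - (-1)^(n+1)) N^n / (n+1)!` (`coeff 0 β = 2`), and
`evB N G = N X ε` with `coeff m ε = ∑_{k ≤ m} coeff (m+1-k) (coeff k G) N^(m-k)` (the terms with
exponent `0` of `N` vanish since `G` is odd). So `β * J N = ε` and `2 coeff r (J N) = coeff r ε -
∑_{1 ≤ i ≤ r} coeff i β coeff (r-i) (J N)`; strong induction on `r`. -/
def PLG_Stmt : Prop :=
  ∀ (G : B) (J : ℕ → ℚ⟦X⟧), OddB G → (∀ N : ℕ, 1 ≤ N → (E N - E (-N)) * J N = evB N G) → PolyC J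

/-- PLX: equality for odd dimensions implies equality for all.

Proof: two polynomials that agree at all odd numbers are equal. -/
def PLX_Stmt : Prop :=
  ∀ J J' : ℕ → ℚ⟦X⟧, PolyC J → PolyC J' → (∀ N : ℕ, Odd N → J N = J' N) →
    ∀ N : ℕ, 1 ≤ N → J N = J' N

/-! ## Knots -/

/-- GRI: the coloured Jones polynomials of graph knots.

Proof. `Ser v K G` (`GAB`) and `br` give `(E N - E (-N)) JS N = evB N G` (as in `WD/S2.lean`), hence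
`PLG` (`HAB.odd`) and `EXP4` (`evB 1 G = E 1 - E (-1)` since `v 1 K = 1`): `LdE 2 x z u v` with
`x = -A/6`, `z = b`, `u = A²/72 + B'/180`, `v = β`. `x/3 + x² - u = fAB A B' / 360`. The three cases of
`QAB`: the unknot (`VOk.unit` and `br`: `JS N = 1`, cancel `E N - E (-N) ≠ 0`); `A = 24`, `B' = 1200`:
`u = x/3 + x²`, and `Ops.cab` identifies `cb 2 (±3) unknot` with the closure of `tor 2 (±3)` (as in
`WD/S3.lean`); `0 < A`, `0 < fAB A B'`: `x < 0`, `u < x/3 + x²`. -/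
def GRI_Stmt : Prop :=
  ∀ (M : CommMonoid Knot) (cb : ℕ → ℤ → Knot → Knot) (v : ℕ → Knot → ℚ⟦X⟧)
    (JS : ℕ → SKnot → ℚ⟦X⟧), Ops M cb → VOk M cb v → JOk v JS →
    ∀ (n : ℕ) (w : Word) (h : LibH11.IsKnot (ev n w)) (hl : IsLongKnot (cl n w)), Bd n w →
    GraphKnot (closure (ev n w) h) → PolyC (fun N => JS N (ofDiag (cl n w) hl)) ∧
    ((closure (ev n w) h = unknot ∧ Triv (fun N => JS N (ofDiag (cl n w) hl))) ∨
    (((∃ ht : LibH11.IsKnot (ev 1 [(0, true), (0, true), (0, true)]),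
        closure (ev n w) h = closure (ev 1 [(0, true), (0, true), (0, true)]) ht) ∨
      (∃ ht : LibH11.IsKnot (ev 1 [(0, false), (0, false), (0, false)]),
        closure (ev n w) h = closure (ev 1 [(0, false), (0, false), (0, false)]) ht)) ∧
      ∃ x z u v' : ℚ, LdE 2 x z u v' (fun N => JS N (ofDiag (cl n w) hl)) ∧ x ≠ 0 ∧
        u = x / 3 + x ^ 2) ∨
    ∃ x z u v' : ℚ, LdE 2 x z u v' (fun N => JS N (ofDiag (cl n w) hl)) ∧ x < 0 ∧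
      u < x / 3 + x ^ 2)

/-- GGO: graph knots with the same coloured Jones polynomials of odd dimension.

Proof: `br` gives equality of `v N` for odd `N`; `GKO`. -/
def GGO_Stmt : Prop :=
  ∀ (M : CommMonoid Knot) (cb : ℕ → ℤ → Knot → Knot) (v : ℕ → Knot → ℚ⟦X⟧)
    (JS : ℕ → SKnot → ℚ⟦X⟧), Ops M cb → VOk M cb v → JOk v JS →
    ∀ (n n' : ℕ) (w w' : Word) (h : LibH11.IsKnot (ev n w)) (h' : LibH11.IsKnot (ev n' w'))
      (hl : IsLongKnot (cl n w)) (hl' : IsLongKnot (cl n' w')), Bd n w → Bd n' w' →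
    GraphKnot (closure (ev n w) h) → GraphKnot (closure (ev n' w') h') →
    (∀ N : ℕ, Odd N → JS N (ofDiag (cl n w) hl) = JS N (ofDiag (cl n' w') hl')) →
    closure (ev n w) h = closure (ev n' w') h'

/-- The relations between the coloured Jones polynomials of a double `K'` (clasp `e`, framing `t`) of
the knot `K` and of `K`. -/
structure DF (JS : ℕ → SKnot → ℚ⟦X⟧) (Cf : Bool → ℕ → ℕ → KQ) (e : Bool) (t : ℤ)
    (K' K : SKnot) : Prop where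
  cyc : ∀ N : ℕ, 1 ≤ N →
    JS N K' = cyc e N (fun j => E (2 * j * (j + 1) * t) * JS (2 * j + 1) K)
  sum : ∀ N : ℕ, 1 ≤ N → toK (JS N K') =
    ∑ j ∈ Finset.range N, Cf e N j * toK (E (2 * j * (j + 1) * t) * JS (2 * j + 1) K)
  d2 : D2E (if e then 1 else -1) t (JS 2 K') (JS 3 K)
  d3 : D3E (if e then 1 else -1) t (JS 3 K') (JS 3 K) (JS 5 K)

/-- ADX: the formulas hold for the doubles of all diagrams.

Proof. `Cf e N j = Cfg N e j`; `Cf e (j+1) j ≠ 0` from `GS2` (`gam (N-1) = gtop ≠ 0`, `qn ≠ 0`; see the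
use of `cftop` in `WD/S1.lean`). `JS 1 K = 1`: every knot is `ofDiag (cl n w) _` by the hypothesis on
closed braids (`Quot.ind`, `EqD.knot`), `br` for `N = 1` and `VOk.one`. For a long `D` take `n`, `w`
with `EqD 1 D (cl n w)` and `c` from `DBE`: `double e m D ~ double e (m + c) (cl n w)` for all `e`, `m`
(so the latter is a long knot and both give the same knot, `EqD.knot`); `k = c + wr w`. The four
fields are `CYF` with `DblG`, `DblG`, and `CFV` for `double e (m + c) (cl n w)`. Last claim: the same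
with `D = [] = cl 0 []`, `wr [] = 0`. -/
def ADX_Stmt : Prop :=
  ∀ (M : CommMonoid Knot) (cb : ℕ → ℤ → Knot → Knot) (v : ℕ → Knot → ℚ⟦X⟧)
    (JS : ℕ → SKnot → ℚ⟦X⟧), Ops M cb → VOk M cb v → JOk v JS → DblG JS →
    (∀ D : Diag, IsLongKnot D → ∃ (n : ℕ) (w : Word), Bd n w ∧ LibH11.IsKnot (ev n w) ∧
      EqD 1 D (cl n w)) →
    ∃ Cf : Bool → ℕ → ℕ → KQ, (∀ e j, Cf e (j + 1) j ≠ 0) ∧ (∀ K, JS 1 K = 1) ∧
      (∀ (D : Diag) (hD : IsLongKnot D), ∃ k : ℤ, ∀ (e : Bool) (m : ℤ)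
        (hd : IsLongKnot (double e m D)),
        DF JS Cf e (m + k) (ofDiag (double e m D) hd) (ofDiag D hD)) ∧
      ∀ (h0 : IsLongKnot []) (e : Bool) (m : ℤ) (hd : IsLongKnot (double e m [])),
        DF JS Cf e m (ofDiag (double e m []) hd) (ofDiag [] h0)

/-- TR2: two doubles with the same clasp.

Proof: `TRIA` for `Cf e`; `Inf` gives `coeff 0 (JS 3 K) = 1`, `coeff 1 (JS 3 K) = 0` (`2 ≤ d`). -/
def TR2_Stmt : Prop :=
  ∀ (JS : ℕ → SKnot → ℚ⟦X⟧) (Cf : Bool → ℕ → ℕ → KQ), (∀ e j, Cf e (j + 1) j ≠ 0) →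
    (∀ K, JS 1 K = 1) → ∀ (e : Bool) (t t' : ℤ) (K1 K K1' K' : SKnot), DF JS Cf e t K1 K →
    DF JS Cf e t' K1' K' → Inf (fun N => JS N K) → Inf (fun N => JS N K') →
    (∀ N : ℕ, 1 ≤ N → JS N K1 = JS N K1') → t = t' ∧ ∀ N : ℕ, Odd N → JS N K = JS N K'

/-- OPB: two doubles with opposite clasps, the twists.

Proof: as `OPPB` (`WD/OPPB.lean`); the signs of `a`, `a'` are not needed for these conclusions. -/
def OPB_Stmt : Prop :=
  ∀ (t t' : ℤ) (a b a' b' : ℚ) (J3 J5 J3' J5' : ℚ⟦X⟧),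
    Ex3 a b 3 J3 → Ex3 a b 5 J5 → Ex3 a' b' 3 J3' → Ex3 a' b' 5 J5' →
    E (4 * t') * J3' - 1 = -(E 4 * (E (4 * t) * J3 - 1)) →
    E (12 * t') * J5' - 1 = E 10 * (E (12 * t) * J5 - 1) -
      E 2 * (1 + E 6) * (1 + E 2 + E 4) * (E (4 * t) * J3 - 1) →
    t' = -t ∧ (t = 0 ∨ t = -1)

/-- OPL: two doubles with opposite clasps, the leading terms of the companions.

Proof. Put `j3 = J 3 - 1`, `j5 = J 5 - 1` etc. and `S = E 2 + E 4 + … + E 12 =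
E 2 (1 + E 6) (1 + E 2 + E 4)`. `t = 0`: `j3' = -E 4 j3`, `j5' = E 10 j5 - S j3`. `t = -1`: the
relations become `j3' = -E (-4) j3` and `j5' = E (-14) j5 - (E (-4) + E (-6) + … + E (-14)) j3`
(the constants cancel). Leading coefficients: `j3 = 8 x X^d + …`, `j3' = 8 x' X^(d') + …`, so `d' = d`,
`x' = -x`. `t = 0`: coefficient of `X^(d+2)` of the first relation, divided by 8:
`9 u' + v' = -(9 u + v) - 4 z - 8 x`; of the second, divided by 24 (`S = 6 + 42 X + 182 X² + …`):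
`25 u' + v' = (25 u + v) + 10 z + 50 x - (6 (9 u + v) + 42 z + 182 x) / 3 =
7 u - v - 4 z - (32/3) x`; subtract: `16 u' = 16 u - (8/3) x`. `t = -1`:
`9 u' + v' = -(9 u + v) + 4 z - 8 x`, and `S' = 6 - 54 X + 278 X²`:
`25 u' + v' = (25 u + v) - 14 z + 98 x - (6 (9 u + v) - 54 z + 278 x) / 3 = 7 u - v + 4 z + (16/3) x`;
`16 u' = 16 u + (40/3) x`. -/
def OPL_Stmt : Prop :=
  ∀ (t : ℤ) (d d' : ℕ) (x z u v x' z' u' v' : ℚ) (J J' : ℕ → ℚ⟦X⟧), (t = 0 ∨ t = -1) →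
    LdE d x z u v J → LdE d' x' z' u' v' J' → x ≠ 0 → x' ≠ 0 →
    E (4 * ((-t : ℤ) : ℚ)) * J' 3 - 1 = -(E 4 * (E (4 * t) * J 3 - 1)) →
    E (12 * ((-t : ℤ) : ℚ)) * J' 5 - 1 = E 10 * (E (12 * t) * J 5 - 1) -
      E 2 * (1 + E 6) * (1 + E 2 + E 4) * (E (4 * t) * J 3 - 1) →
    d' = d ∧ x' = -x ∧ u' = u + (if t = 0 then -x / 6 else 5 * x / 6)

/-- OPC: two doubles with opposite clasps.

Proof. `OPPA` with `d2`, `d3`; `Ex3 a b M (JS M K)` for `M = 3, 5` from `Inf` (trivial: `a = b = 0`;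
`d = 2`: `a = x`, `b = z`; `d = 3`: `a = 0`, `b = x`; `d ≥ 4`: zero), `OPB`. If both companions are
nontrivial, `OPL`: `d' = d`, `x' = -x`, `u' = u - x/6` or `u' = u + 5 x / 6`. Let `r = 1/3`. All
combinations of the three cases of `Inf` are impossible: `d = d'` excludes the combination of `3 ≤ d`
with `d = 2`. `u = x/3 + x²` and `u' = -x/3 + x²`: `-2 x / 3 = -x/6` or `5 x / 6`, so `x = 0`.
`u = x/3`, `u' = -x/3`: the same. `u = x/3 + x²` and `x' < 0`, `u' < -x/3 + x²`: `0 < x` and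
`x/3 - x/6 < -x/3` or `x/3 + 5 x / 6 < -x/3`. `x < 0`, `u < x/3 + x²` and `u' = -x/3 + x²`:
`-x/3 + x/6 < x/3` or `-x/3 - 5 x / 6 < x/3`, so `0 < x`. `x < 0` and `x' < 0`: impossible. -/
def OPC_Stmt : Prop :=
  ∀ (JS : ℕ → SKnot → ℚ⟦X⟧) (Cf : Bool → ℕ → ℕ → KQ) (t t' : ℤ) (K1 K K1' K' : SKnot),
    DF JS Cf true t K1 K → DF JS Cf false t' K1' K' → Inf (fun N => JS N K) →
    Inf (fun N => JS N K') → (∀ N : ℕ, 1 ≤ N → JS N K1 = JS N K1') →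
    t' = -t ∧ (t = 0 ∨ t = -1) ∧ (Triv (fun N => JS N K) ∨ Triv (fun N => JS N K'))

/-- GVD: a nontrivial graph knot that is not a trefoil and a double.

Proof: the leading terms are unique: `LdE d x z u v J`, `LdE d' x' z' u' v' J`, `x ≠ 0`, `x' ≠ 0` imply
`d = d'`, `x = x'` (`N = 2`) and `u = u'` (`N = 2` and `N = 3`: `4 u + v`, `9 u + v`); `J` trivial and
`LdE` with `x ≠ 0` is impossible. -/
def GVD_Stmt : Prop :=
  ∀ (J : ℕ → ℚ⟦X⟧) (x z u v : ℚ), InfD J → LdE 2 x z u v J → x < 0 → u < x / 3 + x ^ 2 → False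

end Pool.Agent.WD2
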