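import Pool.Agent.WD2.Itd
import Pool.Agent.WD2.StF
import Pool.Agent.WD.Main
import Pool.Agent.WD.StX

/-!
# Iterated doubles: the induction

From the statements of the modules (`WD2/StF.lean`, `WD/StT.lean`, `WD/StX.lean`) to the theorem.
-/

set_option autoImplicit false

namespace Pool.Agent.WD2

open Pool.Agent.LibH11 Pool.Agent.IT Pool.Agent.GK Pool.Agent.TwoBr Pool.Agent.WD
open Pool.Agent.LibH11.Sliced (Diag Kind cnt IsLongKnot ofDiag braidWord)
open scoped BigOperators
open PowerSeries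

namespace Asm

/-- Diagrams of the knots of the class: closed braids of graph knots, and doubles. -/
inductive Cls : ℕ → Diag → Prop
  | graph (n : ℕ) (w : Word) (hw : Bd n w) (h : LibH11.IsKnot (ev n w))
      (hg : GraphKnot (closure (ev n w) h)) : Cls 0 (cl n w)
  | double (d : ℕ) (e : Bool) (m : ℤ) (D : Diag) (hD : Cls d D) : Cls (d + 1) (double e m D)

theorem Cls.long (hL : LKC_Stmt) (hM : LKD_Stmt) {d : ℕ} {D : Diag} (h : Cls d D) :
    IsLongKnot D := by
  induction h with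
  | graph n w hw h hg => exact hL n w hw h
  | double d e m D hD ih => exact hM D ih e m

theorem cls_nil : Cls 0 [] := Cls.graph 0 [] (bd_nil 0) (isKnot_zero 1) GraphKnot.unknot

theorem cnt_ne {w : Diag} (h : IsLongKnot w) : cnt 1 w ≠ none := by
  rw [Sliced.isLongKnot_iff] at h
  obtain ⟨lab, c, h⟩ := h
  have h1 : cnt 1 w = some 1 := Sliced.run_cnt w Sliced.start _ h
  rw [h1]
  exact Option.some_ne_none 1

/-- equal knots have equivalent diagrams -/
theorem eqd_of_knot {D D' : Diag} {h : IsLongKnot D} {h' : IsLongKnot D'}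
    (he : ofDiag D h = ofDiag D' h') : EqD 1 D D' := by
  have h1 : Relation.EqvGen Sliced.MoveIn ⟨D, h⟩ ⟨D', h'⟩ := Quot.eqvGen_exact he
  have key : ∀ x y : {w : Diag // IsLongKnot w}, Relation.EqvGen Sliced.MoveIn x y →
      EqD 1 x.1 y.1 := by
    intro x y hxy
    induction hxy with
    | rel x y hm =>
      obtain ⟨u, a, b, v, hab, hx, hy⟩ := hm
      exact Relation.EqvGen.rel _ _ ⟨u, a, b, v, hab, hx, hy, cnt_ne x.2, cnt_ne y.2⟩
    | refl x => exact EqD.refl _
    | symm x y _ ih => exact ih.symm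
    | trans x y z _ _ ih1 ih2 => exact ih1.trans ih2
  exact key _ _ h1

/-- a knot of the class has a diagram of the class -/
theorem exists_cls (hE : DBE_Stmt) {K : SKnot} (hK : IsIterated K) :
    ∃ (d : ℕ) (D : Diag) (h : IsLongKnot D), Cls d D ∧ K = ofDiag D h := by
  induction hK with
  | graph n w hw h hg hl => exact ⟨0, _, hl, Cls.graph n w hw h hg, rfl⟩
  | double e m D hD hK hl ih =>
    obtain ⟨d, D1, h1, hc, he⟩ := ih
    obtain ⟨c, hc1⟩ := hE D D1 (eqd_of_knot he) hD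
    exact ⟨d + 1, _, (hc1 e m).isLongKnot hl, Cls.double d e (m + c) D1 hc, (hc1 e m).knot hl⟩

/-- What is used about the coloured Jones polynomials. -/
structure Ctx (JS : ℕ → SKnot → ℚ⟦X⟧) (Cf : Bool → ℕ → ℕ → KQ) : Prop where
  one : ∀ K, JS 1 K = 1
  cfn : ∀ e j, Cf e (j + 1) j ≠ 0
  adx : ∀ (D : Diag) (hD : IsLongKnot D), ∃ k : ℤ, ∀ (e : Bool) (m : ℤ)
    (hd : IsLongKnot (double e m D)),
    DF JS Cf e (m + k) (ofDiag (double e m D) hd) (ofDiag D hD)
  adn : ∀ (h0 : IsLongKnot []) (e : Bool) (m : ℤ) (hd : IsLongKnot (double e m [])),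
    DF JS Cf e m (ofDiag (double e m []) hd) (ofDiag [] h0)
  gri : ∀ (n : ℕ) (w : Word) (h : LibH11.IsKnot (ev n w)) (hl : IsLongKnot (cl n w)), Bd n w →
    GraphKnot (closure (ev n w) h) → PolyC (fun N => JS N (ofDiag (cl n w) hl)) ∧
    ((closure (ev n w) h = unknot ∧ Triv (fun N => JS N (ofDiag (cl n w) hl))) ∨
    (((∃ ht : LibH11.IsKnot (ev 1 [(0, true), (0, true), (0, true)]),
        closure (ev n w) h = closure (ev 1 [(0, true), (0, true), (0, true)]) ht) ∨
      (∃ ht : LibH11.IsKnot (ev 1 [(0, false), (0, false), (0, false)]),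
        closure (ev n w) h = closure (ev 1 [(0, false), (0, false), (0, false)]) ht)) ∧
      ∃ x z u v' : ℚ, LdE 2 x z u v' (fun N => JS N (ofDiag (cl n w) hl)) ∧ x ≠ 0 ∧
        u = x / 3 + x ^ 2) ∨
    ∃ x z u v' : ℚ, LdE 2 x z u v' (fun N => JS N (ofDiag (cl n w) hl)) ∧ x < 0 ∧
      u < x / 3 + x ^ 2)
  nil : ∀ h0 : IsLongKnot [], ∀ N : ℕ, 1 ≤ N → JS N (ofDiag [] h0) = 1
  ggo : ∀ (n n' : ℕ) (w w' : Word) (h : LibH11.IsKnot (ev n w)) (h' : LibH11.IsKnot (ev n' w'))
      (hl : IsLongKnot (cl n w)) (hl' : IsLongKnot (cl n' w')), Bd n w → Bd n' w' →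
    GraphKnot (closure (ev n w) h) → GraphKnot (closure (ev n' w') h') →
    (∀ N : ℕ, Odd N → JS N (ofDiag (cl n w) hl) = JS N (ofDiag (cl n' w') hl')) →
    closure (ev n w) h = closure (ev n' w') h'

/-- The statements of the algebraic modules that do not depend on the invariants, and the statements
of the topological modules. -/
structure Mods : Prop where
  ldd : LDD_Stmt
  pld : PLD_Stmt
  plx : PLX_Stmt
  tr2 : TR2_Stmt
  opc : OPC_Stmt
  gvd : GVD_Stmt
  mrk : MRK_Stmt
  dbe : DBE_Stmt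
  lkc : LKC_Stmt
  lkd : LKD_Stmt

theorem inf_of {J : ℕ → ℚ⟦X⟧} (h : InfD J) : Inf J := by
  rcases h with h | ⟨d, x, z, u, v, h, hx, h' | h'⟩
  · exact Or.inl h
  · exact Or.inr ⟨d, x, z, u, v, h, hx, Or.inl h'⟩
  · exact Or.inr ⟨d, x, z, u, v, h, hx, Or.inr (Or.inl h')⟩

section Main

variable {JS : ℕ → SKnot → ℚ⟦X⟧} {Cf : Bool → ℕ → ℕ → KQ}

/-- equality of the coloured Jones polynomials of odd dimension -/
def Odds (JS : ℕ → SKnot → ℚ⟦X⟧) (K K' : SKnot) : Prop := ∀ N : ℕ, Odd N → JS N K = JS N K'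

theorem Odds.symm {K K' : SKnot} (h : Odds JS K K') : Odds JS K' K := fun N hN => (h N hN).symm

theorem infd_double (c : Ctx JS Cf) (M : Mods) {D : Diag} (hD : IsLongKnot D)
    (hI : Inf (fun N => JS N (ofDiag D hD))) (e : Bool) (m : ℤ) (hd : IsLongKnot (double e m D)) :
    InfD (fun N => JS N (ofDiag (double e m D) hd)) := by
  obtain ⟨k, hk⟩ := c.adx D hD
  exact M.ldd e (m + k) _ _ (c.one _) hI (hk e m hd).cyc

/-- The leading terms and polynomiality for the class. -/
theorem inf_all (c : Ctx JS Cf) (M : Mods) {d : ℕ} {D : Diag} (h : Cls d D) :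
    ∀ hD : IsLongKnot D, Inf (fun N => JS N (ofDiag D hD)) ∧
      PolyC (fun N => JS N (ofDiag D hD)) := by
  induction h with
  | graph n w hw h hg =>
    intro hD
    obtain ⟨hp, hc⟩ := c.gri n w h hD hw hg
    refine ⟨?_, hp⟩
    rcases hc with ⟨-, ht⟩ | ⟨-, x, z, u, v', hl, hx, hu⟩ | ⟨x, z, u, v', hl, hx, hu⟩
    · exact Or.inl ht
    · exact Or.inr ⟨2, x, z, u, v', hl, hx, Or.inl ⟨rfl, hu⟩⟩
    · exact Or.inr ⟨2, x, z, u, v', hl, hx.ne, Or.inr (Or.inr ⟨rfl, hx, hu⟩)⟩
  | double d e m D hD ih =>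
    intro hd
    have hl := hD.long M.lkc M.lkd
    refine ⟨inf_of (infd_double c M hl (ih hl).1 e m hd), ?_⟩
    obtain ⟨k, hk⟩ := c.adx D hl
    exact M.pld e _ _ (hk e m hd).cyc

/-- equality for all dimensions -/
theorem all_eq (c : Ctx JS Cf) (M : Mods) {d d' : ℕ} {D D' : Diag} (h : Cls d D) (h' : Cls d' D')
    (hD : IsLongKnot D) (hD' : IsLongKnot D') (hs : Odds JS (ofDiag D hD) (ofDiag D' hD')) :
    ∀ N : ℕ, 1 ≤ N → JS N (ofDiag D hD) = JS N (ofDiag D' hD') :=
  M.plx _ _ (inf_all c M h hD).2 (inf_all c M h' hD').2 hs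

/-- The statement of the induction. -/
def Sep (JS : ℕ → SKnot → ℚ⟦X⟧) (D D' : Diag) : Prop :=
  ∀ (hD : IsLongKnot D) (hD' : IsLongKnot D'), Odds JS (ofDiag D hD) (ofDiag D' hD') → EqD 1 D D'

theorem Sep.symm {D D' : Diag} (h : Sep JS D D') : Sep JS D' D :=
  fun hD hD' hs => (h hD' hD hs.symm).symm

/-- two doubles with the same clasp -/
theorem same (c : Ctx JS Cf) (M : Mods) {d d' : ℕ} {D D' : Diag} (h : Cls d D) (h' : Cls d' D')
    (hI : Sep JS D D') (e : Bool) (m m' : ℤ) : Sep JS (double e m D) (double e m' D') := by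
  intro hd hd' hs
  have hD := h.long M.lkc M.lkd
  have hD' := h'.long M.lkc M.lkd
  obtain ⟨k, hk⟩ := c.adx D hD
  obtain ⟨k', hk'⟩ := c.adx D' hD'
  have hall := all_eq c M (Cls.double d e m D h) (Cls.double d' e m' D' h') hd hd' hs
  obtain ⟨-, ho⟩ := M.tr2 JS Cf c.cfn c.one e _ _ _ _ _ _ (hk e m hd) (hk' e m' hd')
    (inf_all c M h hD).1 (inf_all c M h' hD').1 hall
  obtain ⟨a, ha⟩ := M.dbe D D' (hI hD hD' ho) hD
  have e1 := (ha e m).knot hd
  have hd2 := (ha e m).isLongKnot hd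
  have hall2 : ∀ N : ℕ, 1 ≤ N → JS N (ofDiag (double e (m + a) D') hd2) =
      JS N (ofDiag (double e m' D') hd') := by
    rw [← e1]
    exact hall
  obtain ⟨ht, -⟩ := M.tr2 JS Cf c.cfn c.one e _ _ _ _ _ _ (hk' e (m + a) hd2) (hk' e m' hd')
    (inf_all c M h' hD').1 (inf_all c M h' hD').1 hall2
  have hm : m + a = m' := by omega
  rw [← hm]
  exact ha e m

/-- a double of a diagram of the trivial knot is a double of the trivial diagram -/
theorem to_nil (c : Ctx JS Cf) (M : Mods) {d : ℕ} {D : Diag} (h : Cls d D) (hD : IsLongKnot D)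
    (hE : EqD 1 D []) (e : Bool) (m t : ℤ) (hd : IsLongKnot (double e m D))
    (hF : DF JS Cf e t (ofDiag (double e m D) hd) (ofDiag D hD)) :
    EqD 1 (double e m D) (double e t []) := by
  obtain ⟨a, ha⟩ := M.dbe D [] hE hD
  have h0 := hE.isLongKnot hD
  have hd2 := (ha e m).isLongKnot hd
  obtain ⟨ht, -⟩ := M.tr2 JS Cf c.cfn c.one e _ _ _ _ _ _ hF (c.adn h0 e (m + a) hd2)
    (inf_all c M h hD).1 (inf_all c M cls_nil h0).1 (by rw [(ha e m).knot hd]; intro N _; rfl)
  rw [ht]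
  exact ha e m

/-- the doubles of the trivial diagram for both clasps -/
theorem nil_opp {t : ℤ} (ht : t = 0 ∨ t = -1) :
    EqD 1 (double true t []) (double false (-t) []) := by
  rcases ht with ht | ht
  · rw [ht, neg_zero]
    exact (unknot_double true).trans (unknot_double false).symm
  · rw [ht, neg_neg]
    exact figure_eight

theorem long_nil (M : Mods) : IsLongKnot [] := M.lkc 0 [] (bd_nil 0) (isKnot_zero 1)

/-- two doubles with opposite clasps -/
theorem opp (c : Ctx JS Cf) (M : Mods) {d d' : ℕ} {D D' : Diag} (h : Cls d D) (h' : Cls d' D')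
    (h1 : Sep JS D []) (h2 : Sep JS [] D') (m m' : ℤ) :
    Sep JS (double true m D) (double false m' D') := by
  intro hd hd' hs
  have hD := h.long M.lkc M.lkd
  have hD' := h'.long M.lkc M.lkd
  have h0 := long_nil M
  obtain ⟨k, hk⟩ := c.adx D hD
  obtain ⟨k', hk'⟩ := c.adx D' hD'
  have hall := all_eq c M (Cls.double d true m D h) (Cls.double d' false m' D' h') hd hd' hs
  obtain ⟨ht', ht, hT⟩ := M.opc JS Cf _ _ _ _ _ _ (hk true m hd) (hk' false m' hd')
    (inf_all c M h hD).1 (inf_all c M h' hD').1 hall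
  have hu := c.nil h0
  rcases hT with hT | hT
  · have hE : EqD 1 D [] := h1 hD h0 fun N hN => (hT N hN.pos).trans (hu N hN.pos).symm
    have a1 := (to_nil c M h hD hE true m _ hd (hk true m hd)).trans (nil_opp ht)
    have hd2 := a1.isLongKnot hd
    have hs2 : Odds JS (ofDiag (double false (-(m + k)) []) hd2)
        (ofDiag (double false m' D') hd') := by
      rw [← a1.knot hd]
      exact hs
    exact a1.trans (same c M cls_nil h' h2 false _ m' hd2 hd' hs2)
  · have hE : EqD 1 D' [] := (h2 h0 hD' fun N hN => (hu N hN.pos).trans (hT N hN.pos).symm).symm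
    have a1 := to_nil c M h' hD' hE false m' _ hd' (hk' false m' hd')
    rw [ht'] at a1
    have a2 := a1.trans (nil_opp ht).symm
    have hd2 := a2.isLongKnot hd'
    have hs2 : Odds JS (ofDiag (double true m D) hd)
        (ofDiag (double true (m + k) []) hd2) := by
      rw [← a2.knot hd']
      exact hs
    exact (same c M h cls_nil h1 true m _ hd hd2 hs2).trans a2.symm

/-- two doubles -/
theorem dd (c : Ctx JS Cf) (M : Mods) {d d' : ℕ} {D D' : Diag} (h : Cls d D) (h' : Cls d' D')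
    (h0 : Sep JS D D') (h1 : Sep JS D []) (h2 : Sep JS [] D') (e e' : Bool) (m m' : ℤ) :
    Sep JS (double e m D) (double e' m' D') := by
  cases e <;> cases e'
  · exact same c M h h' h0 false m m'
  · exact (opp c M h' h h2.symm h1.symm m' m).symm
  · exact opp c M h h' h1 h2 m m'
  · exact same c M h h' h0 true m m'

theorem Sep.congr {D D' D'' : Diag} (hE : EqD 1 D D') (h : Sep JS D' D'') : Sep JS D D'' := by
  intro hD hD'' hs
  refine hE.trans (h (hE.isLongKnot hD) hD'' ?_)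
  rw [← hE.knot hD]
  exact hs

/-- a graph knot and a double -/
theorem gd (c : Ctx JS Cf) (M : Mods) {n : ℕ} {w : Word} (hw : Bd n w)
    (hk : LibH11.IsKnot (ev n w)) (hg : GraphKnot (closure (ev n w) hk)) {d : ℕ} {D : Diag}
    (h : Cls d D) (h0 : Sep JS [] D) (h1 : Sep JS [] []) (e : Bool) (m : ℤ) :
    Sep JS (cl n w) (double e m D) := by
  intro hl hd hs
  obtain ⟨-, hc⟩ := c.gri n w hk hl hw hg
  rcases hc with ⟨hu, -⟩ | ⟨⟨ht, hu⟩ | ⟨ht, hu⟩, -⟩ | ⟨x, z, u, v', hx, hx0, hu⟩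
  · have hE := (M.mrk n 0 w [] hw (bd_nil 0) hk (isKnot_zero 1) hu).trans
      (unknot_double false).symm
    exact Sep.congr hE (dd c M cls_nil h h0 h1 h0 false e 0 m) hl hd hs
  · have hE := (M.mrk n 1 w _ hw (by intro x hx; simp at hx; simp [hx]) hk ht hu).trans
      trefoil_false.symm
    exact Sep.congr hE (dd c M cls_nil h h0 h1 h0 false e (-1) m) hl hd hs
  · have hE := (M.mrk n 1 w _ hw (by intro x hx; simp at hx; simp [hx]) hk ht hu).trans
      trefoil_true.symm
    exact Sep.congr hE (dd c M cls_nil h h0 h1 h0 true e 1 m) hl hd hs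
  · exfalso
    have hD := h.long M.lkc M.lkd
    have hall := all_eq c M (Cls.graph n w hw hk hg) (Cls.double d e m D h) hl hd hs
    have hx' : LdE 2 x z u v' (fun N => JS N (ofDiag (double e m D) hd)) := by
      intro N hN
      have h3 := hx N hN
      simp only at h3 ⊢
      rw [← hall N hN]
      exact h3
    exact M.gvd _ x z u v' (infd_double c M hD (inf_all c M h hD).1 e m hd) hx' hx0 hu

/-- The coloured Jones polynomials of odd dimension separate the class. -/
theorem sep_all (c : Ctx JS Cf) (M : Mods) : ∀ (s d d' : ℕ) (D D' : Diag), d + d' ≤ s →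
    Cls d D → Cls d' D' → Sep JS D D' := by
  intro s
  induction s with
  | zero =>
    intro d d' D D' hs h h'
    cases h with
    | graph n w hw hk hg =>
      cases h' with
      | graph n' w' hw' hk' hg' =>
        intro hD hD' ho
        exact M.mrk n n' w w' hw hw' hk hk'
          (c.ggo n n' w w' hk hk' hD hD' hw hw' hg hg' ho)
      | double d1 e m D1 h1 => omega
    | double d1 e m D1 h1 => omega
  | succ s ih =>
    intro d d' D D' hs h h'
    cases h with
    | graph n w hw hk hg =>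
      cases h' with
      | graph n' w' hw' hk' hg' =>
        intro hD hD' ho
        exact M.mrk n n' w w' hw hw' hk hk'
          (c.ggo n n' w w' hk hk' hD hD' hw hw' hg hg' ho)
      | double d1 e m D1 h1 =>
        exact gd c M hw hk hg h1 (ih 0 d1 [] D1 (by omega) cls_nil h1)
          (ih 0 0 [] [] (by omega) cls_nil cls_nil) e m
    | double d1 e m D1 h1 =>
      cases h' with
      | graph n' w' hw' hk' hg' =>
        exact (gd c M hw' hk' hg' h1 (ih 0 d1 [] D1 (by omega) cls_nil h1)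
          (ih 0 0 [] [] (by omega) cls_nil cls_nil) e m).symm
      | double d2 e' m' D2 h2 =>
        exact dd c M h1 h2 (ih d1 d2 D1 D2 (by omega) h1 h2)
          (ih d1 0 D1 [] (by omega) h1 cls_nil) (ih 0 d2 [] D2 (by omega) cls_nil h2) e e' m m'

end Main

theorem den_ne {N : ℕ} (hN : 1 ≤ N) : (E N - E (-N) : ℚ⟦X⟧) ≠ 0 := by
  intro h
  have h3 := congrArg (fun f : ℚ⟦X⟧ => coeff 1 f) h
  simp [E] at h3
  omega

/-- The coloured Jones polynomials exist and have the properties used. -/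
theorem ctx_all (hO : OPS_Stmt) (hJ : JX2_Stmt) (hG : GRI_Stmt) (hGG : GGO_Stmt) (hA : ADX_Stmt)
    (hX : ALX_Stmt) : ∃ (JS : ℕ → SKnot → ℚ⟦X⟧) (Cf : Bool → ℕ → ℕ → KQ), Ctx JS Cf ∧
    ∀ N : ℕ, 1 ≤ N → ∀ K K' : SKnot, Same0 K K' → JS N K = JS N K' := by
  obtain ⟨M, cb, hops⟩ := hO
  obtain ⟨v, JS, hv, hj, hd⟩ := hJ M cb hops
  obtain ⟨Cf, hcf, h1, hadx, hadn⟩ := hA M cb v JS hops hv hj hd hX
  refine ⟨JS, Cf, ⟨h1, hcf, hadx, hadn, hG M cb v JS hops hv hj, ?_, hGG M cb v JS hops hv hj⟩,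
    hj.ft⟩
  intro h0 N hN
  have h2 := hj.br N hN 0 [] (isKnot_zero 1) h0 (bd_nil 0)
  have h3 := hv.unit N
  have h4 : (E N - E (-N)) * JS N (ofDiag [] h0) = (E 1 - E (-1)) * v N unknot := h2
  apply mul_left_cancel₀ (den_ne hN)
  rw [mul_one]
  exact h4.trans h3

end Asm

open Asm in
/-- **Main theorem**, for invariants with integer values. -/
theorem main_int (hO : OPS_Stmt) (hJ : JX2_Stmt) (hG : GRI_Stmt) (hGG : GGO_Stmt) (hA : ADX_Stmt)
    (hX : ALX_Stmt) (M : Mods) (K K' : SKnot) (hK : IsIterated K) (hK' : IsIterated K')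
    (hs : Same0 K K') : K = K' := by
  obtain ⟨JS, Cf, c, hft⟩ := ctx_all hO hJ hG hGG hA hX
  obtain ⟨d, D, hD, h, rfl⟩ := exists_cls M.dbe hK
  obtain ⟨d', D', hD', h', rfl⟩ := exists_cls M.dbe hK'
  exact (sep_all c M (d + d') d d' D D' le_rfl h h' hD hD'
    fun N hN => hft N hN.pos _ _ hs).knot hD

end Pool.Agent.WD2
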