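import Pool.Agent.WD2.StE

/-!
# Iterated doubles, module BIV (helper33): entries of the clasp times `F^i E^i`
-/

set_option autoImplicit false

namespace Pool.Agent.WD2

open Pool.Agent.LibH11 Pool.Agent.IT Pool.Agent.GK Pool.Agent.TwoBr Pool.Agent.WD
open scoped BigOperators

namespace BIV

variable {K : Type} [Field K] {s : K}

/-! ### Sums over labels -/

theorem sum0 {N : ℕ} {G : (Fin 2 → Fin N) → K} {g : ℕ → K}
    (h0 : ∀ z, (z 0 : ℕ) + z 1 + 1 ≠ N → G z = 0)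
    (h1 : ∀ z, (z 0 : ℕ) + z 1 + 1 = N → G z = g (z 0)) :
    ∑ z, G z = ∑ m ∈ Finset.range N, g m := by
  rw [← (finTwoArrowEquiv (Fin N)).symm.sum_comp, Fintype.sum_prod_type, Finset.sum_range]
  refine Finset.sum_congr rfl fun a _ => ?_
  rw [Finset.sum_eq_single (Fin.rev a)]
  · refine h1 _ ?_
    simp only [finTwoArrowEquiv_symm_apply, Matrix.cons_val_zero, Matrix.cons_val_one, Fin.val_rev]
    have := a.isLt
    omega
  · intro b _ hb
    refine h0 _ fun h => hb ?_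
    simp only [finTwoArrowEquiv_symm_apply, Matrix.cons_val_zero, Matrix.cons_val_one] at h
    apply Fin.ext
    rw [Fin.val_rev]
    omega
  · intro h
    exact absurd (Finset.mem_univ _) h

theorem sum1 {N : ℕ} {G : (Fin 2 → Fin N) → K} {g : ℕ → K}
    (h0 : ∀ z, (z 0 : ℕ) + z 1 + 1 ≠ N → G z = 0)
    (h1 : ∀ z, (z 0 : ℕ) + z 1 + 1 = N → G z = g (z 1)) :
    ∑ z, G z = ∑ m ∈ Finset.range N, g m := by
  rw [← (finTwoArrowEquiv (Fin N)).symm.sum_comp, Fintype.sum_prod_type, Finset.sum_comm,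
    Finset.sum_range]
  refine Finset.sum_congr rfl fun a _ => ?_
  rw [Finset.sum_eq_single (Fin.rev a)]
  · refine h1 _ ?_
    simp only [finTwoArrowEquiv_symm_apply, Matrix.cons_val_zero, Matrix.cons_val_one, Fin.val_rev]
    have := a.isLt
    omega
  · intro b _ hb
    refine h0 _ fun h => hb ?_
    simp only [finTwoArrowEquiv_symm_apply, Matrix.cons_val_zero, Matrix.cons_val_one] at h
    apply Fin.ext
    rw [Fin.val_rev]
    omega
  · intro h
    exact absurd (Finset.mem_univ _) h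

theorem sum_cut {N i : ℕ} (hi : i < N) {g : ℕ → K} (h : ∀ m, i < m → g m = 0) :
    ∑ m ∈ Finset.range N, g m = ∑ m ∈ Finset.range (i + 1), g m := by
  symm
  refine Finset.sum_subset (fun m hm => ?_) fun m _ hm => h m ?_
  · rw [Finset.mem_range] at hm ⊢
    omega
  · rw [Finset.mem_range] at hm
    omega

/-! ### The sum -/

theorem one_sub (h0 : s ≠ 0) (a : ℤ) : 1 - s ^ (-(4 * a)) = s ^ (-(2 * a)) * br s a := by
  unfold br
  rw [mul_sub, ← zpow_add₀ h0, ← zpow_add₀ h0]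
  have e1 : -(2 * a) + 2 * a = 0 := by ring
  have e2 : -(2 * a) + -(2 * a) = -(4 * a) := by ring
  rw [e1, e2, zpow_zero]

theorem prod_eq (h0 : s ≠ 0) (n : ℕ) : ∀ i : ℕ, i ≤ n →
    (∏ l ∈ Finset.range i, (1 + -s ^ (-(4 * (n : ℤ))) * s ^ (4 * (l : ℤ)))) * bf s (n - i) =
      s ^ (-(2 * (n : ℤ) * i) + i * ((i : ℤ) - 1)) * bf s n := by
  intro i
  induction i with
  | zero =>
    intro _
    simp
  | succ i ih =>
    intro hi
    have h1 := ih (by omega)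
    have h2 : n - i = (n - (i + 1)) + 1 := by omega
    rw [h2, bf_succ] at h1
    have h4 : (((n - (i + 1) : ℕ) : ℤ) + 1) = (n : ℤ) - i := by omega
    rw [h4] at h1
    rw [Finset.prod_range_succ]
    have h5 : 1 + -s ^ (-(4 * (n : ℤ))) * s ^ (4 * (i : ℤ)) =
        s ^ (-(2 * ((n : ℤ) - i))) * br s ((n : ℤ) - i) := by
      rw [← one_sub h0, neg_mul, ← zpow_add₀ h0, ← sub_eq_add_neg]
      congr 2
      ring
    rw [h5]
    have h6 : s ^ (-(2 * (n : ℤ) * ((i + 1 : ℕ) : ℤ)) +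
        ((i + 1 : ℕ) : ℤ) * (((i + 1 : ℕ) : ℤ) - 1)) =
        s ^ (-(2 * ((n : ℤ) - i))) * s ^ (-(2 * (n : ℤ) * i) + i * ((i : ℤ) - 1)) := by
      rw [← zpow_add₀ h0]
      congr 1
      push_cast
      ring
    rw [h6, mul_assoc (s ^ (-(2 * ((n : ℤ) - i)))), ← h1]
    ring

/-- the sum for the sign `1` -/
theorem SM (hG : GBT_Stmt) (hs : IT.Gen s) (n i : ℕ) (hi : i ≤ n) :
    ∑ m ∈ Finset.range (i + 1), (-1) ^ m *
      s ^ (2 * ((n : ℤ) ^ 2 - i * n + m * ((i : ℤ) - 1) - 2 * m * n)) *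
        (bf s i / (bf s m * bf s (i - m))) =
      s ^ (2 * (n : ℤ) ^ 2 - 4 * i * n + i * ((i : ℤ) - 1)) * (bf s n / bf s (n - i)) := by
  have h0 := hs.1
  have h1 := hG K s hs i (-s ^ (-(4 * (n : ℤ))))
  have h2 := prod_eq h0 n i hi
  have h3 : ∑ m ∈ Finset.range (i + 1), (-1) ^ m *
      s ^ (2 * ((n : ℤ) ^ 2 - i * n + m * ((i : ℤ) - 1) - 2 * m * n)) *
        (bf s i / (bf s m * bf s (i - m))) = s ^ (2 * ((n : ℤ) ^ 2 - i * n)) *
      ∏ l ∈ Finset.range i, (1 + -s ^ (-(4 * (n : ℤ))) * s ^ (4 * (l : ℤ))) := by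
    rw [h1, Finset.mul_sum]
    refine Finset.sum_congr rfl fun m _ => ?_
    have h4 : (-s ^ (-(4 * (n : ℤ)))) ^ m = (-1) ^ m * s ^ (-(4 * (n : ℤ) * m)) := by
      rw [neg_pow, ← zpow_natCast (s ^ (-(4 * (n : ℤ)))), ← zpow_mul]
      congr 2
      ring
    have h5 : s ^ (2 * ((n : ℤ) ^ 2 - i * n + m * ((i : ℤ) - 1) - 2 * m * n)) =
        s ^ (2 * ((n : ℤ) ^ 2 - i * n)) * s ^ (2 * ((m : ℤ) * ((i : ℤ) - 1))) *
          s ^ (-(4 * (n : ℤ) * m)) := by
      rw [← zpow_add₀ h0, ← zpow_add₀ h0]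
      congr 1
      ring
    rw [h4, h5]
    ring
  rw [h3, ← mul_div_assoc, eq_div_iff (bf_ne hs _), mul_assoc, h2, ← mul_assoc, ← zpow_add₀ h0]
  congr 2
  ring

theorem br_inv (a : ℤ) : br s⁻¹ a = -br s a := by
  unfold br
  rw [inv_zpow', inv_zpow', neg_neg]
  ring

theorem bf_inv (n : ℕ) : bf s⁻¹ n = (-1) ^ n * bf s n := by
  induction n with
  | zero => simp [bf_zero]
  | succ n ih =>
    rw [bf_succ, bf_succ, ih, br_inv, pow_succ]
    ring

theorem gen_inv (hs : IT.Gen s) : IT.Gen s⁻¹ := by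
  refine ⟨inv_ne_zero hs.1, fun n hn h => hs.2 n hn ?_⟩
  rw [inv_pow, inv_eq_one] at h
  exact h

/-- the sum for the sign `-1` -/
theorem SM' (hG : GBT_Stmt) (hs : IT.Gen s) (n i : ℕ) (hi : i ≤ n) :
    ∑ m ∈ Finset.range (i + 1), (-1) ^ m *
      s ^ (-(2 * ((n : ℤ) ^ 2 - i * n + m * ((i : ℤ) - 1) - 2 * m * n))) *
        (bf s i / (bf s m * bf s (i - m))) =
      (-1) ^ i * s ^ (-(2 * (n : ℤ) ^ 2 - 4 * i * n + i * ((i : ℤ) - 1))) *
        (bf s n / bf s (n - i)) := by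
  have h1 := SM hG (gen_inv hs) n i hi
  have e1 : ∀ k : ℕ, (-1 : K) ^ k ≠ 0 := fun k => pow_ne_zero _ (by simp)
  have e2 : bf s⁻¹ n / bf s⁻¹ (n - i) = (-1) ^ i * (bf s n / bf s (n - i)) := by
    obtain ⟨r, rfl⟩ : ∃ r, n = i + r := ⟨n - i, by omega⟩
    rw [bf_inv, bf_inv, Nat.add_sub_cancel_left, pow_add]
    have := bf_ne hs r
    have := e1 r
    field_simp
  rw [e2, inv_zpow'] at h1
  have e3 : ∀ m ∈ Finset.range (i + 1), (-1) ^ m *
      (s⁻¹) ^ (2 * ((n : ℤ) ^ 2 - i * n + m * ((i : ℤ) - 1) - 2 * m * n)) *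
        (bf s⁻¹ i / (bf s⁻¹ m * bf s⁻¹ (i - m))) = (-1) ^ m *
      s ^ (-(2 * ((n : ℤ) ^ 2 - i * n + m * ((i : ℤ) - 1) - 2 * m * n))) *
        (bf s i / (bf s m * bf s (i - m))) := by
    intro m hm
    rw [Finset.mem_range] at hm
    obtain ⟨k, hk⟩ : ∃ k, i = m + k := ⟨i - m, by omega⟩
    have e4 : bf s⁻¹ i / (bf s⁻¹ m * bf s⁻¹ (i - m)) = bf s i / (bf s m * bf s (i - m)) := by
      rw [bf_inv, bf_inv, bf_inv]
      have e5 : i - m = k := by omega
      rw [e5, hk, pow_add]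
      have := bf_ne hs m
      have := bf_ne hs k
      have := e1 m
      have := e1 k
      field_simp
    rw [e4, inv_zpow']
  rw [Finset.sum_congr rfl e3] at h1
  rw [h1]
  ring

/-! ### The computation -/

theorem qfac_ne (hs : IT.Gen s) (n : ℕ) : qfac s n ≠ 0 := by
  intro h
  have h1 := qfac_eq hs n
  rw [h, zero_mul] at h1
  exact bf_ne hs n h1.symm

theorem qfac_zero : qfac s 0 = 1 := by simp [qfac]

/-- the common step: factorials -/
theorem fac (hs : IT.Gen s) {n i m : ℕ} (hi : i ≤ n) (hm : m ≤ i) (c d u : K)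
    (hcd : c = d * qfac s (n - m) * u) :
    br s 1 ^ (2 * i) * (c * (qfac s n / (qfac s m * qfac s (n - m))) *
      (qfac s i * (qfac s i / qfac s (i - m)) * (1 / qfac s (n - i)))) =
    bf s i * (bf s n / bf s (n - i)) * (d * u * (bf s i / (bf s m * bf s (i - m)))) := by
  obtain ⟨r, hr⟩ : ∃ r, n = i + r := ⟨n - i, by omega⟩
  obtain ⟨k, hk⟩ : ∃ k, i = m + k := ⟨i - m, by omega⟩
  have e1 : n - i = r := by omega
  have e2 : i - m = k := by omega
  have b1 : br s 1 ≠ 0 := br_ne hs one_ne_zero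
  have q1 := qfac_ne hs m
  have q2 := qfac_ne hs (n - m)
  have q3 := qfac_ne hs k
  have q4 := qfac_ne hs r
  have p1 : bf s n = qfac s n * (br s 1 ^ m * br s 1 ^ k * br s 1 ^ r) := by
    rw [← qfac_eq hs n, ← pow_add, ← pow_add]
    congr 2
    omega
  have p2 : bf s i = qfac s i * (br s 1 ^ m * br s 1 ^ k) := by
    rw [← qfac_eq hs i, ← pow_add]
    congr 2
  have p3 : br s 1 ^ (2 * i) = (br s 1 ^ m * br s 1 ^ k) * (br s 1 ^ m * br s 1 ^ k) := by
    rw [← pow_add, ← pow_add]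
    congr 1
    omega
  rw [e1, e2, p1, p2, p3, ← qfac_eq hs r, ← qfac_eq hs m, ← qfac_eq hs k, hcd]
  have w1 := pow_ne_zero m b1
  have w2 := pow_ne_zero k b1
  have w3 := pow_ne_zero r b1
  field_simp

theorem main (hF : FEN_Stmt) (hC : CRW_Stmt) (hG : GBT_Stmt) (hs : IT.Gen s) {N : ℕ} (hN : 1 ≤ N)
    {i : ℕ} (hi : i < N) (x y : Fin 2 → Fin N) (hx0 : (x 0 : ℕ) = N - 1) (hx1 : (x 1 : ℕ) = 0)
    (hy0 : (y 0 : ℕ) = 0) (hy1 : (y 1 : ℕ) = N - 1) :
    br s 1 ^ (2 * i) * (clasp (MV s N) true *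
      ((fpow s (V s N) 2).F ^ i * (fpow s (V s N) 2).E ^ i)) x y =
      bf s i * (bf s (N - 1) / bf s (N - 1 - i)) ^ 2 *
        s ^ (2 * ((N : ℤ) - 1) ^ 2 - 4 * i * ((N : ℤ) - 1) + i * ((i : ℤ) - 1)) := by
  have h0 := hs.1
  obtain ⟨n, rfl⟩ : ∃ n, N = n + 1 := ⟨N - 1, by omega⟩
  simp only [Nat.add_sub_cancel] at *
  have hcap : vcap s (n + 1) (x 0) (x 1) = 1 := by
    have q1 := qfac_ne hs n
    unfold vcap vcup
    rw [if_pos (by omega), if_pos (by omega), hx1, hx0]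
    simp only [Nat.add_sub_cancel, qfac_zero]
    simp [q1]
  let g : ℕ → K := fun m => if m ≤ i then
    ((-1) ^ m * s ^ (2 * (m : ℤ) * ((m : ℤ) - (n + 1 : ℕ))) *
      (qfac s n / (qfac s m * qfac s (n - m))) *
      s ^ (2 * ((((n + 1 : ℕ) : ℤ) - 1) * (((n + 1 : ℕ) : ℤ) - 1 - 2 * (m : ℕ)))) * 1) *
    (qfac s i * s ^ (2 * (((i : ℤ) - (m : ℕ)) * ((m : ℕ) - ((n + 1 : ℕ) : ℤ) + 1))) *
          (qfac s i / qfac s (i - m)) * (qfac s (n - m) / qfac s (n - i))) else 0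
  rw [Matrix.mul_apply, sum0 (g := g), sum_cut hi (g := g), Finset.mul_sum]
  · have hSM := SM hG hs n i (by omega)
    have e1 : ∀ m ∈ Finset.range (i + 1), br s 1 ^ (2 * i) * g m =
        bf s i * (bf s n / bf s (n - i)) * ((-1) ^ m *
          s ^ (2 * ((n : ℤ) ^ 2 - i * n + m * ((i : ℤ) - 1) - 2 * m * n)) *
          (bf s i / (bf s m * bf s (i - m)))) := by
      intro m hm
      rw [Finset.mem_range] at hm
      have hmi : m ≤ i := by omega
      have e2 : s ^ (2 * ((n : ℤ) ^ 2 - i * n + m * ((i : ℤ) - 1) - 2 * m * n)) =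
          s ^ (2 * (m : ℤ) * ((m : ℤ) - (n + 1 : ℕ))) *
          s ^ (2 * ((((n + 1 : ℕ) : ℤ) - 1) * (((n + 1 : ℕ) : ℤ) - 1 - 2 * (m : ℕ)))) *
          s ^ (2 * (((i : ℤ) - (m : ℕ)) * ((m : ℕ) - ((n + 1 : ℕ) : ℤ) + 1))) := by
        rw [← zpow_add₀ h0, ← zpow_add₀ h0]
        congr 1
        push_cast
        ring
      have e3 := fac hs (by omega : i ≤ n) hmi _ ((-1) ^ m)
        (s ^ (2 * ((n : ℤ) ^ 2 - i * n + m * ((i : ℤ) - 1) - 2 * m * n))) rfl
      rw [← e3, e2]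
      simp only [g, if_pos hmi]
      ring
    rw [Finset.sum_congr rfl e1, ← Finset.mul_sum, hSM]
    push_cast
    have e4 : (n : ℤ) + 1 - 1 = n := by ring
    rw [e4]
    ring
  · intro m hm
    simp only [g]
    rw [if_neg (by omega)]
  · intro z hz
    rw [(hC K s hs (n + 1) hN x z).1 (by omega) hx1]
    unfold vcup
    rw [if_neg hz, zero_mul, zero_mul, zero_mul]
  · intro z hz
    rw [(hC K s hs (n + 1) hN x z).1 (by omega) hx1, hcap,
      (hF K s hs (n + 1) hN z y hz i hi).1 hy0 (by omega)]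
    have hz1 : (z 1 : ℕ) = n - z 0 := by omega
    simp only [g]
    unfold vcup
    rw [if_pos hz, hz1]
    simp only [Nat.add_sub_cancel]
    by_cases hzi : (z 0 : ℕ) ≤ i
    · rw [if_pos hzi, if_pos hzi]
    · rw [if_neg hzi, if_neg hzi, mul_zero]

theorem main' (hF : FEN_Stmt) (hC : CRW_Stmt) (hG : GBT_Stmt) (hs : IT.Gen s) {N : ℕ} (hN : 1 ≤ N)
    {i : ℕ} (hi : i < N) (x y : Fin 2 → Fin N) (hx0 : (x 0 : ℕ) = 0) (hx1 : (x 1 : ℕ) = N - 1)
    (hy0 : (y 0 : ℕ) = N - 1) (hy1 : (y 1 : ℕ) = 0) :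
    br s 1 ^ (2 * i) * (clasp (MV s N) false *
      ((fpow s (V s N) 2).F ^ i * (fpow s (V s N) 2).E ^ i)) x y =
      (-1) ^ i * bf s i * (bf s (N - 1) / bf s (N - 1 - i)) ^ 2 *
        s ^ (-(2 * ((N : ℤ) - 1) ^ 2 - 4 * i * ((N : ℤ) - 1) + i * ((i : ℤ) - 1))) := by
  have h0 := hs.1
  obtain ⟨n, rfl⟩ : ∃ n, N = n + 1 := ⟨N - 1, by omega⟩
  simp only [Nat.add_sub_cancel] at *
  have hcap : vcap s (n + 1) (x 0) (x 1) = (-1) ^ n * s ^ (2 * (n : ℤ)) := by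
    have q1 := qfac_ne hs n
    unfold vcap vcup
    rw [if_pos (by omega), if_pos (by omega), hx1, hx0]
    simp only [Nat.add_sub_cancel, qfac_zero, mul_one, div_self q1]
    refine inv_eq_of_mul_eq_one_right ?_
    have e1 : (-1 : K) ^ n * (-1) ^ n = 1 := by
      rw [← pow_add, ← two_mul, pow_mul, neg_one_sq, one_pow]
    have e2 : s ^ (2 * (n : ℤ) * ((n : ℤ) - ((n + 1 : ℕ) : ℤ))) * s ^ (2 * (n : ℤ)) = 1 := by
      rw [← zpow_add₀ h0]
      have e3 : 2 * (n : ℤ) * ((n : ℤ) - ((n + 1 : ℕ) : ℤ)) + 2 * (n : ℤ) = 0 := by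
        push_cast
        ring
      rw [e3, zpow_zero]
    calc _ = ((-1 : K) ^ n * (-1) ^ n) *
          (s ^ (2 * (n : ℤ) * ((n : ℤ) - ((n + 1 : ℕ) : ℤ))) * s ^ (2 * (n : ℤ))) := by ring
      _ = 1 := by rw [e1, e2, mul_one]
  let g : ℕ → K := fun p => if p ≤ i then
    ((-1) ^ (n - p) * s ^ (2 * ((n - p : ℕ) : ℤ) * (((n - p : ℕ) : ℤ) - (n + 1 : ℕ))) *
      (qfac s n / (qfac s (n - p) * qfac s p)) *
      s ^ (2 * ((((n + 1 : ℕ) : ℤ) - 1) * (((n + 1 : ℕ) : ℤ) - 1 - 2 * ((n - p : ℕ) : ℤ)))) *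
      ((-1) ^ n * s ^ (2 * (n : ℤ)))) *
    (qfac s i * s ^ (2 * ((((n + 1 : ℕ) : ℤ) - 1) * i + ((i : ℤ) - (p : ℕ)) * (p : ℕ) -
          (p : ℕ) * (2 * (i : ℤ) - (n + 1 : ℕ) + 1))) *
          (qfac s i / qfac s (i - p)) * (qfac s (n - p) / qfac s (n - i))) else 0
  rw [Matrix.mul_apply, sum1 (g := g), sum_cut hi (g := g), Finset.mul_sum]
  · have hSM := SM' hG hs n i (by omega)
    have e1 : ∀ m ∈ Finset.range (i + 1), br s 1 ^ (2 * i) * g m =
        bf s i * (bf s n / bf s (n - i)) * ((-1) ^ m *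
          s ^ (-(2 * ((n : ℤ) ^ 2 - i * n + m * ((i : ℤ) - 1) - 2 * m * n))) *
          (bf s i / (bf s m * bf s (i - m)))) := by
      intro m hm
      rw [Finset.mem_range] at hm
      have hmi : m ≤ i := by omega
      have hmn : m ≤ n := by omega
      have e2 : s ^ (-(2 * ((n : ℤ) ^ 2 - i * n + m * ((i : ℤ) - 1) - 2 * m * n))) =
          s ^ (2 * ((n - m : ℕ) : ℤ) * (((n - m : ℕ) : ℤ) - (n + 1 : ℕ))) *
          s ^ (2 * ((((n + 1 : ℕ) : ℤ) - 1) * (((n + 1 : ℕ) : ℤ) - 1 - 2 * ((n - m : ℕ) : ℤ)))) *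
          s ^ (2 * (n : ℤ)) *
          s ^ (2 * ((((n + 1 : ℕ) : ℤ) - 1) * i + ((i : ℤ) - (m : ℕ)) * (m : ℕ) -
            (m : ℕ) * (2 * (i : ℤ) - (n + 1 : ℕ) + 1))) := by
        rw [← zpow_add₀ h0, ← zpow_add₀ h0, ← zpow_add₀ h0]
        congr 1
        push_cast [Nat.cast_sub hmn]
        ring
      have e5 : (-1 : K) ^ m = (-1) ^ (n - m) * (-1) ^ n := by
        obtain ⟨t, ht⟩ : ∃ t, n = m + t := ⟨n - m, by omega⟩
        have e6 : n - m = t := by omega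
        rw [e6, ht, pow_add]
        have e7 : (-1 : K) ^ t * (-1) ^ t = 1 := by
          rw [← pow_add, ← two_mul, pow_mul, neg_one_sq, one_pow]
        calc (-1 : K) ^ m = (-1) ^ m * 1 := by ring
          _ = (-1) ^ m * ((-1) ^ t * (-1) ^ t) := by rw [e7]
          _ = (-1) ^ t * ((-1) ^ m * (-1) ^ t) := by ring
      have e3 := fac hs (by omega : i ≤ n) hmi _ ((-1) ^ m)
        (s ^ (-(2 * ((n : ℤ) ^ 2 - i * n + m * ((i : ℤ) - 1) - 2 * m * n)))) rfl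
      rw [← e3, e2, e5]
      simp only [g, if_pos hmi]
      ring
    rw [Finset.sum_congr rfl e1, ← Finset.mul_sum, hSM]
    push_cast
    have e4 : (n : ℤ) + 1 - 1 = n := by ring
    rw [e4]
    ring
  · intro m hm
    simp only [g]
    rw [if_neg (by omega)]
  · intro z hz
    rw [(hC K s hs (n + 1) hN x z).2 hx0 (by omega)]
    unfold vcup
    rw [if_neg hz, zero_mul, zero_mul, zero_mul]
  · intro z hz
    rw [(hC K s hs (n + 1) hN x z).2 hx0 (by omega), hcap,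
      (hF K s hs (n + 1) hN z y hz i hi).2 (by omega) hy1]
    have hz1 : (z 0 : ℕ) = n - z 1 := by omega
    simp only [g]
    unfold vcup
    rw [if_pos hz, hz1]
    simp only [Nat.add_sub_cancel]
    by_cases hzi : (z 1 : ℕ) ≤ i
    · rw [if_pos hzi, if_pos hzi]
    · rw [if_neg hzi, if_neg hzi, mul_zero]

end BIV

open BIV in
/-- BIV: the entries of `clasp * F^i E^i` and of `F^i E^i`. -/
theorem t_BIV (hF : FEN_Stmt) (hC : CRW_Stmt) (hG : GBT_Stmt) : BIV_Stmt := by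
  intro K _ s hs N hN e x y hx0 hx1 hy0 hy1 i hi
  have q2 : ∀ n : ℕ, br s 1 ^ (2 * n) * (qfac s n * qfac s n) = bf s n ^ 2 := by
    intro n
    rw [← qfac_eq hs n, two_mul, pow_add]
    ring
  cases e with
  | true =>
    simp only [if_true] at hx0 hx1 hy0 hy1
    constructor
    · rw [main hF hC hG hs hN hi x y hx0 hx1 hy0 hy1]
      simp [sg]
    · rw [(hF K s hs N hN x y (by omega) i hi).1 hy0 (by omega)]
      by_cases h : i + 1 = N
      · obtain rfl : N = i + 1 := h.symm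
        simp only [Nat.add_sub_cancel] at hx0
        rw [if_pos (by omega), if_pos rfl, hx0, hx1]
        simp only [Nat.add_sub_cancel, Nat.sub_self, qfac_zero, sub_self, zero_mul, mul_zero,
          zpow_zero, div_one, mul_one]
        exact q2 i
      · rw [if_neg (by omega), if_neg h, mul_zero]
  | false =>
    simp only [Bool.false_eq_true, if_false] at hx0 hx1 hy0 hy1
    constructor
    · rw [main' hF hC hG hs hN hi x y hx0 hx1 hy0 hy1]
      simp [sg]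
    · rw [(hF K s hs N hN x y (by omega) i hi).2 (by omega) hy1]
      by_cases h : i + 1 = N
      · obtain rfl : N = i + 1 := h.symm
        simp only [Nat.add_sub_cancel] at hx1
        rw [if_pos (by omega), if_pos rfl, hx0, hx1]
        have e1 : 2 * ((((i + 1 : ℕ) : ℤ) - 1) * (i : ℤ) + ((i : ℤ) - (i : ℕ)) * (i : ℕ) -
          (i : ℕ) * (2 * (i : ℤ) - ((i + 1 : ℕ) : ℤ) + 1)) = 0 := by
          push_cast
          ring
        rw [e1]
        simp only [Nat.add_sub_cancel, Nat.sub_self, qfac_zero, zpow_zero, div_one, mul_one]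
        exact q2 i
      · rw [if_neg (by omega), if_neg h, mul_zero]

end Pool.Agent.WD2
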