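import Pool.Agent.WD.StQ

/-!
# Iterated doubles: the explicit formula for doubles, definitions and basic facts

`{n} = q ^ n - q ^ (-n)`, `q = s ^ 2 = exp X`.
-/

set_option autoImplicit false

namespace Pool.Agent.WD2

open Pool.Agent.LibH11 Pool.Agent.IT Pool.Agent.GK Pool.Agent.TwoBr Pool.Agent.WD
open scoped BigOperators
open PowerSeries

/-- The sign of a clasp. -/
def sg (e : Bool) : ℤ := if e then 1 else -1

section Fld

variable {K : Type} [Field K] (s : K)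

/-- `{n} = q ^ n - q ^ (-n)` -/
def br (n : ℤ) : K := s ^ (2 * n) - s ^ (-(2 * n))

/-- `{n}! = {1} {2} ⋯ {n}` -/
def bf (n : ℕ) : K := ∏ l ∈ Finset.range n, br s (l + 1)

/-- `q ^ (2 j + 1) + q ^ (-(2 j + 1))` -/
def om (j : ℕ) : K := s ^ (2 * (2 * (j : ℤ) + 1)) + s ^ (-(2 * (2 * (j : ℤ) + 1)))

/-- `∏_{l < i} (om j - om l)`: it is `{j + i}! / {j - i}!` for `i ≤ j` and `0` for `j < i`. -/
def pp (i j : ℕ) : K := ∏ l ∈ Finset.range i, (om s j - om s l)

/-- The coefficients of the clasp. -/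
def gam (N : ℕ) (e : Bool) (j : ℕ) : K :=
  wtr (fpow s (V s N) 2) (2 * (j : ℤ)) (clasp (MV s N) e) -
    wtr (fpow s (V s N) 2) (2 * (j : ℤ) + 2) (clasp (MV s N) e)

variable {s}

theorem br_zero : br s 0 = 0 := by simp [br]

theorem br_neg (n : ℤ) : br s (-n) = -br s n := by
  unfold br
  rw [show 2 * -n = -(2 * n) by ring, neg_neg]
  ring

theorem br_ne (hs : IT.Gen s) {n : ℤ} (hn : n ≠ 0) : br s n ≠ 0 := by
  have h0 := hs.1
  have key : ∀ m : ℕ, 0 < m → br s m ≠ 0 := by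
    intro m hm h
    have h1 : s ^ (2 * (m : ℤ)) = s ^ (-(2 * (m : ℤ))) := sub_eq_zero.mp h
    apply hs.2 m hm
    have h2 : s ^ (4 * m : ℕ) = s ^ (2 * (m : ℤ)) * s ^ (2 * (m : ℤ)) := by
      rw [← zpow_add₀ h0, ← zpow_natCast]
      congr 1
      push_cast
      ring
    rw [h2]
    nth_rewrite 2 [h1]
    rw [← zpow_add₀ h0, add_neg_cancel, zpow_zero]
  rcases lt_trichotomy n 0 with h | h | h
  · have h1 := key n.natAbs (by omega)
    have h2 : (n.natAbs : ℤ) = -n := by omega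
    rw [h2, br_neg] at h1
    exact fun h => h1 (by rw [h, neg_zero])
  · exact absurd h hn
  · have h1 := key n.natAbs (by omega)
    have h2 : (n.natAbs : ℤ) = n := by omega
    rwa [h2] at h1

theorem bf_zero : bf s 0 = 1 := by simp [bf]

theorem bf_succ (n : ℕ) : bf s (n + 1) = bf s n * br s (n + 1) := by
  unfold bf
  rw [Finset.prod_range_succ]

theorem bf_ne (hs : IT.Gen s) (n : ℕ) : bf s n ≠ 0 := by
  unfold bf
  refine Finset.prod_ne_zero_iff.mpr fun l _ => br_ne hs ?_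
  omega

theorem zpow_diff (h0 : s ≠ 0) (x y : ℤ) : (s ^ x - s ^ (-x)) * (s ^ y - s ^ (-y)) =
    s ^ (x + y) - s ^ (x - y) - s ^ (-(x - y)) + s ^ (-(x + y)) := by
  have e1 : s ^ (x + y) = s ^ x * s ^ y := zpow_add₀ h0 x y
  have e2 : s ^ (x - y) = s ^ x * s ^ (-y) := by rw [← zpow_add₀ h0, sub_eq_add_neg]
  have e3 : s ^ (-(x - y)) = s ^ (-x) * s ^ y := by
    rw [← zpow_add₀ h0]
    congr 1
    ring
  have e4 : s ^ (-(x + y)) = s ^ (-x) * s ^ (-y) := by
    rw [← zpow_add₀ h0]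
    congr 1
    ring
  rw [e1, e2, e3, e4]
  ring

/-- `{a + b} {a - b} = q ^ (2 a) + q ^ (-2 a) - q ^ (2 b) - q ^ (-2 b)` -/
theorem br_mul_br (h0 : s ≠ 0) (a b : ℤ) : br s (a + b) * br s (a - b) =
    s ^ (4 * a) + s ^ (-(4 * a)) - s ^ (4 * b) - s ^ (-(4 * b)) := by
  unfold br
  rw [zpow_diff h0]
  have e1 : 2 * (a + b) + 2 * (a - b) = 4 * a := by ring
  have e2 : 2 * (a + b) - 2 * (a - b) = 4 * b := by ring
  rw [e1, e2]
  ring

theorem om_sub (h0 : s ≠ 0) (m j : ℕ) :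
    om s m - om s j = br s ((m : ℤ) - j) * br s ((m : ℤ) + j + 1) := by
  unfold om br
  rw [zpow_diff h0]
  have e1 : 2 * ((m : ℤ) - j) + 2 * ((m : ℤ) + j + 1) = 2 * (2 * (m : ℤ) + 1) := by ring
  have e2 : 2 * ((m : ℤ) - j) - 2 * ((m : ℤ) + j + 1) = -(2 * (2 * (j : ℤ) + 1)) := by ring
  rw [e1, e2, neg_neg]
  ring

theorem pp_zero (j : ℕ) : pp s 0 j = 1 := by simp [pp]

theorem pp_succ (i j : ℕ) : pp s (i + 1) j = pp s i j * (om s j - om s i) := by
  unfold pp
  rw [Finset.prod_range_succ]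

theorem pp_of_lt {i j : ℕ} (h : j < i) : pp s i j = 0 := by
  unfold pp
  exact Finset.prod_eq_zero (Finset.mem_range.mpr h) (sub_self _)

theorem pp_ne (hs : IT.Gen s) {i j : ℕ} (h : i ≤ j) : pp s i j ≠ 0 := by
  unfold pp
  refine Finset.prod_ne_zero_iff.mpr fun l hl => ?_
  have hl := Finset.mem_range.mp hl
  rw [om_sub hs.1]
  exact mul_ne_zero (br_ne hs (by omega)) (br_ne hs (by omega))

/-- `pp i j {j - i}! = {j + i}!` -/
theorem pp_mul (hs : IT.Gen s) {i j : ℕ} (h : i ≤ j) : pp s i j * bf s (j - i) = bf s (j + i) := by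
  induction i with
  | zero => simp [pp_zero]
  | succ i ih =>
    have h1 := ih (by omega)
    have h2 : j - i = (j - (i + 1)) + 1 := by omega
    rw [h2, bf_succ] at h1
    have h3 : j + (i + 1) = (j + i) + 1 := by omega
    rw [h3, bf_succ, ← h1, pp_succ, om_sub hs.1]
    have h4 : (((j - (i + 1) : ℕ) : ℤ) + 1) = (j : ℤ) - i := by omega
    rw [h4]
    push_cast
    ring

theorem pp_self (hs : IT.Gen s) (i : ℕ) : pp s i i = bf s (2 * i) := by
  have h := pp_mul hs (le_refl i)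
  rw [Nat.sub_self, bf_zero, mul_one] at h
  rw [h, two_mul]

theorem br_one (w : ℤ) : br s w = s ^ (2 * w) - s ^ (-(2 * w)) := rfl

theorem qn_eq (w : ℤ) : qn s w = br s w / br s 1 := rfl

theorem qfac_eq (hs : IT.Gen s) (n : ℕ) : qfac s n * br s 1 ^ n = bf s n := by
  have h1 : br s 1 ≠ 0 := br_ne hs one_ne_zero
  induction n with
  | zero => simp [qfac, bf]
  | succ n ih =>
    have h2 : qfac s (n + 1) = qfac s n * qn s ((n : ℤ) + 1) := by
      unfold qfac
      rw [Finset.prod_range_succ]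
    rw [h2, bf_succ, ← ih, qn_eq]
    field_simp
    ring

theorem sg_mul (e : Bool) : sg e * sg e = 1 := by cases e <;> rfl

end Fld

end Pool.Agent.WD2
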