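import Pool.Agent.WD2.BaseE

/-!
# Iterated doubles: the cyclotomic form of the formula for doubles, definitions and basic facts

`E a = exp (a X)`, `{n} = E n - E (-n) = X b1 n`.
-/

set_option autoImplicit false

namespace Pool.Agent.WD2

open Pool.Agent.LibH11 Pool.Agent.IT Pool.Agent.GK Pool.Agent.TwoBr Pool.Agent.WD
open scoped BigOperators
open PowerSeries

/-- `(E a - E (-a)) / X` -/
noncomputable def b1 (a : ℚ) : ℚ⟦X⟧ :=
  PowerSeries.mk fun n => (a ^ (n + 1) - (-a) ^ (n + 1)) / ((n + 1).factorial : ℚ)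

/-- `(E a + E (-a) - 2) / X ^ 2` -/
noncomputable def c2 (a : ℚ) : ℚ⟦X⟧ :=
  PowerSeries.mk fun n => (a ^ (n + 2) + (-a) ^ (n + 2)) / ((n + 2).factorial : ℚ)

/-- `{n}! / X ^ n` -/
noncomputable def uF (n : ℕ) : ℚ⟦X⟧ := ∏ l ∈ Finset.range n, b1 (l + 1)

/-- `∏_{l = 1}^i {a - l} {a + l} / X ^ 2` -/
noncomputable def PT (a : ℚ) (i : ℕ) : ℚ⟦X⟧ :=
  ∏ l ∈ Finset.range i, (c2 (2 * a) - c2 (2 * (l + 1)))

/-- `(-1) ^ j X ^ i {i}! {2 j + 1} / ({i - j}! {i + j + 1}!)` for `j ≤ i` -/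
noncomputable def gC (i j : ℕ) : ℚ⟦X⟧ :=
  (-1) ^ j * (uF i * b1 (2 * j + 1)) * (uF (i - j) * uF (i + j + 1))⁻¹

/-- The cyclotomic form of the formula for doubles; `y j` is `E (2 j (j + 1) t) J (2 j + 1)`. -/
noncomputable def cyc (e : Bool) (N : ℕ) (y : ℕ → ℚ⟦X⟧) : ℚ⟦X⟧ :=
  ∑ i ∈ Finset.range N, X ^ i * PT N i *
    (((sg e : ℤ) : ℚ⟦X⟧) ^ i * E (((sg e : ℤ) : ℚ) * (i * (i + 3) / 2))) *
    ∑ j ∈ Finset.range (i + 1), gC i j * y j

/-- `J N = 1 + x (N² - 1) X ^ d + z (N² - 1) X ^ (d+1) + (N² - 1) (u N² + v) X ^ (d+2) + …` -/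
def LdE (d : ℕ) (x z u v : ℚ) (J : ℕ → ℚ⟦X⟧) : Prop :=
  ∀ N : ℕ, 1 ≤ N → X ^ (d + 3) ∣ J N - (1 + C (x * ((N : ℚ) ^ 2 - 1)) * X ^ d +
    C (z * ((N : ℚ) ^ 2 - 1)) * X ^ (d + 1) +
    C (((N : ℚ) ^ 2 - 1) * (u * (N : ℚ) ^ 2 + v)) * X ^ (d + 2))

/-- The coefficients of `J N` are polynomials in `N`. -/
def PolyC (J : ℕ → ℚ⟦X⟧) : Prop :=
  ∀ r : ℕ, ∃ p : Polynomial ℚ, ∀ N : ℕ, 1 ≤ N → coeff r (J N) = p.eval (N : ℚ)

/-- `J` is trivial. -/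
def Triv (J : ℕ → ℚ⟦X⟧) : Prop := ∀ N : ℕ, 1 ≤ N → J N = 1

/-- The leading terms of the coloured Jones polynomials of the knots of the class. -/
def Inf (J : ℕ → ℚ⟦X⟧) : Prop :=
  Triv J ∨ ∃ (d : ℕ) (x z u v : ℚ), LdE d x z u v J ∧ x ≠ 0 ∧
    ((d = 2 ∧ u = x / 3 + x ^ 2) ∨ (3 ≤ d ∧ u = x / 3) ∨ (d = 2 ∧ x < 0 ∧ u < x / 3 + x ^ 2))

/-! ### Basic facts -/

theorem X_mul_b1 (a : ℚ) : X * b1 a = E a - E (-a) := by
  ext n
  cases n with
  | zero => simp [E]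
  | succ n =>
    rw [mul_comm, coeff_succ_mul_X]
    simp only [b1, E, coeff_mk, map_sub]
    ring

theorem X_sq_mul_c2 (a : ℚ) : X ^ 2 * c2 a = E a + E (-a) - 2 := by
  ext n
  have h2 : (2 : ℚ⟦X⟧) = C (2 : ℚ) := (map_ofNat C 2).symm
  rw [h2, mul_comm]
  match n with
  | 0 => simp [E, coeff_mul_X_pow']; norm_num
  | 1 => simp [E, coeff_mul_X_pow']
  | n + 2 =>
    rw [coeff_mul_X_pow]
    simp only [c2, E, coeff_mk, map_sub, map_add, coeff_C]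
    rw [if_neg (by omega)]
    ring

theorem constantCoeff_b1 (a : ℚ) : constantCoeff (b1 a) = 2 * a := by
  rw [← coeff_zero_eq_constantCoeff_apply]
  simp [b1]
  ring

theorem constantCoeff_uF (n : ℕ) : constantCoeff (uF n) = 2 ^ n * (n.factorial : ℚ) := by
  induction n with
  | zero => simp [uF]
  | succ n ih =>
    unfold uF at ih ⊢
    rw [Finset.prod_range_succ, map_mul, ih, constantCoeff_b1, Nat.factorial_succ]
    push_cast
    ring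

theorem constantCoeff_uF_ne (n : ℕ) : constantCoeff (uF n) ≠ 0 := by
  rw [constantCoeff_uF]
  positivity

theorem uF_zero : uF 0 = 1 := by simp [uF]

theorem uF_succ (n : ℕ) : uF (n + 1) = uF n * b1 (n + 1) := by
  unfold uF
  rw [Finset.prod_range_succ]

theorem X_pow_mul_uF (n : ℕ) :
    X ^ n * uF n = ∏ l ∈ Finset.range n, (E ((l : ℚ) + 1) - E (-((l : ℚ) + 1))) := by
  unfold uF
  rw [← Finset.card_range n, ← Finset.prod_const, Finset.card_range, ← Finset.prod_mul_distrib]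
  exact Finset.prod_congr rfl fun l _ => X_mul_b1 _

theorem uu_ne (i j : ℕ) : constantCoeff (uF (i - j) * uF (i + j + 1)) ≠ 0 := by
  rw [map_mul]
  exact mul_ne_zero (constantCoeff_uF_ne _) (constantCoeff_uF_ne _)

/-- the defining property of `gC` -/
theorem gC_mul (i j : ℕ) : gC i j * (uF (i - j) * uF (i + j + 1)) =
    (-1) ^ j * (uF i * b1 (2 * j + 1)) := by
  unfold gC
  rw [mul_assoc, PowerSeries.inv_mul_cancel _ (uu_ne i j), mul_one]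

theorem PT_zero (a : ℚ) : PT a 0 = 1 := by simp [PT]

theorem PT_succ (a : ℚ) (i : ℕ) : PT a (i + 1) = PT a i * (c2 (2 * a) - c2 (2 * (i + 1))) := by
  unfold PT
  rw [Finset.prod_range_succ]

theorem PT_of_le {N i : ℕ} (h : N ≤ i) (hN : 1 ≤ N) : PT N i = 0 := by
  unfold PT
  refine Finset.prod_eq_zero (i := N - 1) (Finset.mem_range.mpr (by omega)) ?_
  have h1 : (((N - 1 : ℕ) : ℚ) + 1) = N := by
    have : ((N - 1 : ℕ) : ℚ) = (N : ℚ) - 1 := by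
      push_cast [Nat.cast_sub hN]
      ring
    rw [this]
    ring
  rw [h1, sub_self]

/-- the sum can be extended -/
theorem cyc_eq (e : Bool) {N M : ℕ} (hN : 1 ≤ N) (h : N ≤ M) (y : ℕ → ℚ⟦X⟧) : cyc e N y =
    ∑ i ∈ Finset.range M, X ^ i * PT N i *
      (((sg e : ℤ) : ℚ⟦X⟧) ^ i * E (((sg e : ℤ) : ℚ) * (i * (i + 3) / 2))) *
      ∑ j ∈ Finset.range (i + 1), gC i j * y j := by
  unfold cyc
  refine Finset.sum_subset (Finset.range_mono h) fun i _ hi => ?_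
  rw [Finset.mem_range, not_lt] at hi
  rw [PT_of_le hi hN]
  ring

theorem cyc_one (e : Bool) (y : ℕ → ℚ⟦X⟧) (hg : gC 0 0 = 1) (hE : E 0 = 1) : cyc e 1 y = y 0 := by
  unfold cyc
  simp [PT_zero, hg, hE]

end Pool.Agent.WD2
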