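import Pool.Agent.WD2.StE

/-!
# The candidate for the coefficients of the clasp satisfies the equations
-/

set_option autoImplicit false

namespace Pool.Agent.WD2

open Pool.Agent.LibH11 Pool.Agent.IT Pool.Agent.GK Pool.Agent.TwoBr Pool.Agent.WD
open scoped BigOperators

namespace CND

variable {K : Type} [Field K] {s : K}

theorem bf_add (n k : ℕ) :
    bf s (n + k) = bf s n * ∏ l ∈ Finset.range k, br s ((n : ℤ) + (l + 1)) := by
  induction k with
  | zero => simp
  | succ k ih =>
    rw [← Nat.add_assoc, bf_succ, ih, Finset.prod_range_succ, mul_assoc]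
    congr 2

theorem sign_sq (a : ℕ) : ((-1 : K) ^ a) * (-1) ^ a = 1 := by
  rw [← mul_pow]
  simp

/-- the sum over `j` for a fixed `m` -/
def inner (s : K) (i n m : ℕ) : K :=
  ∑ j ∈ Finset.range (m + 1), br s (2 * j + 1) * pp s i j /
    (bf s (m - j) * bf s (m + j + 1) * (bf s (n - j) * bf s (n + j + 1)))

theorem inner_zero (i n m : ℕ) (h : m < i) : inner s i n m = 0 := by
  unfold inner
  refine Finset.sum_eq_zero fun j hj => ?_
  have hj' := Finset.mem_range.mp hj
  rw [pp_of_lt (by omega), mul_zero, zero_div]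

/-- the exchange of the sums -/
theorem exch (i n : ℕ) (S : K) (T : ℕ → K) :
    ∑ j ∈ Finset.range (n + 1), pp s i j * (((-1) ^ (n + j) * br s (2 * j + 1) *
      bf s n ^ 2 / (bf s (n - j) * bf s (n + 1 + j))) *
      ((-1) ^ (n + j) * S * ∑ m ∈ Finset.Ico j (n + 1), T m *
          (bf s m * bf s (n + 1 + m) / (bf s (m - j) * bf s (m + j + 1) * bf s (n - m))))) =
    ∑ m ∈ Finset.range (n + 1), (bf s n ^ 2 * S * T m *
      (bf s m * bf s (n + 1 + m) / bf s (n - m))) * inner s i n m := by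
  have h1 : ∀ j ∈ Finset.range (n + 1),
      pp s i j * (((-1) ^ (n + j) * br s (2 * j + 1) *
      bf s n ^ 2 / (bf s (n - j) * bf s (n + 1 + j))) *
      ((-1) ^ (n + j) * S * ∑ m ∈ Finset.Ico j (n + 1), T m *
          (bf s m * bf s (n + 1 + m) / (bf s (m - j) * bf s (m + j + 1) * bf s (n - m))))) =
      ∑ m ∈ Finset.Ico j (n + 1), (bf s n ^ 2 * S * T m *
        (bf s m * bf s (n + 1 + m) / bf s (n - m))) * (br s (2 * j + 1) * pp s i j /
        (bf s (m - j) * bf s (m + j + 1) * (bf s (n - j) * bf s (n + j + 1)))) := by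
    intro j _
    rw [← mul_assoc, ← mul_assoc, ← mul_assoc, Finset.mul_sum]
    refine Finset.sum_congr rfl fun m _ => ?_
    have e : n + 1 + j = n + j + 1 := by omega
    rw [e]
    calc pp s i j * ((-1) ^ (n + j) * br s (2 * j + 1) * bf s n ^ 2 /
          (bf s (n - j) * bf s (n + j + 1))) * (-1) ^ (n + j) * S *
          (T m * (bf s m * bf s (n + 1 + m) /
            (bf s (m - j) * bf s (m + j + 1) * bf s (n - m)))) =
        ((-1) ^ (n + j) * (-1) ^ (n + j)) * ((bf s n ^ 2 * S * T m *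
        (bf s m * bf s (n + 1 + m) / bf s (n - m))) * (br s (2 * j + 1) * pp s i j /
        (bf s (m - j) * bf s (m + j + 1) * (bf s (n - j) * bf s (n + j + 1))))) := by ring
      _ = _ := by rw [sign_sq, one_mul]
  rw [Finset.sum_congr rfl h1, Finset.range_eq_Ico, Finset.sum_Ico_Ico_comm]
  refine Finset.sum_congr rfl fun m _ => ?_
  unfold inner
  rw [Finset.mul_sum, Finset.range_eq_Ico]

/-- only `i ≤ m` contributes -/
theorem shift (i r : ℕ) (C : ℕ → K) :
    ∑ m ∈ Finset.range (i + r + 1), C m * inner s i (i + r) m =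
      ∑ k ∈ Finset.range (r + 1), C (i + k) * inner s i (i + r) (i + k) := by
  have e : i + r + 1 = i + (r + 1) := by omega
  rw [e, Finset.sum_range_add, Finset.sum_eq_zero, zero_add]
  intro m hm
  rw [inner_zero i (i + r) m (Finset.mem_range.mp hm), mul_zero]

end CND

theorem t_CND (h0 : D0_Stmt) (h1 : D1_Stmt) (h2 : D2_Stmt) : CND_Stmt := by
  intro K _ s hs N hN i hi
  obtain ⟨r, rfl⟩ : ∃ r, N = i + r + 1 := ⟨N - 1 - i, by omega⟩
  have hs0 : s ≠ 0 := hs.1
  have hbf : ∀ n : ℕ, bf s n ≠ 0 := fun n => bf_ne hs n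
  simp only [Nat.add_sub_cancel]
  refine ⟨?_, ?_⟩
  · have h := h0 K s hs i (i + r) (by omega)
    have e1 : ∑ j ∈ Finset.range (i + r + 1), pp s i j * ((-1) ^ (i + r + j) *
        br s (2 * j + 1) * bf s (i + r) ^ 2 / (bf s (i + r - j) * bf s (i + r + 1 + j))) =
        bf s (i + r) ^ 2 * ∑ j ∈ Finset.range (i + r + 1), (-1) ^ (i + r + j) *
          br s (2 * j + 1) * pp s i j / (bf s (i + r - j) * bf s (i + r + j + 1)) := by
      rw [Finset.mul_sum]
      refine Finset.sum_congr rfl fun j _ => ?_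
      have e : i + r + 1 + j = i + r + j + 1 := by omega
      rw [e]
      ring
    rw [e1, h]
    by_cases hr : r = 0
    · rw [if_pos (by omega), if_pos (by omega), mul_one]
    · rw [if_neg (by omega), if_neg (by omega), mul_zero]
  · intro e
    have hx := CND.exch (s := s) i (i + r)
      (s ^ (-(sg e * (2 * (((i + r + 1 : ℕ) : ℤ) ^ 2 - 1)))))
      (fun m => ((sg e : ℤ) : K) ^ m * s ^ (sg e * ((m : ℤ) * (m + 3))))
    refine Eq.trans hx ?_
    rw [CND.shift]
    have h3 : ∀ k ∈ Finset.range (r + 1),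
        bf s (i + r) ^ 2 * s ^ (-(sg e * (2 * (((i + r + 1 : ℕ) : ℤ) ^ 2 - 1)))) *
          (((sg e : ℤ) : K) ^ (i + k) *
            s ^ (sg e * (((i + k : ℕ) : ℤ) * (((i + k : ℕ) : ℤ) + 3)))) *
          (bf s (i + k) * bf s (i + r + 1 + (i + k)) / bf s (i + r - (i + k))) *
          CND.inner s i (i + r) (i + k) =
        (bf s (i + r) * s ^ (-(sg e * (2 * (((i + r + 1 : ℕ) : ℤ) ^ 2 - 1)))) *
          (bf s i / bf s r) * (((sg e : ℤ) : K) ^ i * s ^ (sg e * ((i : ℤ) * (i + 3)))) *
          (bf s (i + r) / bf s r)) *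
          (((sg e : ℤ) : K) ^ k * (bf s r / (bf s k * bf s (r - k))) *
            s ^ (sg e * ((k : ℤ) * (k + 3) + 2 * (((i + r : ℕ) : ℤ) - r) * k)) *
            ∏ l ∈ Finset.range k, br s (((i + r : ℕ) : ℤ) + (l + 1))) := by
      intro k hk
      have hk' := Finset.mem_range.mp hk
      have hD := h1 K s hs i (i + k) (i + r) (by omega) (by omega)
      unfold CND.inner
      rw [hD]
      have e1 : i + k + (i + r) - i = i + r + k := by omega
      have e2 : i + k - i = k := by omega
      have e3 : i + r - i = r := by omega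
      have e4 : i + r - (i + k) = r - k := by omega
      have e5 : i + r + 1 + (i + k) = i + k + (i + r) + 1 := by omega
      rw [e1, e2, e3, e4, e5, CND.bf_add (i + r) k, pow_add]
      have e6 : s ^ (sg e * (((i + k : ℕ) : ℤ) * (((i + k : ℕ) : ℤ) + 3))) =
          s ^ (sg e * ((i : ℤ) * (i + 3))) *
            s ^ (sg e * ((k : ℤ) * (k + 3) + 2 * (((i + r : ℕ) : ℤ) - r) * k)) := by
        rw [← zpow_add₀ hs0]
        congr 1
        push_cast
        ring
      rw [e6]
      have n1 := hbf (i + k)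
      have n2 := hbf (i + k + (i + r) + 1)
      have n3 := hbf (i + r)
      have n4 := hbf r
      have n5 := hbf k
      have n6 := hbf (r - k)
      field_simp
    rw [Finset.sum_congr rfl h3, ← Finset.mul_sum]
    have h4 := h2 K s hs e r (i + r)
    rw [h4]
    have e3 : i + r - i = r := by omega
    rw [e3]
    have e7 : s ^ (sg e * (2 * (((i + r + 1 : ℕ) : ℤ) - 1) ^ 2 -
        4 * (i : ℤ) * (((i + r + 1 : ℕ) : ℤ) - 1) + (i : ℤ) * ((i : ℤ) - 1))) =
        s ^ (-(sg e * (2 * (((i + r + 1 : ℕ) : ℤ) ^ 2 - 1)))) *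
          s ^ (sg e * ((i : ℤ) * (i + 3))) * s ^ (sg e * (4 * (r : ℤ) * (((i + r : ℕ) : ℤ) + 1))) := by
      rw [← zpow_add₀ hs0, ← zpow_add₀ hs0]
      congr 1
      push_cast
      ring
    rw [e7]
    ring

end Pool.Agent.WD2
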