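import Pool.Agent.WD2.StE

/-!
# One row of the clasp (module WE_CRW)
-/

set_option autoImplicit false

namespace Pool.Agent.WD2

open Pool.Agent.LibH11 Pool.Agent.IT Pool.Agent.GK Pool.Agent.TwoBr Pool.Agent.WD
open scoped BigOperators

namespace CRW

variable {K : Type} [Field K] {s : K} {N : ℕ}

lemma Fpow_ne (n : ℕ) : ∀ a b : Fin N, ((V s N).F ^ n) a b ≠ 0 → (a : ℕ) = b + n := by
  induction n with
  | zero =>
    intro a b h
    rw [pow_zero, Matrix.one_apply] at h
    by_cases hab : a = b
    · rw [hab, add_zero]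
    · exact absurd (if_neg hab) h
  | succ n ih =>
    intro a b h
    rw [pow_succ, Matrix.mul_apply] at h
    obtain ⟨c, _, hc⟩ := Finset.exists_ne_zero_of_sum_ne_zero h
    have h1 := ih a c (left_ne_zero_of_mul hc)
    have h2 : (c : ℕ) = b + 1 := by
      have h3 := right_ne_zero_of_mul hc
      by_contra h4
      exact h3 (if_neg h4)
    omega

lemma Epow_ne (n : ℕ) : ∀ a b : Fin N, ((V s N).E ^ n) a b ≠ 0 → (a : ℕ) + n = b := by
  induction n with
  | zero =>
    intro a b h
    rw [pow_zero, Matrix.one_apply] at h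
    by_cases hab : a = b
    · rw [hab, add_zero]
    · exact absurd (if_neg hab) h
  | succ n ih =>
    intro a b h
    rw [pow_succ, Matrix.mul_apply] at h
    obtain ⟨c, _, hc⟩ := Finset.exists_ne_zero_of_sum_ne_zero h
    have h1 := ih a c (left_ne_zero_of_mul hc)
    have h2 : (c : ℕ) + 1 = b := by
      have h3 := right_ne_zero_of_mul hc
      by_contra h4
      exact h3 (if_neg h4)
    omega

lemma aq_zero : aq s 0 = 1 := by simp [aq, qfac]

lemma aq'_zero : aq' s 0 = 1 := by simp [aq', qfac]

/-- a row of the braiding -/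
lemma Rm_row (hN : 1 ≤ N) (a c p r : Fin N) (ha : (a : ℕ) = 0) :
    Rm s (V s N) (V s N) (a, c) (p, r) =
      if c = p ∧ a = r then s ^ ((V s N).wt c * (V s N).wt a) else 0 := by
  unfold Rm
  rw [Finset.sum_eq_single 0]
  · rw [aq_zero, pow_zero, pow_zero, Matrix.one_apply, Matrix.one_apply, one_mul]
    by_cases h1 : c = p
    · by_cases h2 : a = r
      · simp [h1, h2]
      · simp [h2]
    · simp [h1]
  · intro n _ hn
    have h : ((V s N).F ^ n) a r = 0 := by
      by_contra h
      have := Fpow_ne n a r h
      omega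
    simp only [h, mul_zero]
  · intro h
    exact absurd (Finset.mem_range.2 (by rw [Fintype.card_fin]; omega)) h

/-- a column of the braiding -/
lemma Rm_col (hN : 1 ≤ N) (p r z y : Fin N) (hz : (z : ℕ) = 0) :
    Rm s (V s N) (V s N) (p, r) (z, y) =
      if r = z ∧ p = y then s ^ ((V s N).wt r * (V s N).wt p) else 0 := by
  unfold Rm
  rw [Finset.sum_eq_single 0]
  · rw [aq_zero, pow_zero, pow_zero, Matrix.one_apply, Matrix.one_apply, one_mul]
    by_cases h1 : r = z
    · by_cases h2 : p = y
      · simp [h1, h2]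
      · simp [h2]
    · simp [h1]
  · intro n _ hn
    have h : ((V s N).E ^ n) r z = 0 := by
      by_contra h
      have := Epow_ne n r z h
      omega
    simp only [h, mul_zero, zero_mul]
  · intro h
    exact absurd (Finset.mem_range.2 (by rw [Fintype.card_fin]; omega)) h

/-- a row of the inverse braiding -/
lemma Rm'_row (a c p r : Fin N) (ha : (a : ℕ) + 1 = N) :
    Rm' s (V s N) (V s N) (a, c) (p, r) =
      if c = p ∧ a = r then s ^ (-((V s N).wt r * (V s N).wt p)) else 0 := by
  unfold Rm'
  rw [Finset.sum_eq_single 0]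
  · rw [aq'_zero, pow_zero, pow_zero, Matrix.one_apply, Matrix.one_apply, one_mul]
    by_cases h1 : c = p
    · by_cases h2 : a = r
      · simp [h1, h2]
      · simp [h2]
    · simp [h1]
  · intro n _ hn
    have h : ((V s N).E ^ n) a r = 0 := by
      by_contra h
      have := Epow_ne n a r h
      have := r.isLt
      omega
    simp only [h, mul_zero, zero_mul]
  · intro h
    exact absurd (Finset.mem_range.2 (by rw [Fintype.card_fin]; omega)) h

/-- a column of the inverse braiding -/
lemma Rm'_col (p r z y : Fin N) (hz : (z : ℕ) + 1 = N) :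
    Rm' s (V s N) (V s N) (p, r) (z, y) =
      if r = z ∧ p = y then s ^ (-((V s N).wt y * (V s N).wt z)) else 0 := by
  unfold Rm'
  rw [Finset.sum_eq_single 0]
  · rw [aq'_zero, pow_zero, pow_zero, Matrix.one_apply, Matrix.one_apply, one_mul]
    by_cases h1 : r = z
    · by_cases h2 : p = y
      · simp [h1, h2]
      · simp [h2]
    · simp [h1]
  · intro n _ hn
    have h : ((V s N).F ^ n) r z = 0 := by
      by_contra h
      have := Fpow_ne n r z h
      have := r.isLt
      omega
    simp only [h, mul_zero]
  · intro h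
    exact absurd (Finset.mem_range.2 (by rw [Fintype.card_fin]; omega)) h

lemma cap_ne {x z : Fin N} (h : vcap s N x z ≠ 0) : (x : ℕ) + z + 1 = N := by
  by_contra h1
  exact h (if_neg h1)

lemma wt_eq (i : Fin N) : (V s N).wt i = (N : ℤ) - 1 - 2 * (i : ℕ) := rfl

end CRW

open CRW in
/-- CRW: one row of the clasp. -/
theorem t_CRW : CRW_Stmt := by
  intro K _ s hs N hN x y
  refine ⟨fun h0 h1 => ?_, fun h0 h1 => ?_⟩
  · have key : ∀ c z : Fin N, (MV s N).cup c (y 1) *
        (∑ p, ∑ r, (MV s N).X true (x 1) c p r * (MV s N).X true p r z (y 0)) *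
          (MV s N).cap (x 0) z = if c = y 0 ∧ z = x 1 then
            vcup s N (y 0) (y 1) * s ^ (2 * (((N : ℤ) - 1) * ((N : ℤ) - 1 - 2 * (y 0 : ℕ)))) *
              vcap s N (x 0) (x 1) else 0 := by
      intro c z
      change vcup s N c (y 1) * (∑ p, ∑ r, Rm s (V s N) (V s N) (x 1, c) (p, r) *
        Rm s (V s N) (V s N) (p, r) (z, y 0)) * vcap s N (x 0) z = _
      by_cases hz : z = x 1
      · subst hz
        rw [Finset.sum_eq_single c, Finset.sum_eq_single (x 1), Rm_row hN _ _ _ _ h1,
          Rm_col hN _ _ _ _ h1]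
        · by_cases hc : c = y 0
          · subst hc
            rw [if_pos ⟨rfl, rfl⟩, if_pos ⟨rfl, rfl⟩, if_pos ⟨rfl, rfl⟩, ← zpow_add₀ hs.1]
            congr 3
            rw [wt_eq, wt_eq, h1]
            push_cast
            ring
          · rw [if_neg (fun h : x 1 = x 1 ∧ c = y 0 => hc h.2),
              if_neg (fun h : c = y 0 ∧ x 1 = x 1 => hc h.1), mul_zero, mul_zero, zero_mul]
        · intro r _ hr
          rw [Rm_row hN _ _ _ _ h1, if_neg (fun h : c = c ∧ x 1 = r => hr h.2.symm), zero_mul]
        · intro h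
          exact absurd (Finset.mem_univ _) h
        · intro p _ hp
          refine Finset.sum_eq_zero fun r _ => ?_
          rw [Rm_row hN _ _ _ _ h1, if_neg (fun h : c = p ∧ x 1 = r => hp h.1.symm), zero_mul]
        · intro h
          exact absurd (Finset.mem_univ _) h
      · have hcap : vcap s N (x 0) z = 0 := by
          by_contra h
          have h2 := cap_ne h
          exact hz (Fin.ext (by omega))
        rw [hcap, mul_zero, if_neg (fun h => hz h.2)]
    unfold clasp
    simp only [key]
    rw [Finset.sum_eq_single (y 0), Finset.sum_eq_single (x 1), if_pos ⟨rfl, rfl⟩]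
    · intro z _ hz
      rw [if_neg (fun h => hz h.2)]
    · intro h
      exact absurd (Finset.mem_univ _) h
    · intro c _ hc
      refine Finset.sum_eq_zero fun z _ => ?_
      rw [if_neg (fun h => hc h.1)]
    · intro h
      exact absurd (Finset.mem_univ _) h
  · have key : ∀ c z : Fin N, (MV s N).cup c (y 1) *
        (∑ p, ∑ r, (MV s N).X false (x 1) c p r * (MV s N).X false p r z (y 0)) *
          (MV s N).cap (x 0) z = if c = y 0 ∧ z = x 1 then
            vcup s N (y 0) (y 1) * s ^ (2 * (((N : ℤ) - 1) * ((N : ℤ) - 1 - 2 * (y 0 : ℕ)))) *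
              vcap s N (x 0) (x 1) else 0 := by
      intro c z
      change vcup s N c (y 1) * (∑ p, ∑ r, Rm' s (V s N) (V s N) (x 1, c) (p, r) *
        Rm' s (V s N) (V s N) (p, r) (z, y 0)) * vcap s N (x 0) z = _
      by_cases hz : z = x 1
      · subst hz
        rw [Finset.sum_eq_single c, Finset.sum_eq_single (x 1), Rm'_row _ _ _ _ h1,
          Rm'_col _ _ _ _ h1]
        · by_cases hc : c = y 0
          · subst hc
            rw [if_pos ⟨rfl, rfl⟩, if_pos ⟨rfl, rfl⟩, if_pos ⟨rfl, rfl⟩, ← zpow_add₀ hs.1]
            congr 3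
            have h2 : ((x 1 : ℕ) : ℤ) = (N : ℤ) - 1 := by omega
            rw [wt_eq, wt_eq, h2]
            ring
          · rw [if_neg (fun h : x 1 = x 1 ∧ c = y 0 => hc h.2),
              if_neg (fun h : c = y 0 ∧ x 1 = x 1 => hc h.1), mul_zero, mul_zero, zero_mul]
        · intro r _ hr
          rw [Rm'_row _ _ _ _ h1, if_neg (fun h : c = c ∧ x 1 = r => hr h.2.symm), zero_mul]
        · intro h
          exact absurd (Finset.mem_univ _) h
        · intro p _ hp
          refine Finset.sum_eq_zero fun r _ => ?_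
          rw [Rm'_row _ _ _ _ h1, if_neg (fun h : c = p ∧ x 1 = r => hp h.1.symm), zero_mul]
        · intro h
          exact absurd (Finset.mem_univ _) h
      · have hcap : vcap s N (x 0) z = 0 := by
          by_contra h
          have h2 := cap_ne h
          exact hz (Fin.ext (by omega))
        rw [hcap, mul_zero, if_neg (fun h => hz h.2)]
    unfold clasp
    simp only [key]
    rw [Finset.sum_eq_single (y 0), Finset.sum_eq_single (x 1), if_pos ⟨rfl, rfl⟩]
    · intro z _ hz
      rw [if_neg (fun h => hz h.2)]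
    · intro h
      exact absurd (Finset.mem_univ _) h
    · intro c _ hc
      refine Finset.sum_eq_zero fun z _ => ?_
      rw [if_neg (fun h => hc h.1)]
    · intro h
      exact absurd (Finset.mem_univ _) h

end Pool.Agent.WD2
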