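import Pool.Agent.WD2.StF

/-!
# Iterated doubles: CYF, the cyclotomic form
-/

set_option autoImplicit false

namespace Pool.Agent.WD2

open Pool.Agent.LibH11 Pool.Agent.IT Pool.Agent.GK Pool.Agent.TwoBr Pool.Agent.WD
open scoped BigOperators
open PowerSeries

namespace CYF

theorem brQ (h : ESER_Stmt) (n : ℤ) : br sQ n = toK (X * b1 (n : ℚ)) := by
  unfold br
  rw [h.2.2.2.1, h.2.2.2.1, X_mul_b1, map_sub]
  push_cast
  rw [show (2 * (n : ℚ)) / 2 = n by ring, show (-(2 * (n : ℚ))) / 2 = -n by ring]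

theorem bfQ (h : ESER_Stmt) (n : ℕ) : bf sQ n = toK (X ^ n * uF n) := by
  induction n with
  | zero => rw [bf_zero, uF_zero, pow_zero, one_mul, map_one]
  | succ n ih =>
    have hc : (((n : ℤ) + 1 : ℤ) : ℚ) = (n : ℚ) + 1 := by push_cast; ring
    rw [bf_succ, ih, brQ h, uF_succ, ← map_mul, hc]
    congr 1
    ring

theorem mulQ (h : ESER_Stmt) (N i : ℕ) : br sQ ((N : ℤ) + (i + 1)) * br sQ ((N : ℤ) - (i + 1)) =
    toK (X ^ 2 * (c2 (2 * (N : ℚ)) - c2 (2 * ((i : ℚ) + 1)))) := by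
  have hs : Gen sQ := h.2.2.2.2.1
  have e1 : X ^ 2 * (c2 (2 * (N : ℚ)) - c2 (2 * ((i : ℚ) + 1))) =
      E (2 * N) + E (-(2 * N)) - E (2 * (i + 1)) - E (-(2 * (i + 1))) := by
    rw [mul_sub, X_sq_mul_c2, X_sq_mul_c2]
    ring
  rw [br_mul_br hs.1, h.2.2.2.1, h.2.2.2.1, h.2.2.2.1, h.2.2.2.1, e1, map_sub, map_sub, map_add]
  push_cast
  rw [show (4 * (N : ℚ)) / 2 = 2 * N by ring, show (-(4 * (N : ℚ))) / 2 = -(2 * N) by ring,
    show (4 * ((i : ℚ) + 1)) / 2 = 2 * (i + 1) by ring,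
    show (-(4 * ((i : ℚ) + 1))) / 2 = -(2 * (i + 1)) by ring]

theorem top (h : ESER_Stmt) (N : ℕ) : ∀ i : ℕ, i < N →
    bf sQ (N + i) = bf sQ (N - 1 - i) * br sQ N * toK (X ^ (2 * i) * PT N i) := by
  intro i
  induction i with
  | zero =>
    intro hN
    obtain ⟨M, rfl⟩ : ∃ M, N = M + 1 := ⟨N - 1, by omega⟩
    rw [PT_zero, mul_zero, pow_zero, one_mul, map_one, mul_one, add_zero, bf_succ]
    simp
  | succ i ih =>
    intro hN
    have h1 := ih (by omega)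
    have h2 : N - 1 - i = (N - 1 - (i + 1)) + 1 := by omega
    rw [h2, bf_succ] at h1
    have h3 : (((N - 1 - (i + 1) : ℕ) : ℤ) + 1) = (N : ℤ) - (i + 1) := by omega
    rw [h3] at h1
    have h4 : N + (i + 1) = (N + i) + 1 := by omega
    have h5 : (((N + i : ℕ) : ℤ) + 1) = (N : ℤ) + (i + 1) := by push_cast; ring
    rw [h4, bf_succ, h1, h5, PT_succ]
    have h6 : toK (X ^ (2 * (i + 1)) * (PT N i * (c2 (2 * (N : ℚ)) - c2 (2 * ((i : ℚ) + 1))))) =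
        toK (X ^ (2 * i) * PT N i) *
          (br sQ ((N : ℤ) + (i + 1)) * br sQ ((N : ℤ) - (i + 1))) := by
      rw [mulQ h, ← map_mul]
      congr 1
      ring
    rw [h6]
    ring

theorem gQ (h : ESER_Stmt) {i j : ℕ} (hj : j ≤ i) :
    toK (gC i j) * (bf sQ (i - j) * bf sQ (i + j + 1)) =
      toK X ^ i * (-1) ^ j * (bf sQ i * br sQ (2 * (j : ℤ) + 1)) := by
  have e1 : X ^ (i - j) * uF (i - j) * (X ^ (i + j + 1) * uF (i + j + 1)) =
      X ^ (2 * i + 1) * (uF (i - j) * uF (i + j + 1)) := by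
    have e2 : 2 * i + 1 = (i - j) + (i + j + 1) := by omega
    rw [e2, pow_add]
    ring
  rw [bfQ h, bfQ h, bfQ h, brQ h, ← map_mul, ← map_mul, e1,
    show gC i j * (X ^ (2 * i + 1) * (uF (i - j) * uF (i + j + 1))) =
      X ^ (2 * i + 1) * (gC i j * (uF (i - j) * uF (i + j + 1))) by ring, gC_mul]
  have hc : ((2 * (j : ℤ) + 1 : ℤ) : ℚ) = 2 * (j : ℚ) + 1 := by push_cast; ring
  have hm : ((-1 : KQ)) = toK (-1) := by rw [map_neg, map_one]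
  rw [hc, hm, ← map_mul, ← map_pow, ← map_pow, ← map_mul, ← map_mul]
  congr 1
  ring

theorem term (h : ESER_Stmt) (e : Bool) {N i j : ℕ} (hj : j ≤ i) (hi : i < N) :
    (-1) ^ j * (((sg e : ℤ) : KQ) ^ i * sQ ^ (sg e * ((i : ℤ) * (i + 3))) *
      (bf sQ i * bf sQ (N + i) / (bf sQ (i - j) * bf sQ (i + j + 1) * bf sQ (N - 1 - i)))) *
      br sQ (2 * (j : ℤ) + 1) / br sQ N =
    toK (X ^ i * PT N i * (((sg e : ℤ) : ℚ⟦X⟧) ^ i * E (((sg e : ℤ) : ℚ) * (i * (i + 3) / 2))) *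
      gC i j) := by
  have hs : Gen sQ := h.2.2.2.2.1
  have hN : br sQ (N : ℤ) ≠ 0 := br_ne hs (by omega)
  have n1 := bf_ne hs (i - j)
  have n2 := bf_ne hs (i + j + 1)
  have n3 := bf_ne hs (N - 1 - i)
  have hg : toK (gC i j) = toK X ^ i * (-1) ^ j * (bf sQ i * br sQ (2 * (j : ℤ) + 1)) /
      (bf sQ (i - j) * bf sQ (i + j + 1)) := by
    rw [eq_div_iff (mul_ne_zero n1 n2), gQ h hj]
  have hz : sQ ^ (sg e * ((i : ℤ) * (i + 3))) = toK (E (((sg e : ℤ) : ℚ) * (i * (i + 3) / 2))) := by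
    rw [h.2.2.2.1]
    push_cast
    congr 2
    ring
  have hr : toK (X ^ i * PT N i * (((sg e : ℤ) : ℚ⟦X⟧) ^ i *
      E (((sg e : ℤ) : ℚ) * (i * (i + 3) / 2))) * gC i j) =
      toK X ^ i * toK (PT N i) * (((sg e : ℤ) : KQ) ^ i *
        toK (E (((sg e : ℤ) : ℚ) * (i * (i + 3) / 2)))) * toK (gC i j) := by
    simp only [map_mul, map_pow, map_intCast]
  have ht : toK (X ^ (2 * i) * PT N i) = toK X ^ (2 * i) * toK (PT N i) := by
    simp only [map_mul, map_pow]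
  rw [top h N i hi, hr, ht, hg, ← hz]
  field_simp
  ring

theorem coef (h1 : GMF_Stmt) (h : ESER_Stmt) (e : Bool) {N j : ℕ} (hN : 1 ≤ N) (hj : j < N) :
    Cfg N e j = ∑ i ∈ Finset.Ico j N,
      toK (X ^ i * PT N i * (((sg e : ℤ) : ℚ⟦X⟧) ^ i *
        E (((sg e : ℤ) : ℚ) * (i * (i + 3) / 2))) * gC i j) := by
  have hs : Gen sQ := h.2.2.2.2.1
  have hb1 : br sQ 1 ≠ 0 := br_ne hs one_ne_zero
  have hbN : br sQ (N : ℤ) ≠ 0 := br_ne hs (by omega)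
  have hp : (if e then 2 * ((N : ℤ) ^ 2 - 1) else -(2 * ((N : ℤ) ^ 2 - 1))) =
      sg e * (2 * ((N : ℤ) ^ 2 - 1)) := by
    cases e <;> simp [sg]
  have hz : sQ ^ (sg e * (2 * ((N : ℤ) ^ 2 - 1))) * sQ ^ (-(sg e * (2 * ((N : ℤ) ^ 2 - 1)))) = 1 := by
    rw [← zpow_add₀ hs.1, add_neg_cancel, zpow_zero]
  have hm : ((-1 : KQ)) ^ (N - 1) * (-1) ^ (N - 1 + j) = (-1) ^ j := by
    rw [← pow_add, show N - 1 + (N - 1 + j) = 2 * (N - 1) + j by ring, pow_add, pow_mul]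
    simp
  unfold Cfg
  rw [h1 KQ sQ hs N hN e j hj, hp, qn_eq, qn_eq]
  rw [← Finset.sum_congr rfl fun i hi => term h e (Finset.mem_Ico.mp hi).1 (Finset.mem_Ico.mp hi).2]
  rw [← Finset.sum_div, ← Finset.sum_mul, ← Finset.mul_sum]
  set S := ∑ i ∈ Finset.Ico j N, ((sg e : ℤ) : KQ) ^ i * sQ ^ (sg e * ((i : ℤ) * (i + 3))) *
    (bf sQ i * bf sQ (N + i) / (bf sQ (i - j) * bf sQ (i + j + 1) * bf sQ (N - 1 - i))) with hS
  have e1 : br sQ (2 * (j : ℤ) + 1) / br sQ 1 / (br sQ (N : ℤ) / br sQ 1) =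
      br sQ (2 * (j : ℤ) + 1) / br sQ N := by
    field_simp
  calc (-1) ^ (N - 1) * sQ ^ (sg e * (2 * ((N : ℤ) ^ 2 - 1))) *
        ((-1) ^ (N - 1 + j) * sQ ^ (-(sg e * (2 * ((N : ℤ) ^ 2 - 1)))) * S) *
        (br sQ (2 * (j : ℤ) + 1) / br sQ 1) / (br sQ (N : ℤ) / br sQ 1)
      = ((-1) ^ (N - 1) * (-1) ^ (N - 1 + j)) * (sQ ^ (sg e * (2 * ((N : ℤ) ^ 2 - 1))) *
          sQ ^ (-(sg e * (2 * ((N : ℤ) ^ 2 - 1))))) * S *
          (br sQ (2 * (j : ℤ) + 1) / br sQ 1 / (br sQ (N : ℤ) / br sQ 1)) := by ring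
    _ = (-1) ^ j * S * br sQ (2 * (j : ℤ) + 1) / br sQ N := by
        rw [hm, hz, e1]
        ring

end CYF

open CYF in
/-- CYF -/
theorem t_CYF (h1 : GMF_Stmt) (h2 : ESER_Stmt) : CYF_Stmt := by
  intro e N hN y
  unfold cyc
  rw [map_sum]
  have e1 : ∀ i ∈ Finset.range N, toK (X ^ i * PT N i *
      (((sg e : ℤ) : ℚ⟦X⟧) ^ i * E (((sg e : ℤ) : ℚ) * (i * (i + 3) / 2))) *
      ∑ j ∈ Finset.range (i + 1), gC i j * y j) = ∑ j ∈ Finset.range (i + 1),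
      toK (X ^ i * PT N i * (((sg e : ℤ) : ℚ⟦X⟧) ^ i *
        E (((sg e : ℤ) : ℚ) * (i * (i + 3) / 2))) * gC i j) * toK (y j) := by
    intro i _
    rw [Finset.mul_sum, map_sum]
    refine Finset.sum_congr rfl fun j _ => ?_
    rw [← map_mul]
    congr 1
    ring
  rw [Finset.sum_congr rfl e1]
  rw [Finset.sum_comm' (t' := Finset.range N) (s' := fun j => Finset.Ico j N)]
  · refine Finset.sum_congr rfl fun j hj => ?_
    rw [coef h1 h2 e hN (Finset.mem_range.mp hj), Finset.sum_mul]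
  · intro i j
    simp only [Finset.mem_range, Finset.mem_Ico]
    omega

end Pool.Agent.WD2
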