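import Pool.Agent.WD2.StE

/-!
# Module D0: the first sum over quantum factorials
-/

set_option autoImplicit false

namespace Pool.Agent.WD2

open Pool.Agent.LibH11 Pool.Agent.IT Pool.Agent.GK Pool.Agent.TwoBr Pool.Agent.WD
open scoped BigOperators
open PowerSeries

namespace D0

variable {K : Type} [Field K]

/-- The term of the sum. -/
def tm (s : K) (i m j : ℕ) : K :=
  (-1) ^ (m + j) * br s (2 * j + 1) * pp s i j / (bf s (m - j) * bf s (m + j + 1))

/-- The sum. -/
def hh (s : K) (i m : ℕ) : K := ∑ j ∈ Finset.range (m + 1), tm s i m j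

variable {s : K}

theorem tm_rec (hs : IT.Gen s) (i m j : ℕ) (hj : j ≤ m) :
    tm s (i + 1) (m + 1) j = (om s (m + 1) - om s i) * tm s i (m + 1) j + tm s i m j := by
  unfold tm
  have e1 : m + 1 - j = (m - j) + 1 := by omega
  have e2 : m + 1 + j + 1 = (m + j + 1) + 1 := by omega
  have e3 : m + 1 + j = (m + j) + 1 := by omega
  rw [e1, e2, e3, bf_succ, bf_succ (m + j + 1), pp_succ, pow_succ]
  have h1 : bf s (m - j) ≠ 0 := bf_ne hs _
  have h2 : bf s (m + j + 1) ≠ 0 := bf_ne hs _
  have h3 : br s (((m - j : ℕ) : ℤ) + 1) ≠ 0 := br_ne hs (by omega)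
  have h4 : br s (((m + j + 1 : ℕ) : ℤ) + 1) ≠ 0 := br_ne hs (by omega)
  have h5 : om s (m + 1) - om s j =
      br s (((m - j : ℕ) : ℤ) + 1) * br s (((m + j + 1 : ℕ) : ℤ) + 1) := by
    rw [om_sub hs.1]
    congr 2
    · omega
    · push_cast
      ring
  have h6 : om s j - om s i = (om s (m + 1) - om s i) - br s (((m - j : ℕ) : ℤ) + 1) *
      br s (((m + j + 1 : ℕ) : ℤ) + 1) := by
    rw [← h5]
    ring
  rw [h6]
  field_simp
  ring

theorem tm_last (i m : ℕ) :
    tm s (i + 1) m m = (om s m - om s i) * tm s i m m := by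
  unfold tm
  rw [pp_succ]
  ring

theorem hh_rec (hs : IT.Gen s) (i m : ℕ) :
    hh s (i + 1) (m + 1) = (om s (m + 1) - om s i) * hh s i (m + 1) + hh s i m := by
  unfold hh
  rw [Finset.sum_range_succ _ (m + 1), Finset.sum_range_succ _ (m + 1), tm_last,
    Finset.sum_congr rfl fun j hj => tm_rec hs i m j (by
      have := Finset.mem_range.mp hj
      omega), Finset.sum_add_distrib, ← Finset.mul_sum]
  ring

theorem hh_lt (i m : ℕ) (h : m < i) : hh s i m = 0 := by
  unfold hh
  refine Finset.sum_eq_zero fun j hj => ?_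
  have hj := Finset.mem_range.mp hj
  unfold tm
  rw [pp_of_lt (by omega)]
  simp

theorem hh_self (hs : IT.Gen s) (i : ℕ) : hh s i i = 1 := by
  unfold hh
  rw [Finset.sum_range_succ, Finset.sum_eq_zero, zero_add]
  · unfold tm
    have h1 := pp_mul hs (le_refl i)
    rw [Nat.sub_self, bf_zero, mul_one] at h1
    rw [h1, Nat.sub_self, bf_zero, bf_succ]
    have h2 : bf s (i + i) ≠ 0 := bf_ne hs _
    have h3 : (((i + i : ℕ) : ℤ) + 1) = 2 * (i : ℤ) + 1 := by
      push_cast
      ring
    rw [h3]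
    have h4 : br s (2 * (i : ℤ) + 1) ≠ 0 := br_ne hs (by omega)
    have h5 : ((-1 : K)) ^ (i + i) = 1 := by
      rw [← two_mul, pow_mul]
      norm_num
    rw [h5]
    field_simp
  · intro j hj
    have hj := Finset.mem_range.mp hj
    unfold tm
    rw [pp_of_lt hj]
    simp

theorem hh_add (hs : IT.Gen s) (d : ℕ) : ∀ i : ℕ, hh s i (i + (d + 1)) = 0 := by
  induction d with
  | zero =>
    intro i
    have h1 := hh_rec hs i i
    rw [hh_self hs, hh_self hs] at h1
    have h2 : (om s (i + 1) - om s i) * hh s i (i + 1) = 0 := by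
      linear_combination -h1
    have h3 : om s (i + 1) - om s i ≠ 0 := by
      rw [om_sub hs.1]
      exact mul_ne_zero (br_ne hs (by omega)) (br_ne hs (by omega))
    exact (mul_eq_zero.mp h2).resolve_left h3
  | succ d ih =>
    intro i
    have h1 := hh_rec hs i (i + (d + 1))
    have h4 : i + (d + 1) + 1 = (i + 1) + (d + 1) := by omega
    rw [ih i, h4, ih (i + 1)] at h1
    have h5 : i + (d + 1 + 1) = i + 1 + (d + 1) := by omega
    rw [h5]
    have h3 : om s (i + 1 + (d + 1)) - om s i ≠ 0 := by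
      rw [om_sub hs.1]
      exact mul_ne_zero (br_ne hs (by omega)) (br_ne hs (by omega))
    have h2 : (om s (i + 1 + (d + 1)) - om s i) * hh s i (i + 1 + (d + 1)) = 0 := by
      linear_combination -h1
    exact (mul_eq_zero.mp h2).resolve_left h3

end D0

theorem t_D0 : D0_Stmt := by
  intro K _ s hs i m him
  change D0.hh s i m = _
  by_cases h : i = m
  · subst h
    rw [if_pos rfl]
    exact D0.hh_self hs i
  · rw [if_neg h]
    obtain ⟨d, rfl⟩ : ∃ d, m = i + (d + 1) := ⟨m - i - 1, by omega⟩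
    exact D0.hh_add hs d i

end Pool.Agent.WD2
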