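import Pool.Agent.WD2.StE

/-!
# Iterated doubles, module D1: a sum of products of quantum factorials
-/

set_option autoImplicit false

namespace Pool.Agent.WD2

open Pool.Agent.LibH11 Pool.Agent.IT Pool.Agent.GK Pool.Agent.TwoBr Pool.Agent.WD
open scoped BigOperators

namespace D1

variable {K : Type} [Field K]

/-- the left side -/
noncomputable def F (s : K) (n i m : ℕ) : K := ∑ j ∈ Finset.range (m + 1),
  br s (2 * j + 1) * pp s i j /
    (bf s (m - j) * bf s (m + j + 1) * (bf s (n - j) * bf s (n + j + 1)))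

/-- the right side -/
noncomputable def R (s : K) (n i m : ℕ) : K := bf s i * bf s (m + n - i) /
  (bf s (m - i) * bf s (n - i) * (bf s m * bf s n * bf s (m + n + 1)))

variable {s : K}

theorem rec_F (hs : IT.Gen s) (n i m : ℕ) :
    F s n (i + 1) (m + 1) = (om s (m + 1) - om s i) * F s n i (m + 1) - F s n i m := by
  have h : ∀ j ∈ Finset.range (m + 1), (om s (m + 1) - om s j) *
      (br s (2 * j + 1) * pp s i j /
        (bf s (m + 1 - j) * bf s (m + 1 + j + 1) * (bf s (n - j) * bf s (n + j + 1)))) =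
      br s (2 * j + 1) * pp s i j /
        (bf s (m - j) * bf s (m + j + 1) * (bf s (n - j) * bf s (n + j + 1))) := by
    intro j hj
    have hj' : j ≤ m := by
      have := Finset.mem_range.1 hj
      omega
    rw [om_sub hs.1]
    have e1 : m + 1 - j = (m - j) + 1 := by omega
    have e2 : m + 1 + j + 1 = (m + j + 1) + 1 := by omega
    rw [e1, e2, bf_succ (m - j), bf_succ (m + j + 1)]
    have e3 : (((m + 1 : ℕ) : ℤ) - j) = ((m - j : ℕ) : ℤ) + 1 := by omega
    have e4 : (((m + 1 : ℕ) : ℤ) + j + 1) = ((m + j + 1 : ℕ) : ℤ) + 1 := by omega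
    rw [e3, e4]
    have n1 := br_ne hs (n := ((m - j : ℕ) : ℤ) + 1) (by omega)
    have n2 := br_ne hs (n := ((m + j + 1 : ℕ) : ℤ) + 1) (by omega)
    have n3 := bf_ne hs (m - j)
    have n4 := bf_ne hs (m + j + 1)
    have n5 := bf_ne hs (n - j)
    have n6 := bf_ne hs (n + j + 1)
    generalize br s (((m - j : ℕ) : ℤ) + 1) = x1 at *
    generalize br s (((m + j + 1 : ℕ) : ℤ) + 1) = x2 at *
    generalize bf s (m - j) = x3 at *
    generalize bf s (m + j + 1) = x4 at *
    generalize bf s (n - j) = x5 at *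
    generalize bf s (n + j + 1) = x6 at *
    field_simp
  have h2 : ∑ j ∈ Finset.range (m + 1 + 1), (om s (m + 1) - om s j) *
      (br s (2 * j + 1) * pp s i j /
        (bf s (m + 1 - j) * bf s (m + 1 + j + 1) * (bf s (n - j) * bf s (n + j + 1)))) =
      F s n i m := by
    rw [Finset.sum_range_succ, sub_self, zero_mul, add_zero]
    exact Finset.sum_congr rfl h
  rw [← h2]
  unfold F
  rw [Finset.mul_sum, ← Finset.sum_sub_distrib]
  refine Finset.sum_congr rfl fun j _ => ?_
  rw [pp_succ]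
  ring

theorem id3 (h0 : s ≠ 0) (m n i : ℤ) : br s (m + n - i) * br s (m + i + 1) =
    br s (i + 1) * br s (n - i) + br s m * br s (m + n + 1) := by
  unfold br
  rw [zpow_diff h0, zpow_diff h0, zpow_diff h0]
  have e1 : 2 * (m + n - i) + 2 * (m + i + 1) = 2 * m + 2 * (m + n + 1) := by ring
  have e2 : 2 * (i + 1) + 2 * (n - i) = -(2 * m - 2 * (m + n + 1)) := by ring
  have e3 : 2 * (m + n - i) - 2 * (m + i + 1) = -(2 * (i + 1) - 2 * (n - i)) := by ring
  rw [e1, e2, e3, neg_neg, neg_neg]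
  ring

theorem rec_R (hs : IT.Gen s) (i d e : ℕ) :
    R s (i + d + 1 + e) (i + 1) (i + d + 1) =
      (om s (i + d + 1) - om s i) * R s (i + d + 1 + e) i (i + d + 1) -
        R s (i + d + 1 + e) i (i + d) := by
  unfold R
  have a1 : i + d + 1 + (i + d + 1 + e) - (i + 1) = i + d + 1 + d + e := by omega
  have a2 : i + d + 1 - (i + 1) = d := by omega
  have a3 : i + d + 1 + e - (i + 1) = d + e := by omega
  have a4 : i + d + 1 + (i + d + 1 + e) - i = (i + d + 1 + d + e) + 1 := by omega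
  have a5 : i + d + 1 - i = d + 1 := by omega
  have a6 : i + d + 1 + e - i = (d + e) + 1 := by omega
  have a7 : i + d + (i + d + 1 + e) - i = i + d + 1 + d + e := by omega
  have a8 : i + d - i = d := by omega
  have a9 : i + d + 1 + (i + d + 1 + e) + 1 = (i + d + (i + d + 1 + e) + 1) + 1 := by omega
  rw [a1, a2, a3, a4, a5, a6, a7, a8, a9, bf_succ i, bf_succ (i + d + 1 + d + e), bf_succ d,
    bf_succ (d + e), bf_succ (i + d), bf_succ (i + d + (i + d + 1 + e) + 1), om_sub hs.1]
  have key := id3 hs.1 ((i : ℤ) + d + 1) ((i : ℤ) + d + 1 + e) i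
  have b1 : (i : ℤ) + d + 1 + ((i : ℤ) + d + 1 + e) - i = ((i + d + 1 + d + e : ℕ) : ℤ) + 1 := by
    push_cast
    ring
  have b2 : (i : ℤ) + d + 1 + ((i : ℤ) + d + 1 + e) + 1 =
      ((i + d + (i + d + 1 + e) + 1 : ℕ) : ℤ) + 1 := by
    push_cast
    ring
  have b3 : (i : ℤ) + d + 1 + e - i = ((d + e : ℕ) : ℤ) + 1 := by
    push_cast
    ring
  have b4 : (i : ℤ) + d + 1 = ((i + d : ℕ) : ℤ) + 1 := by
    push_cast
    ring
  have b5 : (((i + d + 1 : ℕ) : ℤ) - i) = (d : ℤ) + 1 := by
    push_cast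
    ring
  have b6 : (((i + d + 1 : ℕ) : ℤ) + i + 1) = ((i : ℤ) + d + 1) + i + 1 := by
    push_cast
    ring
  rw [b5, b6]
  rw [b1, b2, b3] at key
  rw [b4] at key ⊢
  have n1 := br_ne hs (n := (d : ℤ) + 1) (by omega)
  have n2 := br_ne hs (n := ((d + e : ℕ) : ℤ) + 1) (by omega)
  have n3 := br_ne hs (n := ((i + d : ℕ) : ℤ) + 1) (by omega)
  have n4 := br_ne hs (n := ((i + d + (i + d + 1 + e) + 1 : ℕ) : ℤ) + 1) (by omega)
  have m1 := bf_ne hs i
  have m2 := bf_ne hs (i + d + 1 + d + e)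
  have m3 := bf_ne hs d
  have m4 := bf_ne hs (d + e)
  have m5 := bf_ne hs (i + d)
  have m6 := bf_ne hs (i + d + 1 + e)
  have m7 := bf_ne hs (i + d + (i + d + 1 + e) + 1)
  generalize br s ((d : ℤ) + 1) = x1 at *
  generalize br s (((d + e : ℕ) : ℤ) + 1) = x2 at *
  generalize br s (((i + d + (i + d + 1 + e) + 1 : ℕ) : ℤ) + 1) = x4 at *
  generalize br s (((i + d + 1 + d + e : ℕ) : ℤ) + 1) = x5 at *
  generalize br s ((((i + d : ℕ) : ℤ) + 1) + i + 1) = x6 at *
  generalize br s (((i + d : ℕ) : ℤ) + 1) = x3 at *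
  generalize br s ((i : ℤ) + 1) = x7 at *
  generalize bf s (i + d + 1 + d + e) = y2 at *
  generalize bf s (i + d + (i + d + 1 + e) + 1) = y7 at *
  generalize bf s (i + d + 1 + e) = y6 at *
  generalize bf s (i + d) = y5 at *
  generalize bf s (d + e) = y4 at *
  generalize bf s d = y3 at *
  generalize bf s i = y1 at *
  field_simp
  linear_combination -key

theorem base (hs : IT.Gen s) (n m : ℕ) (h : m ≤ n) : F s n m m = R s n m m := by
  unfold F R
  rw [Finset.sum_range_succ, Finset.sum_eq_zero, zero_add, pp_self hs, Nat.sub_self]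
  · have e1 : m + n - m = n := by omega
    have e2 : n + m + 1 = m + n + 1 := by omega
    have e3 : m + m + 1 = 2 * m + 1 := by omega
    rw [e1, e2, e3, bf_succ (2 * m)]
    have e4 : ((2 * m : ℕ) : ℤ) + 1 = 2 * (m : ℤ) + 1 := by push_cast; ring
    rw [e4]
    have n1 := br_ne hs (n := 2 * (m : ℤ) + 1) (by omega)
    have m1 := bf_ne hs (2 * m)
    have m2 := bf_ne hs n
    have m3 := bf_ne hs m
    have m4 := bf_ne hs (n - m)
    have m5 := bf_ne hs (m + n + 1)
    generalize br s (2 * (m : ℤ) + 1) = x1 at *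
    generalize bf s (2 * m) = y1 at *
    generalize bf s n = y2 at *
    generalize bf s m = y3 at *
    generalize bf s (n - m) = y4 at *
    generalize bf s (m + n + 1) = y5 at *
    field_simp
  · intro j hj
    rw [pp_of_lt (Finset.mem_range.1 hj), mul_zero, zero_div]

theorem main (hs : IT.Gen s) (n d : ℕ) : ∀ i : ℕ, i + d ≤ n → F s n i (i + d) = R s n i (i + d) := by
  induction d with
  | zero =>
    intro i hi
    exact base hs n i hi
  | succ d ih =>
    intro i hi
    obtain ⟨e, rfl⟩ : ∃ e, n = i + d + 1 + e := ⟨n - (i + d + 1), by omega⟩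
    have h1 := rec_F hs (i + d + 1 + e) i (i + d)
    have h2 := rec_R hs i d e
    have h3 := ih (i + 1) (by omega)
    have h4 := ih i (by omega)
    have e1 : i + 1 + d = i + d + 1 := by omega
    rw [e1] at h3
    rw [h3, h4, h2] at h1
    have hc : om s (i + d + 1) - om s i ≠ 0 := by
      rw [om_sub hs.1]
      exact mul_ne_zero (br_ne hs (by omega)) (br_ne hs (by omega))
    have h5 := sub_left_inj.1 h1
    exact (mul_left_cancel₀ hc h5).symm

end D1

theorem t_D1 : D1_Stmt := by
  intro K _ s hs i m n him hmn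
  obtain ⟨d, rfl⟩ : ∃ d, m = i + d := ⟨m - i, by omega⟩
  exact D1.main hs n d i hmn

end Pool.Agent.WD2
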