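import Pool.Agent.WD2.StE

/-!
# D2: a summation formula (Gaussian binomials)

Induction on `r` with Pascal's rule.
-/

set_option autoImplicit false

namespace Pool.Agent.WD2

open Pool.Agent.LibH11 Pool.Agent.IT Pool.Agent.GK Pool.Agent.TwoBr Pool.Agent.WD
open scoped BigOperators

namespace D2

variable {K : Type} [Field K] {s : K}

/-- `{r}! / ({k}! {r - k}!)`, zero for `r < k` -/
noncomputable def bb (s : K) (r k : ℕ) : K :=
  if k ≤ r then bf s r / (bf s k * bf s (r - k)) else 0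

/-- `σ ^ k` times the power of `s` times the product in the summand -/
noncomputable def tt (s : K) (e : Bool) (r n k : ℕ) : K :=
  ((sg e : ℤ) : K) ^ k * s ^ (sg e * ((k : ℤ) * (k + 3) + 2 * ((n : ℤ) - r) * k)) *
    ∏ l ∈ Finset.range k, br s ((n : ℤ) + (l + 1))

theorem pascal0 (h0 : s ≠ 0) (e : Bool) (r k : ℤ) :
    br s r = s ^ (sg e * (2 * k)) * br s (r - k) + s ^ (sg e * (2 * (k - r))) * br s k := by
  unfold br
  rw [mul_sub (s ^ (sg e * (2 * k))), mul_sub (s ^ (sg e * (2 * (k - r)))), ← zpow_add₀ h0,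
    ← zpow_add₀ h0, ← zpow_add₀ h0, ← zpow_add₀ h0]
  cases e
  · have e1 : sg false * (2 * k) + 2 * (r - k) = sg false * (2 * (k - r)) + -(2 * k) := by
      unfold sg
      simp only [Bool.false_eq_true, if_false]
      ring
    have e2 : sg false * (2 * k) + -(2 * (r - k)) = -(2 * r) := by
      unfold sg
      simp only [Bool.false_eq_true, if_false]
      ring
    have e3 : sg false * (2 * (k - r)) + 2 * k = 2 * r := by
      unfold sg
      simp only [Bool.false_eq_true, if_false]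
      ring
    rw [e1, e2, e3]
    ring
  · have e1 : sg true * (2 * k) + 2 * (r - k) = 2 * r := by
      unfold sg
      simp only [if_true]
      ring
    have e2 : sg true * (2 * k) + -(2 * (r - k)) = sg true * (2 * (k - r)) + 2 * k := by
      unfold sg
      simp only [if_true]
      ring
    have e3 : sg true * (2 * (k - r)) + -(2 * k) = -(2 * r) := by
      unfold sg
      simp only [if_true]
      ring
    rw [e1, e2, e3]
    ring

theorem bb_self (hs : IT.Gen s) (r : ℕ) : bb s r r = 1 := by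
  unfold bb
  rw [if_pos le_rfl, Nat.sub_self, bf_zero, mul_one]
  exact div_self (bf_ne hs r)

theorem bb_zero (hs : IT.Gen s) (r : ℕ) : bb s r 0 = 1 := by
  unfold bb
  rw [if_pos (Nat.zero_le r), Nat.sub_zero, bf_zero, one_mul]
  exact div_self (bf_ne hs r)

theorem bb_lt {r k : ℕ} (h : r < k) : bb s r k = 0 := by
  unfold bb
  exact if_neg (by omega)

theorem pascal (hs : IT.Gen s) (e : Bool) (r k : ℕ) :
    bb s (r + 1) (k + 1) = s ^ (sg e * (2 * ((k : ℤ) + 1))) * bb s r (k + 1) +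
      s ^ (sg e * (2 * ((k : ℤ) - r))) * bb s r k := by
  rcases lt_trichotomy k r with h | h | h
  · obtain ⟨d, rfl⟩ : ∃ d, r = k + 1 + d := ⟨r - (k + 1), by omega⟩
    unfold bb
    rw [if_pos (by omega), if_pos (by omega), if_pos (by omega)]
    have h1 : k + 1 + d + 1 - (k + 1) = d + 1 := by omega
    have h2 : k + 1 + d - (k + 1) = d := by omega
    have h3 : k + 1 + d - k = d + 1 := by omega
    rw [h1, h2, h3, bf_succ (k + 1 + d), bf_succ k, bf_succ d]
    have n1 := bf_ne hs k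
    have n2 := bf_ne hs d
    have n3 : br s ((k : ℤ) + 1) ≠ 0 := br_ne hs (by omega)
    have n4 : br s ((d : ℤ) + 1) ≠ 0 := br_ne hs (by omega)
    have key := pascal0 hs.1 e (((k + 1 + d : ℕ) : ℤ) + 1) ((k : ℤ) + 1)
    have e1 : ((k + 1 + d : ℕ) : ℤ) + 1 - ((k : ℤ) + 1) = (d : ℤ) + 1 := by
      push_cast
      ring
    have e2 : (k : ℤ) + 1 - (((k + 1 + d : ℕ) : ℤ) + 1) = (k : ℤ) - ((k + 1 + d : ℕ) : ℤ) := by
      ring
    rw [e1, e2] at key
    rw [key]
    field_simp
  · subst h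
    rw [bb_self hs, bb_self hs, bb_lt (Nat.lt_succ_self k), sub_self, mul_zero, mul_zero, mul_zero,
      zpow_zero]
    ring
  · rw [bb_lt (by omega), bb_lt (by omega), bb_lt h]
    ring

theorem tt_1 (h0 : s ≠ 0) (e : Bool) (r n k : ℕ) :
    s ^ (sg e * (2 * (k : ℤ))) * tt s e (r + 1) n k = tt s e r n k := by
  unfold tt
  have e1 : sg e * ((k : ℤ) * (k + 3) + 2 * ((n : ℤ) - r) * k) = sg e * (2 * (k : ℤ)) +
      sg e * ((k : ℤ) * (k + 3) + 2 * ((n : ℤ) - ((r + 1 : ℕ) : ℤ)) * k) := by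
    push_cast
    ring
  rw [e1, zpow_add₀ h0]
  ring

theorem prod_shift (n k : ℕ) : ∏ l ∈ Finset.range (k + 1), br s ((n : ℤ) + (l + 1)) =
    br s ((n : ℤ) + 1) * ∏ l ∈ Finset.range k, br s (((n + 1 : ℕ) : ℤ) + (l + 1)) := by
  rw [Finset.prod_range_succ', mul_comm]
  have h1 : (n : ℤ) + (((0 : ℕ) : ℤ) + 1) = (n : ℤ) + 1 := by
    push_cast
    ring
  rw [h1]
  congr 1
  refine Finset.prod_congr rfl fun l _ => ?_
  congr 1
  push_cast
  ring

theorem tt_2 (h0 : s ≠ 0) (e : Bool) (r n k : ℕ) :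
    s ^ (sg e * (2 * ((k : ℤ) - r))) * tt s e (r + 1) n (k + 1) =
      ((sg e : ℤ) : K) * br s ((n : ℤ) + 1) * s ^ (sg e * (2 * (n : ℤ) - 4 * r + 2)) *
        tt s e r (n + 1) k := by
  unfold tt
  rw [prod_shift]
  have e1 : sg e * (2 * ((k : ℤ) - r)) + sg e * (((k + 1 : ℕ) : ℤ) * (((k + 1 : ℕ) : ℤ) + 3) +
      2 * ((n : ℤ) - ((r + 1 : ℕ) : ℤ)) * ((k + 1 : ℕ) : ℤ)) =
      sg e * (2 * (n : ℤ) - 4 * r + 2) +
        sg e * ((k : ℤ) * (k + 3) + 2 * (((n + 1 : ℕ) : ℤ) - r) * k) := by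
    push_cast
    ring
  have e2 := congrArg (fun x => s ^ x) e1
  beta_reduce at e2
  rw [zpow_add₀ h0, zpow_add₀ h0] at e2
  rw [pow_succ]
  linear_combination (((sg e : ℤ) : K) ^ k * ((sg e : ℤ) : K) * (br s ((n : ℤ) + 1) *
    ∏ l ∈ Finset.range k, br s (((n + 1 : ℕ) : ℤ) + (l + 1)))) * e2

theorem sg_br (e : Bool) (a : ℤ) :
    ((sg e : ℤ) : K) * br s a = s ^ (sg e * (2 * a)) - s ^ (-(sg e * (2 * a))) := by
  unfold sg br
  cases e
  · simp only [Bool.false_eq_true, if_false]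
    have e1 : (-1 : ℤ) * (2 * a) = -(2 * a) := by ring
    rw [e1, neg_neg]
    push_cast
    ring
  · simp only [if_true, one_mul]
    push_cast
    ring

theorem main (hs : IT.Gen s) (e : Bool) : ∀ r n : ℕ,
    ∑ k ∈ Finset.range (r + 1), bb s r k * tt s e r n k =
      s ^ (sg e * (4 * (r : ℤ) * (n + 1))) := by
  intro r
  induction r with
  | zero =>
    intro n
    rw [Finset.sum_range_one, bb_self hs]
    unfold tt
    simp
  | succ r ih =>
    intro n
    have h0 := hs.1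
    have i1 := ih n
    have i2 := ih (n + 1)
    have j1 : ∑ k ∈ Finset.range (r + 1), bb s r k * tt s e r n k =
        ∑ k ∈ Finset.range (r + 1 + 1), bb s r k * tt s e r n k := by
      rw [Finset.sum_range_succ (fun k => bb s r k * tt s e r n k) (r + 1),
        bb_lt (Nat.lt_succ_self r)]
      ring
    rw [j1, Finset.sum_range_succ', bb_zero hs] at i1
    rw [Finset.sum_range_succ', bb_zero hs]
    have j2 : ∑ k ∈ Finset.range (r + 1), bb s (r + 1) (k + 1) * tt s e (r + 1) n (k + 1) =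
        ∑ k ∈ Finset.range (r + 1), bb s r (k + 1) * tt s e r n (k + 1) +
        ((sg e : ℤ) : K) * br s ((n : ℤ) + 1) * s ^ (sg e * (2 * (n : ℤ) - 4 * r + 2)) *
          ∑ k ∈ Finset.range (r + 1), bb s r k * tt s e r (n + 1) k := by
      rw [Finset.mul_sum, ← Finset.sum_add_distrib]
      refine Finset.sum_congr rfl fun k _ => ?_
      have k1 := tt_1 h0 e r n (k + 1)
      have k2 := tt_2 h0 e r n k
      rw [pascal hs e]
      have k3 : sg e * (2 * (((k + 1 : ℕ)) : ℤ)) = sg e * (2 * ((k : ℤ) + 1)) := by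
        push_cast
        ring
      rw [k3] at k1
      linear_combination bb s r (k + 1) * k1 + bb s r k * k2
    have j3 : tt s e (r + 1) n 0 = tt s e r n 0 := by
      unfold tt
      simp
    rw [j2, j3, i2, sg_br]
    have e1 : sg e * (2 * ((n : ℤ) + 1)) + sg e * (2 * (n : ℤ) - 4 * r + 2) +
        sg e * (4 * (r : ℤ) * (((n + 1 : ℕ) : ℤ) + 1)) =
        sg e * (4 * ((r + 1 : ℕ) : ℤ) * ((n : ℤ) + 1)) := by
      push_cast
      ring
    have e2 : -(sg e * (2 * ((n : ℤ) + 1))) + sg e * (2 * (n : ℤ) - 4 * r + 2) +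
        sg e * (4 * (r : ℤ) * (((n + 1 : ℕ) : ℤ) + 1)) =
        sg e * (4 * (r : ℤ) * ((n : ℤ) + 1)) := by
      push_cast
      ring
    have f1 := congrArg (fun x => s ^ x) e1
    have f2 := congrArg (fun x => s ^ x) e2
    beta_reduce at f1 f2
    rw [zpow_add₀ h0, zpow_add₀ h0] at f1 f2
    linear_combination i1 + f1 - f2

end D2

theorem t_D2 : D2_Stmt := by
  intro K _ s hs e r n
  rw [← D2.main hs e r n]
  refine Finset.sum_congr rfl fun k hk => ?_
  have hk := Finset.mem_range.mp hk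
  unfold D2.bb D2.tt
  rw [if_pos (by omega)]
  ring

end Pool.Agent.WD2
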