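import Pool.Agent.WD2.StE

/-!
# Iterated doubles, module ENT: the entries between labels of weight zero (helper34)
-/

set_option autoImplicit false

namespace Pool.Agent.WD2

open Pool.Agent.LibH11 Pool.Agent.IT Pool.Agent.GK Pool.Agent.TwoBr Pool.Agent.WD
open scoped BigOperators

namespace ENT

section gen

variable {K : Type} [Field K] {s : K} {ι : Type} [Fintype ι] [DecidableEq ι] {M : WM K ι}

theorem supp_F (hM : IT.Ok s M) {k : ℤ} {v : ι → K} (h : ∀ a, v a ≠ 0 → M.wt a = k) :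
    ∀ a, M.F.mulVec v a ≠ 0 → M.wt a = k - 2 := by
  intro a ha
  have : ∃ b, M.F a b * v b ≠ 0 := by
    by_contra h2
    push Not at h2
    exact ha (Finset.sum_eq_zero fun b _ => h2 b)
  obtain ⟨b, hb⟩ := this
  have h1 := hM.wtF a b (left_ne_zero_of_mul hb)
  have h2 := h b (right_ne_zero_of_mul hb)
  omega

theorem supp_F_pow (hM : IT.Ok s M) {k : ℤ} {v : ι → K} (h : ∀ a, v a ≠ 0 → M.wt a = k) (n : ℕ) :
    ∀ a, (M.F ^ n).mulVec v a ≠ 0 → M.wt a = k - 2 * n := by
  induction n with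
  | zero =>
    intro a ha
    rw [pow_zero, Matrix.one_mulVec] at ha
    rw [h a ha]
    simp
  | succ n ih =>
    intro a ha
    rw [pow_succ', ← Matrix.mulVec_mulVec] at ha
    rw [supp_F hM ih a ha]
    push_cast
    ring

theorem E_F_succ (hB : BRK_Stmt) (hs : IT.Gen s) (hM : IT.Ok s M) {k : ℤ} {u : ι → K}
    (hE : M.E.mulVec u = 0) (hw : ∀ a, u a ≠ 0 → M.wt a = k) (n : ℕ) :
    M.E.mulVec ((M.F ^ (n + 1)).mulVec u) =
      (qn s ((n : ℤ) + 1) * qn s (k - n)) • (M.F ^ n).mulVec u := by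
  have h1 : (Matrix.diagonal fun a => qn s (M.wt a - n)).mulVec u = qn s (k - n) • u := by
    funext a
    rw [Matrix.mulVec_diagonal, Pi.smul_apply, smul_eq_mul]
    by_cases h : u a = 0
    · rw [h, mul_zero, mul_zero]
    · rw [hw a h]
  rw [Matrix.mulVec_mulVec, (hB K s hs ι M hM n).1, Matrix.add_mulVec, ← Matrix.mulVec_mulVec, hE,
    Matrix.mulVec_zero, zero_add, Matrix.smul_mulVec, ← Matrix.mulVec_mulVec, h1,
    Matrix.mulVec_smul, smul_smul]

theorem E_pow (hB : BRK_Stmt) (hs : IT.Gen s) (hM : IT.Ok s M) {j : ℕ} {u : ι → K}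
    (hE : M.E.mulVec u = 0) (hw : ∀ a, u a ≠ 0 → M.wt a = 2 * (j : ℤ)) (i : ℕ) (hi : i ≤ j) :
    br s 1 ^ (2 * i) • (M.E ^ i).mulVec ((M.F ^ j).mulVec u) =
      pp s i j • (M.F ^ (j - i)).mulVec u := by
  have hb : br s 1 ≠ 0 := br_ne hs one_ne_zero
  induction i with
  | zero => simp [pp_zero]
  | succ i ih =>
    obtain ⟨n, hn⟩ : ∃ n, j = n + 1 + i := ⟨j - i - 1, by omega⟩
    have h1 : j - i = n + 1 := by omega
    have h2 : j - (i + 1) = n := by omega
    have h3 := ih (by omega)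
    rw [h1] at h3
    rw [h2, pow_succ', ← Matrix.mulVec_mulVec]
    have h4 : br s 1 ^ (2 * (i + 1)) • M.E.mulVec ((M.E ^ i).mulVec ((M.F ^ j).mulVec u)) =
        br s 1 ^ 2 • M.E.mulVec (br s 1 ^ (2 * i) • (M.E ^ i).mulVec ((M.F ^ j).mulVec u)) := by
      rw [Matrix.mulVec_smul, smul_smul]
      congr 1
      ring
    rw [h4, h3, Matrix.mulVec_smul, E_F_succ hB hs hM hE hw n, smul_smul, smul_smul, pp_succ,
      om_sub hs.1, qn_eq, qn_eq]
    congr 1
    have h5 : (n : ℤ) + 1 = (j : ℤ) - i := by omega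
    have h6 : 2 * (j : ℤ) - n = (j : ℤ) + i + 1 := by omega
    rw [h5, h6]
    field_simp

theorem FE_pow (hB : BRK_Stmt) (hs : IT.Gen s) (hM : IT.Ok s M) {j : ℕ} {u : ι → K}
    (hE : M.E.mulVec u = 0) (hw : ∀ a, u a ≠ 0 → M.wt a = 2 * (j : ℤ)) (i : ℕ) :
    br s 1 ^ (2 * i) • (M.F ^ i * M.E ^ i).mulVec ((M.F ^ j).mulVec u) =
      pp s i j • (M.F ^ j).mulVec u := by
  have hb : br s 1 ≠ 0 := br_ne hs one_ne_zero
  rcases Nat.lt_or_ge j i with h | h
  · rw [pp_of_lt h, zero_smul]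
    have h1 := E_pow hB hs hM hE hw j le_rfl
    rw [Nat.sub_self, pow_zero, Matrix.one_mulVec] at h1
    have h2 : (M.E ^ (j + 1)).mulVec ((M.F ^ j).mulVec u) = 0 := by
      have h3 : br s 1 ^ (2 * j) • (M.E ^ (j + 1)).mulVec ((M.F ^ j).mulVec u) = 0 := by
        rw [pow_succ', ← Matrix.mulVec_mulVec, ← Matrix.mulVec_smul, h1, Matrix.mulVec_smul, hE,
          smul_zero]
      exact (smul_eq_zero.1 h3).resolve_left (pow_ne_zero _ hb)
    obtain ⟨n, rfl⟩ : ∃ n, i = n + (j + 1) := ⟨i - (j + 1), by omega⟩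
    rw [← Matrix.mulVec_mulVec, pow_add M.E, ← Matrix.mulVec_mulVec, h2, Matrix.mulVec_zero,
      Matrix.mulVec_zero, smul_zero]
  · rw [← Matrix.mulVec_mulVec, ← Matrix.mulVec_smul, E_pow hB hs hM hE hw i h,
      Matrix.mulVec_smul, Matrix.mulVec_mulVec, ← pow_add]
    congr 3
    omega

end gen

section two

variable {K : Type} [Field K] {s : K} {N : ℕ}

theorem wt2 (x : Fin 2 → Fin N) :
    (fpow s (V s N) 2).wt x = 2 * ((N : ℤ) - 1 - (x 0 : ℕ) - (x 1 : ℕ)) := by
  change ∑ i, ((N : ℤ) - 1 - 2 * ((x i : ℕ) : ℤ)) = _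
  rw [Fin.sum_univ_two]
  ring

theorem E2 (x y : Fin 2 → Fin N) : (fpow s (V s N) 2).E x y =
    (if x 1 = y 1 then (V s N).E (x 0) (y 0) * s ^ (2 * (V s N).wt (y 1)) else 0) +
    (if x 0 = y 0 then (V s N).E (x 1) (y 1) else 0) := by
  change (∑ k : Fin 2, if ∀ l, l ≠ k → x l = y l then
    (V s N).E (x k) (y k) * s ^ (2 * ∑ l ∈ Finset.univ.filter (fun l => k < l),
      (V s N).wt (y l)) else 0) = _
  rw [Fin.sum_univ_two]
  have h0 : (∀ l : Fin 2, l ≠ 0 → x l = y l) ↔ x 1 = y 1 := by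
    constructor
    · intro h
      exact h 1 (by decide)
    · intro h l hl
      have hl' : l = 1 := by omega
      rw [hl']
      exact h
  have h1 : (∀ l : Fin 2, l ≠ 1 → x l = y l) ↔ x 0 = y 0 := by
    constructor
    · intro h
      exact h 0 (by decide)
    · intro h l hl
      have hl' : l = 0 := by omega
      rw [hl']
      exact h
  have f0 : (Finset.univ.filter fun l : Fin 2 => (0 : Fin 2) < l) = {1} := by decide
  have f1 : (Finset.univ.filter fun l : Fin 2 => (1 : Fin 2) < l) = ∅ := by decide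
  rw [f0, f1, Finset.sum_singleton, Finset.sum_empty, mul_zero, zpow_zero, mul_one]
  congr 1
  · by_cases h : x 1 = y 1
    · rw [if_pos (h0.mpr h), if_pos h]
    · rw [if_neg (fun h' => h (h0.mp h')), if_neg h]
  · by_cases h : x 0 = y 0
    · rw [if_pos (h1.mpr h), if_pos h]
    · rw [if_neg (fun h' => h (h1.mp h')), if_neg h]

theorem ext2 {x y : Fin 2 → Fin N} (h0 : (x 0 : ℕ) = y 0) (h1 : (x 1 : ℕ) = y 1) : x = y := by
  funext i
  fin_cases i
  · exact Fin.ext h0
  · exact Fin.ext h1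

theorem ker_zero (hs : IT.Gen s) {k : ℤ} {u : (Fin 2 → Fin N) → K}
    (hE : (fpow s (V s N) 2).E.mulVec u = 0)
    (hw : ∀ a, u a ≠ 0 → (fpow s (V s N) 2).wt a = k)
    (h0 : ∀ x : Fin 2 → Fin N, (x 0 : ℕ) = 0 → u x = 0) : u = 0 := by
  have hb : br s 1 ≠ 0 := br_ne hs one_ne_zero
  have key : ∀ (a : ℕ) (x : Fin 2 → Fin N), (x 0 : ℕ) = a → u x = 0 := by
    intro a
    induction a with
    | zero => exact h0
    | succ a ih =>
      intro x hx
      have hxN := (x 0).2
      let z : Fin 2 → Fin N := ![⟨a, by omega⟩, x 1]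
      have hz0 : (z 0 : ℕ) = a := rfl
      have h1 := congrFun hE z
      have h2 : (fpow s (V s N) 2).E.mulVec u z = (fpow s (V s N) 2).E z x * u x := by
        refine Finset.sum_eq_single x (fun y _ hy => ?_) (fun h => absurd (Finset.mem_univ _) h)
        by_cases hy0 : (y 0 : ℕ) = a
        · rw [ih y hy0, mul_zero]
        · have : (fpow s (V s N) 2).E z y = 0 := by
            rw [E2]
            have e1 : ¬ z 0 = y 0 := fun h => hy0 (by rw [← h, hz0])
            rw [if_neg e1, add_zero]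
            by_cases e2 : z 1 = y 1
            · rw [if_pos e2]
              have e3 : ¬ ((z 0 : ℕ) + 1 = y 0) := by
                intro e3
                refine hy (ext2 ?_ ?_)
                · rw [← e3, hx, hz0]
                · exact congrArg Fin.val e2.symm
              show (if (z 0 : ℕ) + 1 = y 0 then qn s ((N : ℤ) - ((y 0 : ℕ) : ℤ)) else 0) * _ = 0
              rw [if_neg e3, zero_mul]
            · rw [if_neg e2]
          show (fpow s (V s N) 2).E z y * u y = 0
          rw [this, zero_mul]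
      rw [h2] at h1
      have h3 : (fpow s (V s N) 2).E z x ≠ 0 := by
        rw [E2]
        have e1 : ¬ z 0 = x 0 := by
          intro h
          have := congrArg Fin.val h
          have e4 : (z 0 : ℕ) = a := rfl
          omega
        have e2 : z 1 = x 1 := rfl
        rw [if_neg e1, add_zero, if_pos e2]
        have e3 : (z 0 : ℕ) + 1 = x 0 := hx.symm
        show (if (z 0 : ℕ) + 1 = x 0 then qn s ((N : ℤ) - ((x 0 : ℕ) : ℤ)) else 0) * _ ≠ 0
        rw [if_pos e3, qn_eq]
        refine mul_ne_zero (div_ne_zero (br_ne hs ?_) hb) (zpow_ne_zero _ hs.1)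
        omega
      exact (mul_eq_zero.1 h1).resolve_left h3
  funext x
  exact key _ x rfl

theorem card_wt (j : ℕ) :
    (Finset.univ.filter fun x : Fin 2 → Fin N => (fpow s (V s N) 2).wt x = 2 * (j : ℤ)).card =
      N - j := by
  rw [← Finset.card_range (N - j)]
  refine Finset.card_bij (fun x _ => (x 0 : ℕ)) ?_ ?_ ?_
  · intro x hx
    rw [Finset.mem_filter, wt2] at hx
    rw [Finset.mem_range]
    have := (x 1).2
    omega
  · intro x hx y hy h
    rw [Finset.mem_filter, wt2] at hx hy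
    refine ext2 h ?_
    omega
  · intro a ha
    rw [Finset.mem_range] at ha
    refine ⟨![⟨a, by omega⟩, ⟨N - 1 - j - a, by omega⟩], ?_, rfl⟩
    rw [Finset.mem_filter, wt2]
    refine ⟨Finset.mem_univ _, ?_⟩
    show 2 * ((N : ℤ) - 1 - ((a : ℕ) : ℤ) - ((N - 1 - j - a : ℕ) : ℤ)) = 2 * (j : ℤ)
    omega

theorem mor_one {ι : Type} [Fintype ι] [DecidableEq ι] (M : WM K ι) : Mor M M 1 where
  wt := by
    intro b a h
    by_contra h2
    exact h (Matrix.one_apply_ne fun h3 => h2 (by rw [h3]))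
  E := by rw [Matrix.mul_one, Matrix.one_mul]
  F := by rw [Matrix.mul_one, Matrix.one_mul]

theorem exists_u (hMU : MULT_Stmt) (hs : IT.Gen s) (hOk : IT.Ok s (fpow s (V s N) 2)) (j : ℕ)
    (hj : j < N) : ∃ u : (Fin 2 → Fin N) → K, u ≠ 0 ∧ (fpow s (V s N) 2).E.mulVec u = 0 ∧
      (∀ a, u a ≠ 0 → (fpow s (V s N) 2).wt a = 2 * (j : ℤ)) ∧
      ∀ Y, Mor (fpow s (V s N) 2) (fpow s (V s N) 2) Y → Y.mulVec u =
        (wtr (fpow s (V s N) 2) (2 * (j : ℤ)) Y - wtr (fpow s (V s N) 2) (2 * (j : ℤ) + 2) Y) •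
          u := by
  obtain ⟨m, P, Q, hQP, hEP, hwP, hX⟩ := hMU K s hs _ (fpow s (V s N) 2) hOk (2 * j)
  have hcast : ((2 * j : ℕ) : ℤ) = 2 * (j : ℤ) := by push_cast; rfl
  rw [hcast] at hX hwP
  -- the columns
  have col : ∀ t, (fun a => P a t) = P.mulVec (Pi.single t 1) := by
    intro t
    funext a
    simp
  have colE : ∀ t, (fpow s (V s N) 2).E.mulVec (fun a => P a t) = 0 := by
    intro t
    rw [col, Matrix.mulVec_mulVec, hEP, Matrix.zero_mulVec]
  have colQ : ∀ t, Q.mulVec (fun a => P a t) = Pi.single t 1 := by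
    intro t
    rw [col, Matrix.mulVec_mulVec, hQP, Matrix.one_mulVec]
  -- at least one column
  have h1 : (m : K) = 1 := by
    have h2 := (hX 1 (mor_one _)).2
    rw [Matrix.mul_one, hQP, Matrix.trace_one, Fintype.card_fin] at h2
    rw [h2]
    unfold wtr
    have h3 : ∀ A : Finset (Fin 2 → Fin N),
        ∑ i ∈ A, (1 : Matrix (Fin 2 → Fin N) (Fin 2 → Fin N) K) i i = (A.card : K) := by
      intro A
      rw [Finset.sum_congr rfl fun i _ => Matrix.one_apply_eq i]
      simp
    rw [h3, h3, card_wt, show 2 * (j : ℤ) + 2 = 2 * ((j + 1 : ℕ) : ℤ) by push_cast; ring, card_wt]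
    have h4 : N - j = (N - (j + 1)) + 1 := by omega
    rw [h4]
    push_cast
    ring
  -- at most one column
  have h2 : ∀ t t' : Fin m, t = t' := by
    intro t t'
    by_contra htt
    have hlab : ∀ x y : Fin 2 → Fin N, (x 0 : ℕ) = 0 → (y 0 : ℕ) = 0 → ∀ r : Fin m,
        (fpow s (V s N) 2).wt x = 2 * (j : ℤ) → (fpow s (V s N) 2).wt y = 2 * (j : ℤ) →
        x = y := by
      intro x y hx hy _ hx2 hy2
      rw [wt2] at hx2 hy2
      exact ext2 (by omega) (by omega)
    let x₀ : Fin 2 → Fin N := ![⟨0, by omega⟩, ⟨N - 1 - j, by omega⟩]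
    have hx₀ : (fpow s (V s N) 2).wt x₀ = 2 * (j : ℤ) := by
      rw [wt2]
      show 2 * ((N : ℤ) - 1 - ((0 : ℕ) : ℤ) - ((N - 1 - j : ℕ) : ℤ)) = 2 * (j : ℤ)
      omega
    have hz : (P x₀ t) • (fun a => P a t') - (P x₀ t') • (fun a => P a t) = 0 := by
      refine ker_zero hs (k := 2 * (j : ℤ)) ?_ ?_ ?_
      · rw [Matrix.mulVec_sub, Matrix.mulVec_smul, Matrix.mulVec_smul, colE, colE, smul_zero,
          smul_zero, sub_zero]
      · intro a ha
        by_contra hne
        apply ha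
        have e1 : P a t' = 0 := by
          by_contra h
          exact hne (hwP a t' h)
        have e2 : P a t = 0 := by
          by_contra h
          exact hne (hwP a t h)
        simp [e1, e2]
      · intro x hx
        by_cases hwx : (fpow s (V s N) 2).wt x = 2 * (j : ℤ)
        · have : x = x₀ := hlab x x₀ hx rfl t hwx hx₀
          rw [this]
          simp only [Pi.sub_apply, Pi.smul_apply, smul_eq_mul]
          ring
        · have e1 : P x t' = 0 := by
            by_contra h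
            exact hwx (hwP x t' h)
          have e2 : P x t = 0 := by
            by_contra h
            exact hwx (hwP x t h)
          simp [e1, e2]
    have hz2 := congrArg (fun v => Q.mulVec v) hz
    simp only [Matrix.mulVec_sub, Matrix.mulVec_smul, colQ, Matrix.mulVec_zero] at hz2
    have hz3 := congrFun hz2 t'
    simp only [Pi.sub_apply, Pi.smul_apply, Pi.single_eq_same, smul_eq_mul, mul_one,
      Pi.single_eq_of_ne (Ne.symm htt), mul_zero, sub_zero, Pi.zero_apply] at hz3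
    have hz4 : (fun a => P a t) = 0 := by
      refine ker_zero hs (k := 2 * (j : ℤ)) (colE t) (fun a ha => hwP a t ha) ?_
      intro x hx
      by_cases hwx : (fpow s (V s N) 2).wt x = 2 * (j : ℤ)
      · have : x = x₀ := hlab x x₀ hx rfl t hwx hx₀
        rw [this]
        exact hz3
      · by_contra h
        exact hwx (hwP x t h)
    have hz5 := colQ t
    rw [hz4, Matrix.mulVec_zero] at hz5
    have hz6 := congrFun hz5 t
    rw [Pi.single_eq_same] at hz6
    exact zero_ne_one hz6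
  have hm : 0 < m := by
    rcases Nat.eq_zero_or_pos m with h | h
    · rw [h] at h1
      exact absurd h1 (by simp)
    · exact h
  let t : Fin m := ⟨0, hm⟩
  refine ⟨fun a => P a t, ?_, colE t, fun a ha => hwP a t ha, fun Y hY => ?_⟩
  · intro h
    have h5 := colQ t
    rw [h, Matrix.mulVec_zero] at h5
    have h6 := congrFun h5 t
    rw [Pi.single_eq_same] at h6
    exact zero_ne_one h6
  · obtain ⟨h3, h4⟩ := hX Y hY
    rw [← h4]
    have h5 : (Q * Y * P).trace = (Q * Y * P) t t :=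
      Finset.sum_eq_single t (fun i _ hi => absurd (h2 i t) hi)
        (fun h => absurd (Finset.mem_univ _) h)
    rw [h5]
    funext a
    have h6 : (Y * P) a t = (P * (Q * Y * P)) a t := by rw [← h3]
    rw [Pi.smul_apply, smul_eq_mul]
    have h7 : (P * (Q * Y * P)) a t = P a t * (Q * Y * P) t t := by
      rw [Matrix.mul_apply]
      exact Finset.sum_eq_single t (fun i _ hi => absurd (h2 i t) hi)
        (fun h => absurd (Finset.mem_univ _) h)
    rw [h7] at h6
    rw [mul_comm, ← h6]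
    rfl

/-- the labels of weight zero -/
def lab (a : Fin N) : Fin 2 → Fin N := ![a, a.rev]

theorem lab_inj : Function.Injective (lab (N := N)) := fun a b h => congrFun h 0

theorem lab_wt (a : Fin N) : (fpow s (V s N) 2).wt (lab a) = 0 := by
  rw [wt2]
  show 2 * ((N : ℤ) - 1 - ((a : ℕ) : ℤ) - ((a.rev : ℕ) : ℤ)) = 0
  rw [Fin.val_rev]
  have := a.2
  omega

theorem lab_of_wt {x : Fin 2 → Fin N} (h : (fpow s (V s N) 2).wt x = 0) : lab (x 0) = x := by
  rw [wt2] at h
  refine ext2 rfl ?_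
  show (((x 0).rev : Fin N) : ℕ) = x 1
  rw [Fin.val_rev]
  have := (x 0).2
  omega

/-- the basis vectors of weight zero are combinations of the vectors `v j` -/
theorem span (hs : IT.Gen s) (A : Matrix (Fin 2 → Fin N) (Fin 2 → Fin N) K)
    (v : Fin N → (Fin 2 → Fin N) → K) (hv0 : ∀ j, v j ≠ 0)
    (hvw : ∀ j a, v j a ≠ 0 → (fpow s (V s N) 2).wt a = 0)
    (hA : ∀ j : Fin N, br s 1 ^ 2 • A.mulVec (v j) = pp s 1 j • v j)
    (y : Fin 2 → Fin N) (hy : (fpow s (V s N) 2).wt y = 0) :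
    ∃ c : Fin N → K, ∑ j, c j • v j = Pi.single y 1 := by
  have hb : br s 1 ≠ 0 := br_ne hs one_ne_zero
  let A' : Matrix (Fin N) (Fin N) K := A.submatrix lab lab
  let v' : Fin N → Fin N → K := fun j a => v j (lab a)
  have h1 : ∀ j, A'.mulVec (v' j) = (pp s 1 j / br s 1 ^ 2) • v' j := by
    intro j
    funext a
    have h2 : A'.mulVec (v' j) a = A.mulVec (v j) (lab a) := by
      refine Fintype.sum_of_injective lab lab_inj _ _ ?_ ?_
      · intro z hz
        by_cases hz2 : v j z = 0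
        · show A (lab a) z * v j z = 0
          rw [hz2, mul_zero]
        · exact absurd ⟨z 0, lab_of_wt (s := s) (hvw j z hz2)⟩ hz
      · intro b
        rfl
    rw [h2]
    have h3 := congrFun (hA j) (lab a)
    rw [Pi.smul_apply, Pi.smul_apply, smul_eq_mul, smul_eq_mul] at h3
    rw [Pi.smul_apply, smul_eq_mul]
    show A.mulVec (v j) (lab a) = pp s 1 j / br s 1 ^ 2 * v j (lab a)
    rw [div_mul_eq_mul_div, ← h3, mul_div_cancel_left₀ _ (pow_ne_zero 2 hb)]
  have h2 : ∀ j, v' j ≠ 0 := by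
    intro j h
    apply hv0 j
    funext z
    by_contra hz
    have h3 := congrFun h (z 0)
    have h4 : v j (lab (z 0)) = 0 := h3
    rw [lab_of_wt (s := s) (hvw j z hz)] at h4
    exact hz h4
  have hinj : Function.Injective fun j : Fin N => pp s 1 (j : ℕ) / br s 1 ^ 2 := by
    intro j j' h
    have h3 : pp s 1 (j : ℕ) = pp s 1 (j' : ℕ) := by
      have := congrArg (fun t => t * br s 1 ^ 2) h
      simpa only [div_mul_cancel₀ _ (pow_ne_zero 2 hb)] using this
    rw [pp_succ, pp_succ, pp_zero, pp_zero, one_mul, one_mul] at h3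
    have h4 : om s (j : ℕ) - om s (j' : ℕ) = 0 := by linear_combination h3
    rw [om_sub hs.1] at h4
    by_contra hne
    have hne' : (j : ℕ) ≠ j' := fun h => hne (Fin.ext h)
    rcases mul_eq_zero.1 h4 with h5 | h5
    · exact br_ne hs (by omega) h5
    · exact br_ne hs (by omega) h5
  have hli : LinearIndependent K v' := by
    refine Module.End.eigenvectors_linearIndependent' (Matrix.mulVecLin A')
      (fun j : Fin N => pp s 1 (j : ℕ) / br s 1 ^ 2) hinj v' fun j => ?_
    rw [Module.End.hasEigenvector_iff, Module.End.mem_eigenspace_iff]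
    exact ⟨h1 j, h2 j⟩
  have hspan := hli.span_eq_top_of_card_eq_finrank' (by simp)
  have hmem : (Pi.single (y 0) 1 : Fin N → K) ∈ Submodule.span K (Set.range v') := by
    rw [hspan]
    exact Submodule.mem_top
  obtain ⟨c, hc⟩ := (Submodule.mem_span_range_iff_exists_fun K).1 hmem
  refine ⟨c, ?_⟩
  funext z
  by_cases hz : (fpow s (V s N) 2).wt z = 0
  · have h3 := congrFun hc (z 0)
    have h4 : (∑ j, c j • v' j) (z 0) = (∑ j, c j • v j) z := by
      rw [Finset.sum_apply, Finset.sum_apply]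
      refine Finset.sum_congr rfl fun j _ => ?_
      show c j * v j (lab (z 0)) = c j * v j z
      rw [lab_of_wt hz]
    rw [← h4, h3]
    by_cases h5 : z = y
    · rw [h5, Pi.single_eq_same, Pi.single_eq_same]
    · rw [Pi.single_eq_of_ne h5, Pi.single_eq_of_ne]
      intro h6
      exact h5 (by rw [← lab_of_wt hz, h6, lab_of_wt hy])
  · have h5 : z ≠ y := fun h => hz (by rw [h, hy])
    rw [Pi.single_eq_of_ne h5, Finset.sum_apply]
    refine Finset.sum_eq_zero fun j _ => ?_
    have : v j z = 0 := by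
      by_contra h
      exact hz (hvw j z h)
    rw [Pi.smul_apply, this, smul_zero]

theorem main (hMU : MULT_Stmt) (hB : BRK_Stmt) (hs : IT.Gen s)
    (hOk : IT.Ok s (fpow s (V s N) 2)) (x y : Fin 2 → Fin N)
    (hy : (fpow s (V s N) 2).wt y = 0) : ∃ ρ : ℕ → K,
    ∀ Y, Mor (fpow s (V s N) 2) (fpow s (V s N) 2) Y → ∀ i : ℕ,
      br s 1 ^ (2 * i) * (Y * ((fpow s (V s N) 2).F ^ i * (fpow s (V s N) 2).E ^ i)) x y =
        ∑ j ∈ Finset.range N, ρ j * pp s i j *
          (wtr (fpow s (V s N) 2) (2 * (j : ℤ)) Y -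
            wtr (fpow s (V s N) 2) (2 * (j : ℤ) + 2) Y) := by
  set W := fpow s (V s N) 2 with hW
  have hu := fun j : Fin N => exists_u hMU hs hOk j j.2
  choose u hu0 huE huw huY using hu
  have hFE : ∀ (i : ℕ) (j : Fin N), br s 1 ^ (2 * i) • (W.F ^ i * W.E ^ i).mulVec
      ((W.F ^ (j : ℕ)).mulVec (u j)) = pp s i j • (W.F ^ (j : ℕ)).mulVec (u j) := fun i j =>
    FE_pow hB hs hOk (huE j) (huw j) i
  have hv0 : ∀ j : Fin N, (W.F ^ (j : ℕ)).mulVec (u j) ≠ 0 := by
    intro j h
    have h1 := E_pow hB hs hOk (huE j) (huw j) j le_rfl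
    rw [h, Matrix.mulVec_zero, smul_zero, Nat.sub_self, pow_zero, Matrix.one_mulVec] at h1
    rcases smul_eq_zero.1 h1.symm with h2 | h2
    · exact pp_ne hs le_rfl h2
    · exact hu0 j h2
  obtain ⟨c, hc⟩ := span hs (W.F * W.E) (fun j => (W.F ^ (j : ℕ)).mulVec (u j)) hv0
    (fun j a ha => (supp_F_pow hOk (huw j) j a ha).trans (by ring))
    (fun j => by
      have := hFE 1 j
      simpa only [mul_one, pow_one] using this) y hy
  refine ⟨fun j => if h : j < N then c ⟨j, h⟩ * (W.F ^ j).mulVec (u ⟨j, h⟩) x else 0,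
    fun Y hY i => ?_⟩
  have hYF : ∀ n : ℕ, Y * W.F ^ n = W.F ^ n * Y := by
    intro n
    have : Commute Y W.F := hY.F.symm
    exact (this.pow_right n).eq
  have h1 : (Y * (W.F ^ i * W.E ^ i)) x y =
      ∑ j, c j * (Y * (W.F ^ i * W.E ^ i)).mulVec ((W.F ^ (j : ℕ)).mulVec (u j)) x := by
    have h2 : (Y * (W.F ^ i * W.E ^ i)) x y =
        (Y * (W.F ^ i * W.E ^ i)).mulVec (Pi.single y 1) x := by simp
    rw [h2, ← hc, Matrix.mulVec_sum, Finset.sum_apply]
    refine Finset.sum_congr rfl fun j _ => ?_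
    rw [Matrix.mulVec_smul]
    rfl
  rw [h1, Finset.mul_sum, Finset.sum_range]
  refine Finset.sum_congr rfl fun j _ => ?_
  have h3 : br s 1 ^ (2 * i) • (Y * (W.F ^ i * W.E ^ i)).mulVec ((W.F ^ (j : ℕ)).mulVec (u j)) =
      (pp s i j * (wtr W (2 * ((j : ℕ) : ℤ)) Y - wtr W (2 * ((j : ℕ) : ℤ) + 2) Y)) •
        (W.F ^ (j : ℕ)).mulVec (u j) := by
    rw [← Matrix.mulVec_mulVec, ← Matrix.mulVec_smul, hFE, Matrix.mulVec_smul,
      Matrix.mulVec_mulVec, hYF, ← Matrix.mulVec_mulVec, huY j Y hY, Matrix.mulVec_smul, smul_smul]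
  have h4 := congrFun h3 x
  rw [Pi.smul_apply, Pi.smul_apply, smul_eq_mul, smul_eq_mul] at h4
  have hj : (⟨(j : ℕ), j.2⟩ : Fin N) = j := rfl
  beta_reduce
  rw [dif_pos j.2]
  linear_combination c j * h4

end two

end ENT

theorem t_ENT (hMU : MULT_Stmt) (hB : BRK_Stmt) (hF : FPOWOK_Stmt) (hV : VOK_Stmt) : ENT_Stmt := by
  intro K _ s hs N _ x y _ hy
  refine ENT.main hMU hB hs (hF K s hs (Fin N) (V s N) ((hV K s hs).1 N) 2) x y ?_
  rw [ENT.wt2]
  omega

end Pool.Agent.WD2
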