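import Pool.Agent.WD2.StE

/-!
# Iterated doubles: two columns of `F ^ i E ^ i` on the tensor square

`E` and `F` act on functions of the two labels (`EE`, `FF`); the powers are computed by induction
with Pascal's rule.
-/

set_option autoImplicit false

namespace Pool.Agent.WD2

open Pool.Agent.LibH11 Pool.Agent.IT Pool.Agent.GK Pool.Agent.TwoBr Pool.Agent.WD
open scoped BigOperators

namespace FEN

section Fld

variable {K : Type} [Field K] (s : K)

/-- The action of `E` on functions of the two labels. -/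
def EE (N : ℕ) (g : ℕ → ℕ → K) (a b : ℕ) : K :=
  qn s ((N : ℤ) - (a + 1 : ℕ)) * s ^ (2 * ((N : ℤ) - 1 - 2 * b)) * g (a + 1) b +
    qn s ((N : ℤ) - (b + 1 : ℕ)) * g a (b + 1)

/-- The action of `F` on functions of the two labels. -/
def FF (N : ℕ) (g : ℕ → ℕ → K) (a b : ℕ) : K :=
  qn s (a : ℤ) * g (a - 1) b +
    s ^ (-(2 * ((N : ℤ) - 1 - 2 * a))) * qn s (b : ℤ) * g a (b - 1)

/-- The vector of a function of the two labels. -/
def vec (N : ℕ) (g : ℕ → ℕ → K) : (Fin 2 → Fin N) → K := fun x => g (x 0) (x 1)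

theorem qn_zero : qn s 0 = 0 := by simp [qn]

/-- Sums over one label against a raising entry. -/
theorem sum_succ {N : ℕ} (x : ℕ) (hx : x < N) (φ : ℕ → K) (h0 : φ N = 0) :
    ∑ a : Fin N, (if x + 1 = (a : ℕ) then φ a else 0) = φ (x + 1) := by
  by_cases h : x + 1 < N
  · rw [Finset.sum_eq_single (⟨x + 1, h⟩ : Fin N)]
    · simp
    · intro b _ hb
      rw [if_neg]
      intro h'
      exact hb (Fin.ext h'.symm)
    · intro h'
      exact absurd (Finset.mem_univ _) h'
  · have hN : x + 1 = N := by omega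
    rw [hN, h0]
    refine Finset.sum_eq_zero fun a _ => ?_
    rw [if_neg]
    have := a.2
    omega

/-- Sums over one label against a lowering entry. -/
theorem sum_pred {N : ℕ} (x : ℕ) (hx : x < N) (φ : ℕ → K) (h0 : x = 0 → φ 0 = 0) :
    ∑ a : Fin N, (if x = (a : ℕ) + 1 then φ a else 0) = φ (x - 1) := by
  rcases x with _ | x
  · rw [Nat.zero_sub, h0 rfl]
    refine Finset.sum_eq_zero fun a _ => ?_
    rw [if_neg]
    omega
  · rw [Finset.sum_eq_single (⟨x, by omega⟩ : Fin N)]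
    · simp
    · intro b _ hb
      rw [if_neg]
      intro h'
      exact hb (Fin.ext (Nat.succ_injective h').symm)
    · intro h'
      exact absurd (Finset.mem_univ _) h'

/-- Sums over pairs of labels. -/
theorem sum_pair {N : ℕ} (f : (Fin 2 → Fin N) → K) (g : Fin N → Fin N → K)
    (h : ∀ y, f y = g (y 0) (y 1)) : ∑ y, f y = ∑ a, ∑ b, g a b := by
  rw [← Fintype.sum_prod_type']
  exact Fintype.sum_equiv (finTwoArrowEquiv (Fin N)) _ _ fun y => h y

theorem E_apply (N : ℕ) (x y : Fin 2 → Fin N) : (fpow s (V s N) 2).E x y =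
    (if x 1 = y 1 then (V s N).E (x 0) (y 0) * s ^ (2 * (V s N).wt (y 1)) else 0) +
    (if x 0 = y 0 then (V s N).E (x 1) (y 1) else 0) := by
  change (∑ k : Fin 2, if ∀ l, l ≠ k → x l = y l then
    (V s N).E (x k) (y k) * s ^ (2 * ∑ l ∈ Finset.univ.filter (fun l => k < l), (V s N).wt (y l))
      else 0) = _
  rw [Fin.sum_univ_two]
  have h0 : (∀ l : Fin 2, l ≠ 0 → x l = y l) ↔ x 1 = y 1 := by
    constructor
    · intro h
      exact h 1 (by decide)
    · intro h l hl
      have hl' : l = 1 := by omega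
      rw [hl']
      exact h
  have h1 : (∀ l : Fin 2, l ≠ 1 → x l = y l) ↔ x 0 = y 0 := by
    constructor
    · intro h
      exact h 0 (by decide)
    · intro h l hl
      have hl' : l = 0 := by omega
      rw [hl']
      exact h
  have f0 : (Finset.univ.filter fun l : Fin 2 => (0 : Fin 2) < l) = {1} := by decide
  have f1 : (Finset.univ.filter fun l : Fin 2 => (1 : Fin 2) < l) = ∅ := by decide
  rw [f0, f1, Finset.sum_singleton, Finset.sum_empty, mul_zero, zpow_zero, mul_one]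
  congr 1
  · by_cases h : x 1 = y 1
    · rw [if_pos (h0.mpr h), if_pos h]
    · rw [if_neg (fun h' => h (h0.mp h')), if_neg h]
  · by_cases h : x 0 = y 0
    · rw [if_pos (h1.mpr h), if_pos h]
    · rw [if_neg (fun h' => h (h1.mp h')), if_neg h]

theorem F_apply (N : ℕ) (x y : Fin 2 → Fin N) : (fpow s (V s N) 2).F x y =
    (if x 1 = y 1 then (V s N).F (x 0) (y 0) else 0) +
    (if x 0 = y 0 then s ^ (-(2 * (V s N).wt (y 0))) * (V s N).F (x 1) (y 1) else 0) := by
  change (∑ k : Fin 2, if ∀ l, l ≠ k → x l = y l then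
    s ^ (-(2 * ∑ l ∈ Finset.univ.filter (fun l => l < k), (V s N).wt (y l))) *
      (V s N).F (x k) (y k) else 0) = _
  rw [Fin.sum_univ_two]
  have h0 : (∀ l : Fin 2, l ≠ 0 → x l = y l) ↔ x 1 = y 1 := by
    constructor
    · intro h
      exact h 1 (by decide)
    · intro h l hl
      have hl' : l = 1 := by omega
      rw [hl']
      exact h
  have h1 : (∀ l : Fin 2, l ≠ 1 → x l = y l) ↔ x 0 = y 0 := by
    constructor
    · intro h
      exact h 0 (by decide)
    · intro h l hl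
      have hl' : l = 0 := by omega
      rw [hl']
      exact h
  have f0 : (Finset.univ.filter fun l : Fin 2 => l < (0 : Fin 2)) = ∅ := by decide
  have f1 : (Finset.univ.filter fun l : Fin 2 => l < (1 : Fin 2)) = {0} := by decide
  rw [f0, f1, Finset.sum_singleton, Finset.sum_empty, mul_zero, neg_zero, zpow_zero, one_mul]
  congr 1
  · by_cases h : x 1 = y 1
    · rw [if_pos (h0.mpr h), if_pos h]
    · rw [if_neg (fun h' => h (h0.mp h')), if_neg h]
  · by_cases h : x 0 = y 0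
    · rw [if_pos (h1.mpr h), if_pos h]
    · rw [if_neg (fun h' => h (h1.mp h')), if_neg h]

theorem mulVec_E (N : ℕ) (g : ℕ → ℕ → K) :
    (fpow s (V s N) 2).E.mulVec (vec N g) = vec N (EE s N g) := by
  funext x
  change ∑ y, (fpow s (V s N) 2).E x y * g (y 0) (y 1) = EE s N g (x 0) (x 1)
  rw [sum_pair _ (fun a b => ((if x 1 = b then (V s N).E (x 0) a * s ^ (2 * (V s N).wt b) else 0) +
    (if x 0 = a then (V s N).E (x 1) b else 0)) * g a b) fun y => by rw [E_apply]]
  simp only [add_mul, Finset.sum_add_distrib, ite_mul, zero_mul]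
  unfold EE
  congr 1
  · simp only [Finset.sum_ite_eq, Finset.mem_univ, if_true]
    have e : ∀ a : Fin N, (V s N).E (x 0) a * s ^ (2 * (V s N).wt (x 1)) * g a (x 1) =
        if (x 0 : ℕ) + 1 = (a : ℕ) then
          (fun a : ℕ => qn s ((N : ℤ) - (a : ℕ)) * s ^ (2 * ((N : ℤ) - 1 - 2 * (x 1 : ℕ))) *
            g a (x 1)) a else 0 := by
      intro a
      change (if (x 0 : ℕ) + 1 = a then qn s ((N : ℤ) - (a : ℕ)) else 0) *
        s ^ (2 * ((N : ℤ) - 1 - 2 * (x 1 : ℕ))) * g a (x 1) = _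
      by_cases h : (x 0 : ℕ) + 1 = (a : ℕ)
      · rw [if_pos h, if_pos h]
      · rw [if_neg h, if_neg h, zero_mul, zero_mul]
    exact (Finset.sum_congr rfl fun a _ => e a).trans (sum_succ (x 0 : ℕ) (x 0).2
      (fun a : ℕ => qn s ((N : ℤ) - (a : ℕ)) * s ^ (2 * ((N : ℤ) - 1 - 2 * (x 1 : ℕ))) *
        g a (x 1)) (by rw [sub_self, qn_zero, zero_mul, zero_mul]))
  · rw [Finset.sum_comm]
    simp only [Finset.sum_ite_eq, Finset.mem_univ, if_true]
    have e : ∀ b : Fin N, (V s N).E (x 1) b * g (x 0) b =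
        if (x 1 : ℕ) + 1 = (b : ℕ) then
          (fun b : ℕ => qn s ((N : ℤ) - (b : ℕ)) * g (x 0) b) b else 0 := by
      intro b
      change (if (x 1 : ℕ) + 1 = b then qn s ((N : ℤ) - (b : ℕ)) else 0) * g (x 0) b = _
      by_cases h : (x 1 : ℕ) + 1 = (b : ℕ)
      · rw [if_pos h, if_pos h]
      · rw [if_neg h, if_neg h, zero_mul]
    exact (Finset.sum_congr rfl fun b _ => e b).trans (sum_succ (x 1 : ℕ) (x 1).2
      (fun b : ℕ => qn s ((N : ℤ) - (b : ℕ)) * g (x 0) b)
        (by rw [sub_self, qn_zero, zero_mul]))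

theorem mulVec_F (N : ℕ) (g : ℕ → ℕ → K) :
    (fpow s (V s N) 2).F.mulVec (vec N g) = vec N (FF s N g) := by
  funext x
  change ∑ y, (fpow s (V s N) 2).F x y * g (y 0) (y 1) = FF s N g (x 0) (x 1)
  rw [sum_pair _ (fun a b => ((if x 1 = b then (V s N).F (x 0) a else 0) +
    (if x 0 = a then s ^ (-(2 * (V s N).wt a)) * (V s N).F (x 1) b else 0)) * g a b)
    fun y => by rw [F_apply]]
  simp only [add_mul, Finset.sum_add_distrib, ite_mul, zero_mul]
  unfold FF
  congr 1
  · simp only [Finset.sum_ite_eq, Finset.mem_univ, if_true]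
    have e : ∀ a : Fin N, (V s N).F (x 0) a * g a (x 1) =
        if (x 0 : ℕ) = (a : ℕ) + 1 then
          (fun a : ℕ => qn s ((x 0 : ℕ) : ℤ) * g a (x 1)) a else 0 := by
      intro a
      change (if (x 0 : ℕ) = a + 1 then qn s ((x 0 : ℕ) : ℤ) else 0) * g a (x 1) = _
      by_cases h : (x 0 : ℕ) = (a : ℕ) + 1
      · rw [if_pos h, if_pos h]
      · rw [if_neg h, if_neg h, zero_mul]
    exact (Finset.sum_congr rfl fun a _ => e a).trans (sum_pred (x 0 : ℕ) (x 0).2
      (fun a : ℕ => qn s ((x 0 : ℕ) : ℤ) * g a (x 1))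
        (by intro h; rw [h, Nat.cast_zero, qn_zero, zero_mul]))
  · rw [Finset.sum_comm]
    simp only [Finset.sum_ite_eq, Finset.mem_univ, if_true]
    have e : ∀ b : Fin N, s ^ (-(2 * (V s N).wt (x 0))) * (V s N).F (x 1) b * g (x 0) b =
        if (x 1 : ℕ) = (b : ℕ) + 1 then
          (fun b : ℕ => s ^ (-(2 * ((N : ℤ) - 1 - 2 * (x 0 : ℕ)))) * qn s ((x 1 : ℕ) : ℤ) *
            g (x 0) b) b else 0 := by
      intro b
      change s ^ (-(2 * ((N : ℤ) - 1 - 2 * (x 0 : ℕ)))) *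
        (if (x 1 : ℕ) = b + 1 then qn s ((x 1 : ℕ) : ℤ) else 0) * g (x 0) b = _
      by_cases h : (x 1 : ℕ) = (b : ℕ) + 1
      · rw [if_pos h, if_pos h]
      · rw [if_neg h, if_neg h, mul_zero, zero_mul]
    exact (Finset.sum_congr rfl fun b _ => e b).trans (sum_pred (x 1 : ℕ) (x 1).2
      (fun b : ℕ => s ^ (-(2 * ((N : ℤ) - 1 - 2 * (x 0 : ℕ)))) * qn s ((x 1 : ℕ) : ℤ) *
        g (x 0) b) (by intro h; rw [h, Nat.cast_zero, qn_zero, mul_zero, zero_mul]))

theorem pow_E (N : ℕ) (i : ℕ) (g : ℕ → ℕ → K) :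
    ((fpow s (V s N) 2).E ^ i).mulVec (vec N g) = vec N ((EE s N)^[i] g) := by
  induction i with
  | zero => simp
  | succ i ih =>
    rw [pow_succ', ← Matrix.mulVec_mulVec, ih, mulVec_E, Function.iterate_succ_apply']

theorem pow_F (N : ℕ) (i : ℕ) (g : ℕ → ℕ → K) :
    ((fpow s (V s N) 2).F ^ i).mulVec (vec N g) = vec N ((FF s N)^[i] g) := by
  induction i with
  | zero => simp
  | succ i ih =>
    rw [pow_succ', ← Matrix.mulVec_mulVec, ih, mulVec_F, Function.iterate_succ_apply']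

/-- The entries of `F ^ i E ^ i`. -/
theorem entry (N : ℕ) (i : ℕ) (x y : Fin 2 → Fin N) :
    ((fpow s (V s N) 2).F ^ i * (fpow s (V s N) 2).E ^ i) x y =
      (FF s N)^[i] ((EE s N)^[i] fun a b => if a = (y 0 : ℕ) ∧ b = (y 1 : ℕ) then 1 else 0)
        (x 0) (x 1) := by
  have h1 : (Pi.single y 1 : (Fin 2 → Fin N) → K) =
      vec N fun a b => if a = (y 0 : ℕ) ∧ b = (y 1 : ℕ) then 1 else 0 := by
    funext z
    change _ = if (z 0 : ℕ) = (y 0 : ℕ) ∧ (z 1 : ℕ) = (y 1 : ℕ) then (1 : K) else 0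
    by_cases h : z = y
    · rw [h, Pi.single_eq_same, if_pos ⟨rfl, rfl⟩]
    · rw [Pi.single_eq_of_ne h, if_neg]
      rintro ⟨h0, h1⟩
      apply h
      funext k
      have hk : k = 0 ∨ k = 1 := by omega
      rcases hk with rfl | rfl
      · exact Fin.ext h0
      · exact Fin.ext h1
  have h2 := congrFun (Matrix.mulVec_single_one
    ((fpow s (V s N) 2).F ^ i * (fpow s (V s N) 2).E ^ i) y) x
  rw [h1, ← Matrix.mulVec_mulVec, pow_E, pow_F] at h2
  exact h2.symm

/-- Pascal's rule. -/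
theorem pascal (h0 : s ≠ 0) (a c : ℤ) :
    qn s (a + c) = s ^ (-(2 * c)) * qn s a + s ^ (2 * a) * qn s c := by
  unfold qn
  rw [← mul_div_assoc, ← mul_div_assoc, ← add_div]
  congr 1
  rw [mul_sub, mul_sub, ← zpow_add₀ h0, ← zpow_add₀ h0, ← zpow_add₀ h0, ← zpow_add₀ h0]
  rw [show -(2 * c) + 2 * a = 2 * a - 2 * c by ring, show -(2 * c) + -(2 * a) = -(2 * (a + c)) by ring,
    show 2 * a + 2 * c = 2 * (a + c) by ring, show 2 * a + -(2 * c) = 2 * a - 2 * c by ring]
  ring

theorem qfac_succ (n : ℕ) : qfac s (n + 1) = qfac s n * qn s ((n : ℤ) + 1) := by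
  unfold qfac
  rw [Finset.prod_range_succ]

theorem qfac_zero : qfac s 0 = 1 := by simp [qfac]

/-- Powers of `E` on the first column. -/
theorem E_left (N : ℕ) (i : ℕ) (hi : i < N) :
    (EE s N)^[i] (fun a b => if a = 0 ∧ b = N - 1 then 1 else 0) =
      fun a b => if a = 0 ∧ b = N - 1 - i then qfac s i else 0 := by
  induction i with
  | zero => simp [qfac_zero]
  | succ i ih =>
    rw [Function.iterate_succ_apply', ih (by omega)]
    funext a b
    change _ * (if a + 1 = 0 ∧ b = N - 1 - i then qfac s i else 0) +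
      qn s ((N : ℤ) - (b + 1 : ℕ)) * (if a = 0 ∧ b + 1 = N - 1 - i then qfac s i else 0) =
      if a = 0 ∧ b = N - 1 - (i + 1) then qfac s (i + 1) else 0
    rw [if_neg (by omega), mul_zero, zero_add]
    by_cases h : a = 0 ∧ b = N - 1 - (i + 1)
    · rw [if_pos h, if_pos (by omega), qfac_succ, mul_comm]
      congr 2
      omega
    · rw [if_neg h, if_neg (by omega), mul_zero]

/-- Powers of `E` on the second column. -/
theorem E_right (h0 : s ≠ 0) (N : ℕ) (i : ℕ) (hi : i < N) :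
    (EE s N)^[i] (fun a b => if a = N - 1 ∧ b = 0 then 1 else 0) =
      fun a b => if a = N - 1 - i ∧ b = 0 then s ^ (2 * (((N : ℤ) - 1) * i)) * qfac s i else 0 := by
  induction i with
  | zero => simp [qfac_zero]
  | succ i ih =>
    rw [Function.iterate_succ_apply', ih (by omega)]
    funext a b
    change qn s ((N : ℤ) - (a + 1 : ℕ)) * s ^ (2 * ((N : ℤ) - 1 - 2 * b)) *
      (if a + 1 = N - 1 - i ∧ b = 0 then s ^ (2 * (((N : ℤ) - 1) * i)) * qfac s i else 0) +
      qn s ((N : ℤ) - (b + 1 : ℕ)) * (if a = N - 1 - i ∧ b + 1 = 0 then _ else 0) =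
      if a = N - 1 - (i + 1) ∧ b = 0 then
        s ^ (2 * (((N : ℤ) - 1) * (i + 1 : ℕ))) * qfac s (i + 1) else 0
    rw [if_neg (by omega : ¬ (a = N - 1 - i ∧ b + 1 = 0)), mul_zero, add_zero]
    by_cases h : a = N - 1 - (i + 1) ∧ b = 0
    · rw [if_pos h, if_pos (by omega), qfac_succ, h.2]
      have e1 : (N : ℤ) - (a + 1 : ℕ) = (i : ℤ) + 1 := by omega
      have e2 : s ^ (2 * (((N : ℤ) - 1) * (i + 1 : ℕ))) =
          s ^ (2 * ((N : ℤ) - 1 - 2 * (0 : ℕ))) * s ^ (2 * (((N : ℤ) - 1) * i)) := by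
        rw [← zpow_add₀ h0]
        congr 1
        push_cast
        ring
      rw [e1, e2]
      ring
    · rw [if_neg h, if_neg (by omega), mul_zero]

theorem qn_ne (hs : IT.Gen s) {n : ℤ} (hn : n ≠ 0) : qn s n ≠ 0 := by
  rw [qn_eq]
  exact div_ne_zero (br_ne hs hn) (br_ne hs one_ne_zero)

theorem qfac_ne (hs : IT.Gen s) (n : ℕ) : qfac s n ≠ 0 := by
  unfold qfac
  exact Finset.prod_ne_zero_iff.mpr fun i _ => qn_ne s hs (by omega)

/-- The powers of `F` on `e_0 ⊗ e_β`. -/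
def HL (N β k a b : ℕ) : K :=
  if a ≤ k ∧ a + b = β + k then
    s ^ (2 * (((k : ℤ) - a) * (a - (N : ℤ) + 1))) * (qfac s k / qfac s (k - a)) *
      (qfac s b / qfac s β) else 0

/-- The powers of `F` on `e_β ⊗ e_0`. -/
def HR (N β k a b : ℕ) : K :=
  if b ≤ k ∧ a + b = β + k then
    s ^ (2 * (((k : ℤ) - b) * b - b * ((N : ℤ) - 1 - 2 * β))) * (qfac s k / qfac s (k - b)) *
      (qfac s a / qfac s β) else 0

variable {s}

theorem HL_pos {N β k a b : ℕ} (h : a ≤ k ∧ a + b = β + k) : HL s N β k a b =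
    s ^ (2 * (((k : ℤ) - a) * (a - (N : ℤ) + 1))) * (qfac s k / qfac s (k - a)) *
      (qfac s b / qfac s β) := if_pos h

theorem HL_neg {N β k a b : ℕ} (h : ¬ (a ≤ k ∧ a + b = β + k)) : HL s N β k a b = 0 := if_neg h

theorem HR_pos {N β k a b : ℕ} (h : b ≤ k ∧ a + b = β + k) : HR s N β k a b =
    s ^ (2 * (((k : ℤ) - b) * b - b * ((N : ℤ) - 1 - 2 * β))) * (qfac s k / qfac s (k - b)) *
      (qfac s a / qfac s β) := if_pos h

theorem HR_neg {N β k a b : ℕ} (h : ¬ (b ≤ k ∧ a + b = β + k)) : HR s N β k a b = 0 := if_neg h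

theorem HL_succ (hs : IT.Gen s) (N β k a b : ℕ) :
    FF s N (HL s N β k) a b = HL s N β (k + 1) a b := by
  have h0 := hs.1
  unfold FF
  by_cases h : a ≤ k + 1 ∧ a + b = β + (k + 1)
  · rw [HL_pos h]
    obtain ⟨h1, h2⟩ := h
    rcases a with _ | a
    · obtain ⟨b, rfl⟩ : ∃ b', b = b' + 1 := ⟨b - 1, by omega⟩
      rw [Nat.cast_zero, qn_zero, zero_mul, zero_add, Nat.add_sub_cancel,
        HL_pos (by omega), Nat.sub_zero, Nat.sub_zero, div_self (qfac_ne s hs k),
        div_self (qfac_ne s hs (k + 1)), qfac_succ s b]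
      have e : s ^ (2 * ((((k + 1 : ℕ) : ℤ) - 0) * (0 - (N : ℤ) + 1))) =
          s ^ (-(2 * ((N : ℤ) - 1 - 2 * 0))) *
            s ^ (2 * (((k : ℤ) - (0 : ℕ)) * ((0 : ℕ) - (N : ℤ) + 1))) := by
        rw [← zpow_add₀ h0]
        congr 1
        push_cast
        ring
      rw [e]
      push_cast
      ring
    · rw [Nat.add_sub_cancel, HL_pos (by omega : a ≤ k ∧ a + b = β + k)]
      by_cases h3 : a = k
      · subst h3
        rw [HL_neg (by omega), mul_zero, add_zero, Nat.sub_self, Nat.sub_self, qfac_zero, div_one,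
          div_one, qfac_succ, sub_self, sub_self, zero_mul, zero_mul, mul_zero, zpow_zero]
        push_cast
        ring
      · obtain ⟨r, rfl⟩ : ∃ r, k = a + 1 + r := ⟨k - (a + 1), by omega⟩
        obtain ⟨b, rfl⟩ : ∃ b', b = b' + 1 := ⟨b - 1, by omega⟩
        rw [Nat.add_sub_cancel, HL_pos (by omega : a + 1 ≤ a + 1 + r ∧ a + 1 + b = β + (a + 1 + r)),
          show a + 1 + r - a = r + 1 by omega, show a + 1 + r - (a + 1) = r by omega,
          show a + 1 + r + 1 - (a + 1) = r + 1 by omega, qfac_succ s (a + 1 + r), qfac_succ s r,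
          qfac_succ s b]
        have e1 : s ^ (2 * ((((a + 1 + r : ℕ) : ℤ) - a) * (a - (N : ℤ) + 1))) =
            s ^ (2 * ((((a + 1 + r + 1 : ℕ) : ℤ) - (a + 1 : ℕ)) * ((a + 1 : ℕ) - (N : ℤ) + 1))) *
              s ^ (-(2 * ((r : ℤ) + 1))) := by
          rw [← zpow_add₀ h0]
          congr 1
          push_cast
          ring
        have e2 : s ^ (-(2 * ((N : ℤ) - 1 - 2 * (a + 1 : ℕ)))) *
            s ^ (2 * ((((a + 1 + r : ℕ) : ℤ) - (a + 1 : ℕ)) * ((a + 1 : ℕ) - (N : ℤ) + 1))) =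
            s ^ (2 * ((((a + 1 + r + 1 : ℕ) : ℤ) - (a + 1 : ℕ)) * ((a + 1 : ℕ) - (N : ℤ) + 1))) *
              s ^ (2 * ((a : ℤ) + 1)) := by
          rw [← zpow_add₀ h0, ← zpow_add₀ h0]
          congr 1
          push_cast
          ring
        have e3 := pascal s h0 ((a : ℤ) + 1) ((r : ℤ) + 1)
        have e4 : ((a + 1 + r : ℕ) : ℤ) + 1 = ((a : ℤ) + 1) + ((r : ℤ) + 1) := by
          push_cast
          ring
        have n1 := qfac_ne s hs r
        have n2 : qn s ((r : ℤ) + 1) ≠ 0 := qn_ne s hs (by omega)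
        have n3 := qfac_ne s hs β
        rw [e4, e3, e1]
        have e5 : ((a + 1 : ℕ) : ℤ) = (a : ℤ) + 1 := by push_cast; ring
        have e6 : ((b + 1 : ℕ) : ℤ) = (b : ℤ) + 1 := by push_cast; ring
        generalize s ^ (2 * ((((a + 1 + r + 1 : ℕ) : ℤ) - (a + 1 : ℕ)) *
          ((a + 1 : ℕ) - (N : ℤ) + 1))) = Z at e2 ⊢
        generalize s ^ (-(2 * ((r : ℤ) + 1))) = z1 at e2 ⊢
        generalize s ^ (2 * ((a : ℤ) + 1)) = z2 at e2 ⊢
        rw [e6, show ∀ u v w x y z t : K, u * v * (w * (x / y) * (z / t)) =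
          (u * w) * v * (x / y) * (z / t) from fun u v w x y z t => by ring, e2, e5]
        field_simp
  · rw [HL_neg h]
    have e1 : qn s (a : ℤ) * HL s N β k (a - 1) b = 0 := by
      rcases a with _ | a
      · rw [Nat.cast_zero, qn_zero, zero_mul]
      · rw [HL_neg (by omega), mul_zero]
    have e2 : qn s (b : ℤ) * HL s N β k a (b - 1) = 0 := by
      rcases b with _ | b
      · rw [Nat.cast_zero, qn_zero, zero_mul]
      · rw [HL_neg (by omega), mul_zero]
    rw [e1, mul_assoc, e2, mul_zero, add_zero]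

theorem HR_succ (hs : IT.Gen s) (N β k a b : ℕ) :
    FF s N (HR s N β k) a b = HR s N β (k + 1) a b := by
  have h0 := hs.1
  unfold FF
  by_cases h : b ≤ k + 1 ∧ a + b = β + (k + 1)
  · rw [HR_pos h]
    obtain ⟨h1, h2⟩ := h
    rcases b with _ | b
    · obtain ⟨a, rfl⟩ : ∃ a', a = a' + 1 := ⟨a - 1, by omega⟩
      rw [Nat.cast_zero, qn_zero, mul_zero, zero_mul, add_zero, Nat.add_sub_cancel,
        HR_pos (by omega), Nat.sub_zero, Nat.sub_zero, div_self (qfac_ne s hs k),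
        div_self (qfac_ne s hs (k + 1)), qfac_succ s a]
      have e : s ^ (2 * ((((k + 1 : ℕ) : ℤ) - 0) * 0 - 0 * ((N : ℤ) - 1 - 2 * β))) = 1 := by
        rw [show 2 * ((((k + 1 : ℕ) : ℤ) - 0) * 0 - 0 * ((N : ℤ) - 1 - 2 * β)) = 0 by ring,
          zpow_zero]
      have e' : s ^ (2 * (((k : ℤ) - (0 : ℕ)) * (0 : ℕ) - (0 : ℕ) * ((N : ℤ) - 1 - 2 * β))) = 1 := by
        rw [show 2 * (((k : ℤ) - (0 : ℕ)) * (0 : ℕ) - (0 : ℕ) * ((N : ℤ) - 1 - 2 * β)) = 0 by
          push_cast; ring, zpow_zero]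
      rw [e, e']
      push_cast
      ring
    · rw [Nat.add_sub_cancel, HR_pos (by omega : b ≤ k ∧ a + b = β + k)]
      by_cases h3 : b = k
      · subst h3
        rw [HR_neg (by omega), mul_zero, zero_add, Nat.sub_self, Nat.sub_self, qfac_zero, div_one,
          div_one, qfac_succ, sub_self, sub_self, zero_mul, zero_mul]
        have ha : a = β := by omega
        subst ha
        have e : s ^ (-(2 * ((N : ℤ) - 1 - 2 * a))) *
            s ^ (2 * (0 - b * ((N : ℤ) - 1 - 2 * a))) =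
            s ^ (2 * (0 - ((b + 1 : ℕ) : ℤ) * ((N : ℤ) - 1 - 2 * a))) := by
          rw [← zpow_add₀ h0]
          congr 1
          push_cast
          ring
        rw [← e]
        push_cast
        ring
      · obtain ⟨r, rfl⟩ : ∃ r, k = b + 1 + r := ⟨k - (b + 1), by omega⟩
        obtain ⟨a, rfl⟩ : ∃ a', a = a' + 1 := ⟨a - 1, by omega⟩
        rw [Nat.add_sub_cancel, HR_pos (by omega : b + 1 ≤ b + 1 + r ∧ a + (b + 1) = β + (b + 1 + r)),
          show b + 1 + r - b = r + 1 by omega, show b + 1 + r - (b + 1) = r by omega,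
          show b + 1 + r + 1 - (b + 1) = r + 1 by omega, qfac_succ s (b + 1 + r), qfac_succ s r,
          qfac_succ s a]
        have ha : (a : ℤ) = β + r := by omega
        have e1 : s ^ (2 * ((((b + 1 + r : ℕ) : ℤ) - (b + 1 : ℕ)) * (b + 1 : ℕ) -
            (b + 1 : ℕ) * ((N : ℤ) - 1 - 2 * β))) =
            s ^ (2 * ((((b + 1 + r + 1 : ℕ) : ℤ) - (b + 1 : ℕ)) * (b + 1 : ℕ) -
            (b + 1 : ℕ) * ((N : ℤ) - 1 - 2 * β))) *
              s ^ (-(2 * ((b : ℤ) + 1))) := by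
          rw [← zpow_add₀ h0]
          congr 1
          push_cast
          ring
        have e2 : s ^ (-(2 * ((N : ℤ) - 1 - 2 * (a + 1 : ℕ)))) *
            s ^ (2 * ((((b + 1 + r : ℕ) : ℤ) - b) * b - b * ((N : ℤ) - 1 - 2 * β))) =
            s ^ (2 * ((((b + 1 + r + 1 : ℕ) : ℤ) - (b + 1 : ℕ)) * (b + 1 : ℕ) -
            (b + 1 : ℕ) * ((N : ℤ) - 1 - 2 * β))) *
              s ^ (2 * ((r : ℤ) + 1)) := by
          rw [← zpow_add₀ h0, ← zpow_add₀ h0]
          congr 1
          push_cast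
          rw [ha]
          ring
        have e3 := pascal s h0 ((r : ℤ) + 1) ((b : ℤ) + 1)
        have e4 : ((b + 1 + r : ℕ) : ℤ) + 1 = ((r : ℤ) + 1) + ((b : ℤ) + 1) := by
          push_cast
          ring
        have n1 := qfac_ne s hs r
        have n2 : qn s ((r : ℤ) + 1) ≠ 0 := qn_ne s hs (by omega)
        have n3 := qfac_ne s hs β
        rw [e4, e3, e1]
        have e5 : ((a + 1 : ℕ) : ℤ) = (a : ℤ) + 1 := by push_cast; ring
        have e6 : ((b + 1 : ℕ) : ℤ) = (b : ℤ) + 1 := by push_cast; ring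
        generalize s ^ (2 * ((((b + 1 + r + 1 : ℕ) : ℤ) - (b + 1 : ℕ)) * (b + 1 : ℕ) -
            (b + 1 : ℕ) * ((N : ℤ) - 1 - 2 * β))) = Z at e2 ⊢
        generalize s ^ (-(2 * ((b : ℤ) + 1))) = z1 at e2 ⊢
        generalize s ^ (2 * ((r : ℤ) + 1)) = z2 at e2 ⊢
        rw [e6, show ∀ u v w x y z t : K, u * v * (w * (x / y) * (z / t)) =
          (u * w) * v * (x / y) * (z / t) from fun u v w x y z t => by ring, e2, e5]
        field_simp
  · rw [HR_neg h]
    have e1 : qn s (a : ℤ) * HR s N β k (a - 1) b = 0 := by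
      rcases a with _ | a
      · rw [Nat.cast_zero, qn_zero, zero_mul]
      · rw [HR_neg (by omega), mul_zero]
    have e2 : qn s (b : ℤ) * HR s N β k a (b - 1) = 0 := by
      rcases b with _ | b
      · rw [Nat.cast_zero, qn_zero, zero_mul]
      · rw [HR_neg (by omega), mul_zero]
    rw [e1, mul_assoc, e2, mul_zero, add_zero]

theorem FF_smul (N : ℕ) (c : K) (g : ℕ → ℕ → K) :
    FF s N (fun a b => c * g a b) = fun a b => c * FF s N g a b := by
  funext a b
  unfold FF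
  ring

theorem FL (hs : IT.Gen s) (N β k : ℕ) (c : K) :
    (FF s N)^[k] (fun a b => if a = 0 ∧ b = β then c else 0) = fun a b => c * HL s N β k a b := by
  induction k with
  | zero =>
    funext a b
    change (if a = 0 ∧ b = β then c else 0) = _
    by_cases h : a = 0 ∧ b = β
    · rw [if_pos h, HL_pos (by omega), h.1, h.2, div_self (qfac_ne s hs β), div_self
        (qfac_ne s hs 0)]
      simp
    · rw [if_neg h, HL_neg (by omega), mul_zero]
  | succ k ih =>
    rw [Function.iterate_succ_apply', ih, FF_smul]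
    funext a b
    rw [HL_succ hs]

theorem FR (hs : IT.Gen s) (N β k : ℕ) (c : K) :
    (FF s N)^[k] (fun a b => if a = β ∧ b = 0 then c else 0) = fun a b => c * HR s N β k a b := by
  induction k with
  | zero =>
    funext a b
    change (if a = β ∧ b = 0 then c else 0) = _
    by_cases h : a = β ∧ b = 0
    · rw [if_pos h, HR_pos (by omega), h.1, h.2, div_self (qfac_ne s hs β), div_self
        (qfac_ne s hs 0)]
      simp
    · rw [if_neg h, HR_neg (by omega), mul_zero]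
  | succ k ih =>
    rw [Function.iterate_succ_apply', ih, FF_smul]
    funext a b
    rw [HR_succ hs]

end Fld

end FEN

theorem t_FEN : FEN_Stmt := by
  intro K _ s hs N hN x y hx i hi
  refine ⟨fun h0 h1 => ?_, fun h0 h1 => ?_⟩
  · have h1' : (y 1 : ℕ) = N - 1 := by omega
    rw [FEN.entry, h0, h1', FEN.E_left s N i hi, FEN.FL hs]
    beta_reduce
    by_cases h : (x 0 : ℕ) ≤ i
    · rw [if_pos h, FEN.HL_pos ⟨h, by omega⟩]
      ring
    · rw [if_neg h, FEN.HL_neg (fun h' => h h'.1), mul_zero]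
  · have h0' : (y 0 : ℕ) = N - 1 := by omega
    rw [FEN.entry, h0', h1, FEN.E_right s hs.1 N i hi, FEN.FR hs]
    beta_reduce
    by_cases h : (x 1 : ℕ) ≤ i
    · rw [if_pos h, FEN.HR_pos ⟨h, by omega⟩]
      have e : s ^ (2 * (((N : ℤ) - 1) * i + ((i : ℤ) - (x 1 : ℕ)) * (x 1 : ℕ) -
          (x 1 : ℕ) * (2 * (i : ℤ) - N + 1))) = s ^ (2 * (((N : ℤ) - 1) * i)) *
          s ^ (2 * (((i : ℤ) - (x 1 : ℕ)) * (x 1 : ℕ) -
            (x 1 : ℕ) * ((N : ℤ) - 1 - 2 * (N - 1 - i : ℕ)))) := by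
        rw [← zpow_add₀ hs.1]
        congr 1
        have h2 : ((N - 1 - i : ℕ) : ℤ) = (N : ℤ) - 1 - i := by omega
        rw [h2]
        ring
      rw [e]
      ring
    · rw [if_neg h, FEN.HR_neg (fun h' => h h'.1), mul_zero]

end Pool.Agent.WD2
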