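import Pool.Agent.WD2.StE

/-!
# WD2, module GBT (helper62): the Gaussian binomial theorem
-/

namespace Pool.Agent.WD2

open Pool.Agent.LibH11 Pool.Agent.IT Pool.Agent.GK Pool.Agent.TwoBr Pool.Agent.WD
open scoped BigOperators

namespace GBTX

variable {K : Type} [Field K] {s : K}

/-- `{a + b} = s^(-2 a) {b} + s^(2 b) {a}` -/
lemma br_add (h0 : s ≠ 0) (a b : ℤ) :
    br s (a + b) = s ^ (-(2 * a)) * br s b + s ^ (2 * b) * br s a := by
  unfold br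
  rw [mul_sub, mul_sub, ← zpow_add₀ h0, ← zpow_add₀ h0, ← zpow_add₀ h0, ← zpow_add₀ h0]
  have e1 : 2 * (a + b) = 2 * b + 2 * a := by ring
  have e2 : -(2 * (a + b)) = -(2 * a) + -(2 * b) := by ring
  have e3 : -(2 * a) + 2 * b = 2 * b + -(2 * a) := by ring
  rw [e2, e1, e3]
  ring

/-- the term number `m` -/
noncomputable def tm (s : K) (i : ℕ) (x : K) (m : ℕ) : K :=
  s ^ (2 * ((m : ℤ) * ((i : ℤ) - 1))) * (bf s i / (bf s m * bf s (i - m))) * x ^ m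

lemma tm_zero (hs : IT.Gen s) (i : ℕ) (x : K) : tm s i x 0 = 1 := by
  unfold tm
  have h := bf_ne hs i
  rw [bf_zero, Nat.sub_zero, one_mul, div_self h]
  simp

lemma tm_last (hs : IT.Gen s) (i : ℕ) (x : K) :
    tm s (i + 1) x (i + 1) = tm s i x i * (x * s ^ (4 * (i : ℤ))) := by
  unfold tm
  have h := bf_ne hs i
  have h' := bf_ne hs (i + 1)
  rw [Nat.sub_self, Nat.sub_self, bf_zero, mul_one, mul_one, div_self h, div_self h', mul_one,
    mul_one]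
  have e : 2 * (((i + 1 : ℕ) : ℤ) * (((i + 1 : ℕ) : ℤ) - 1)) =
      2 * ((i : ℤ) * ((i : ℤ) - 1)) + 4 * (i : ℤ) := by
    push_cast
    ring
  rw [e, zpow_add₀ hs.1]
  ring

lemma tm_step (hs : IT.Gen s) (i : ℕ) (x : K) (m : ℕ) (hm : m < i) :
    tm s (i + 1) x (m + 1) = tm s i x (m + 1) + tm s i x m * (x * s ^ (4 * (i : ℤ))) := by
  obtain ⟨r, rfl⟩ : ∃ r, i = m + r + 1 := ⟨i - (m + 1), by omega⟩
  unfold tm
  have e1 : m + r + 1 + 1 - (m + 1) = r + 1 := by omega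
  have e2 : m + r + 1 - (m + 1) = r := by omega
  have e3 : m + r + 1 - m = r + 1 := by omega
  rw [e1, e2, e3]
  have hbm := bf_ne hs m
  have hbr := bf_ne hs r
  have h1 : br s ((m : ℤ) + 1) ≠ 0 := br_ne hs (by omega)
  have h2 : br s ((r : ℤ) + 1) ≠ 0 := br_ne hs (by omega)
  obtain ⟨A, hA⟩ : ∃ A, A = bf s (m + r + 1) /
      (bf s m * bf s r * br s ((m : ℤ) + 1) * br s ((r : ℤ) + 1)) := ⟨_, rfl⟩
  have f1 : bf s (m + r + 1 + 1) / (bf s (m + 1) * bf s (r + 1)) =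
      A * br s ((m : ℤ) + 1 + ((r : ℤ) + 1)) := by
    rw [hA, bf_succ (m + r + 1), bf_succ m, bf_succ r]
    have e4 : (((m + r + 1 : ℕ) : ℤ) + 1) = (m : ℤ) + 1 + ((r : ℤ) + 1) := by
      push_cast
      ring
    rw [e4]
    field_simp
  have f2 : bf s (m + r + 1) / (bf s (m + 1) * bf s r) = A * br s ((r : ℤ) + 1) := by
    rw [hA, bf_succ m]
    field_simp
  have f3 : bf s (m + r + 1) / (bf s m * bf s (r + 1)) = A * br s ((m : ℤ) + 1) := by
    rw [hA, bf_succ r]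
    field_simp
  rw [f1, f2, f3, br_add hs.1]
  have g1 : s ^ (2 * (((m + 1 : ℕ) : ℤ) * (((m + r + 1 + 1 : ℕ) : ℤ) - 1))) *
      s ^ (-(2 * ((m : ℤ) + 1))) =
      s ^ (2 * (((m + 1 : ℕ) : ℤ) * (((m + r + 1 : ℕ) : ℤ) - 1))) := by
    rw [← zpow_add₀ hs.1]
    congr 1
    push_cast
    ring
  have g2 : s ^ (2 * (((m + 1 : ℕ) : ℤ) * (((m + r + 1 + 1 : ℕ) : ℤ) - 1))) *
      s ^ (2 * ((r : ℤ) + 1)) =
      s ^ (2 * ((m : ℤ) * (((m + r + 1 : ℕ) : ℤ) - 1))) * s ^ (4 * ((m + r + 1 : ℕ) : ℤ)) := by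
    rw [← zpow_add₀ hs.1, ← zpow_add₀ hs.1]
    congr 1
    push_cast
    ring
  calc s ^ (2 * (((m + 1 : ℕ) : ℤ) * (((m + r + 1 + 1 : ℕ) : ℤ) - 1))) *
        (A * (s ^ (-(2 * ((m : ℤ) + 1))) * br s ((r : ℤ) + 1) +
          s ^ (2 * ((r : ℤ) + 1)) * br s ((m : ℤ) + 1))) * x ^ (m + 1)
      = (s ^ (2 * (((m + 1 : ℕ) : ℤ) * (((m + r + 1 + 1 : ℕ) : ℤ) - 1))) *
          s ^ (-(2 * ((m : ℤ) + 1)))) * (A * br s ((r : ℤ) + 1)) * x ^ (m + 1) +
        (s ^ (2 * (((m + 1 : ℕ) : ℤ) * (((m + r + 1 + 1 : ℕ) : ℤ) - 1))) *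
          s ^ (2 * ((r : ℤ) + 1))) * (A * br s ((m : ℤ) + 1)) * x ^ (m + 1) := by ring
    _ = _ := by
        rw [g1, g2]
        ring

end GBTX

open GBTX in
theorem t_GBT : GBT_Stmt := by
  intro K _ s hs i x
  change _ = ∑ m ∈ Finset.range (i + 1), tm s i x m
  induction i with
  | zero =>
    rw [Finset.prod_range_zero, Finset.sum_range_one, tm_zero hs]
  | succ i ih =>
    rw [Finset.prod_range_succ, ih, Finset.sum_range_succ (fun m => tm s (i + 1) x m) (i + 1),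
      Finset.sum_range_succ' (fun m => tm s (i + 1) x m) i, tm_zero hs, tm_last hs]
    have h1 : ∑ m ∈ Finset.range i, tm s (i + 1) x (m + 1) =
        ∑ m ∈ Finset.range i, (tm s i x (m + 1) + tm s i x m * (x * s ^ (4 * (i : ℤ)))) :=
      Finset.sum_congr rfl fun m hm => tm_step hs i x m (Finset.mem_range.1 hm)
    rw [h1, Finset.sum_add_distrib, ← Finset.sum_mul, mul_add, mul_one]
    nth_rewrite 1 [Finset.sum_range_succ' (fun m => tm s i x m) i]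
    rw [Finset.sum_range_succ (fun m => tm s i x m) i, tm_zero hs]
    ring

end Pool.Agent.WD2
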