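import Pool.Agent.WD2.StF

/-!
# Graph knots with the same coloured Jones polynomials of odd dimension
-/

set_option autoImplicit false

namespace Pool.Agent.WD2

open Pool.Agent.LibH11 Pool.Agent.IT Pool.Agent.GK Pool.Agent.TwoBr Pool.Agent.WD
open Pool.Agent.LibH11.Sliced (Diag Kind cnt IsLongKnot ofDiag braidWord)
open scoped BigOperators
open PowerSeries

namespace GGO

theorem ne : (E 1 - E (-1) : ℚ⟦X⟧) ≠ 0 := by
  intro h
  have h1 := congrArg (coeff 1) h
  simp [E] at h1

end GGO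

theorem t_GGO (hGKO : GKO_Stmt) : GGO_Stmt := by
  intro M cb v JS hO hV hJ n n' w w' h h' hl hl' hB hB' hG hG' hN
  refine hGKO M cb v hO hV _ _ hG hG' fun N hodd => ?_
  have hN1 : 1 ≤ N := hodd.pos
  have h1 := hJ.br N hN1 n w h hl hB
  have h2 := hJ.br N hN1 n' w' h' hl' hB'
  rw [hN N hodd, h2] at h1
  exact (mul_left_cancel₀ GGO.ne h1).symm

end Pool.Agent.WD2
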