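import Pool.Agent.WD2.StE

/-!
# Iterated doubles: the coefficients of the clasp
-/

set_option autoImplicit false

namespace Pool.Agent.WD2

open Pool.Agent.LibH11 Pool.Agent.IT Pool.Agent.GK Pool.Agent.TwoBr Pool.Agent.WD
open scoped BigOperators

namespace GMF

variable {K : Type} [Field K] (s : K) (N : ℕ)

theorem wt_val (x : Fin 2 → Fin N) :
    (fpow s (V s N) 2).wt x = 2 * ((N : ℤ) - 1 - ((x 0 : ℕ) : ℤ) - ((x 1 : ℕ) : ℤ)) := by
  change ∑ i, (V s N).wt (x i) = _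
  rw [Fin.sum_univ_two]
  change ((N : ℤ) - 1 - 2 * ((x 0 : ℕ) : ℤ)) + ((N : ℤ) - 1 - 2 * ((x 1 : ℕ) : ℤ)) = _
  ring

theorem card_wt (j : ℕ) (hj : j ≤ N) :
    (Finset.univ.filter fun x : Fin 2 → Fin N =>
      (fpow s (V s N) 2).wt x = 2 * (j : ℤ)).card = N - j := by
  rw [← Finset.card_range (N - j)]
  refine Finset.card_bij (fun x _ => (x 0 : ℕ)) ?_ ?_ ?_
  · intro x hx
    have h := (Finset.mem_filter.mp hx).2
    rw [wt_val] at h
    rw [Finset.mem_range]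
    omega
  · intro x hx x' hx' h
    have h1 := (Finset.mem_filter.mp hx).2
    have h2 := (Finset.mem_filter.mp hx').2
    rw [wt_val] at h1 h2
    change (x 0 : ℕ) = (x' 0 : ℕ) at h
    funext i
    apply Fin.ext
    have hi : i = 0 ∨ i = 1 := by omega
    rcases hi with rfl | rfl
    · exact h
    · omega
  · intro b hb
    rw [Finset.mem_range] at hb
    refine ⟨fun i => if i = 0 then ⟨b, by omega⟩ else ⟨N - 1 - j - b, by omega⟩, ?_, rfl⟩
    rw [Finset.mem_filter, wt_val]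
    refine ⟨Finset.mem_univ _, ?_⟩
    change 2 * ((N : ℤ) - 1 - (b : ℤ) - ((N - 1 - j - b : ℕ) : ℤ)) = 2 * (j : ℤ)
    omega

theorem wtr_one (j : ℕ) (hj : j ≤ N) :
    wtr (fpow s (V s N) 2) (2 * (j : ℤ)) (1 : Matrix (Fin 2 → Fin N) (Fin 2 → Fin N) K) =
      ((N - j : ℕ) : K) := by
  unfold wtr
  rw [Finset.sum_congr rfl fun i _ => Matrix.one_apply_eq i, Finset.sum_const, nsmul_eq_mul,
    mul_one, card_wt s N j hj]

theorem wtr_diff (j : ℕ) (hj : j < N) :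
    wtr (fpow s (V s N) 2) (2 * (j : ℤ)) (1 : Matrix (Fin 2 → Fin N) (Fin 2 → Fin N) K) -
      wtr (fpow s (V s N) 2) (2 * (j : ℤ) + 2) (1 : Matrix (Fin 2 → Fin N) (Fin 2 → Fin N) K) =
      1 := by
  have h : 2 * (j : ℤ) + 2 = 2 * ((j + 1 : ℕ) : ℤ) := by push_cast; ring
  rw [h, wtr_one s N j hj.le, wtr_one s N (j + 1) hj]
  have h2 : N - j = (N - (j + 1)) + 1 := by omega
  rw [h2, Nat.cast_succ]
  ring

theorem mor_one (M : WM K (Fin 2 → Fin N)) :
    Mor M M (1 : Matrix (Fin 2 → Fin N) (Fin 2 → Fin N) K) := by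
  refine ⟨?_, ?_, ?_⟩
  · intro b a h
    by_contra hne
    exact h (Matrix.one_apply_ne fun hab => hne (by rw [hab]))
  · rw [Matrix.one_mul, Matrix.mul_one]
  · rw [Matrix.one_mul, Matrix.mul_one]

end GMF

open GMF in
theorem t_GMF (hENT : ENT_Stmt) (hBIV : BIV_Stmt) (hCND : CND_Stmt) (hUNQ : UNQ_Stmt)
    (hCLM : CLM_Stmt) : GMF_Stmt := by
  intro K _ s hs N hN e j hj
  obtain ⟨x, hx0, hx1⟩ : ∃ x : Fin 2 → Fin N, (x 0 : ℕ) = (if e then N - 1 else 0) ∧
      (x 1 : ℕ) = (if e then 0 else N - 1) := by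
    cases e with
    | true => exact ⟨fun i => if i = 0 then ⟨N - 1, by omega⟩ else ⟨0, hN⟩, rfl, rfl⟩
    | false => exact ⟨fun i => if i = 0 then ⟨0, hN⟩ else ⟨N - 1, by omega⟩, rfl, rfl⟩
  obtain ⟨y, hy0, hy1⟩ : ∃ y : Fin 2 → Fin N, (y 0 : ℕ) = (if e then 0 else N - 1) ∧
      (y 1 : ℕ) = (if e then N - 1 else 0) := by
    cases e with
    | true => exact ⟨fun i => if i = 0 then ⟨0, hN⟩ else ⟨N - 1, by omega⟩, rfl, rfl⟩
    | false => exact ⟨fun i => if i = 0 then ⟨N - 1, by omega⟩ else ⟨0, hN⟩, rfl, rfl⟩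
  have hx : (x 0 : ℕ) + x 1 + 1 = N := by
    rw [hx0, hx1]
    split_ifs <;> omega
  have hy : (y 0 : ℕ) + y 1 + 1 = N := by
    rw [hy0, hy1]
    split_ifs <;> omega
  obtain ⟨ρ, hρ⟩ := hENT K s hs N hN x y hx hy
  obtain ⟨cd, hcd⟩ : ∃ cd : ℕ → K, cd = fun j => (-1) ^ (N - 1 + j) * br s (2 * j + 1) *
      bf s (N - 1) ^ 2 / (bf s (N - 1 - j) * bf s (N + j)) := ⟨_, rfl⟩
  obtain ⟨G, hG⟩ : ∃ G : ℕ → K, G = fun j => (-1) ^ (N - 1 + j) *
      s ^ (-(sg e * (2 * ((N : ℤ) ^ 2 - 1)))) *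
      ∑ m ∈ Finset.Ico j N, ((sg e : ℤ) : K) ^ m * s ^ (sg e * ((m : ℤ) * (m + 3))) *
        (bf s m * bf s (N + m) / (bf s (m - j) * bf s (m + j + 1) * bf s (N - 1 - m))) := ⟨_, rfl⟩
  have h1 : ∀ i < N, ∑ j ∈ Finset.range N, pp s i j * ρ j =
      if i + 1 = N then bf s (N - 1) ^ 2 else 0 := by
    intro i hi
    have ha := hρ 1 (mor_one N _) i
    rw [Matrix.one_mul, (hBIV K s hs N hN e x y hx0 hx1 hy0 hy1 i hi).2] at ha
    rw [ha]
    refine Finset.sum_congr rfl fun j hj => ?_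
    rw [wtr_diff s N j (Finset.mem_range.mp hj)]
    ring
  have h2 : ∀ i < N, ∑ j ∈ Finset.range N, pp s i j * (ρ j * gam s N e j) =
      ((sg e : ℤ) : K) ^ i * bf s i * (bf s (N - 1) / bf s (N - 1 - i)) ^ 2 *
        s ^ (sg e * (2 * ((N : ℤ) - 1) ^ 2 - 4 * i * ((N : ℤ) - 1) + i * ((i : ℤ) - 1))) := by
    intro i hi
    have ha := hρ (clasp (MV s N) e) (hCLM K s hs N hN e) i
    rw [(hBIV K s hs N hN e x y hx0 hx1 hy0 hy1 i hi).1] at ha
    rw [ha]
    refine Finset.sum_congr rfl fun j _ => ?_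
    rw [gam]
    ring
  have h3 : ∀ j < N, ρ j = cd j := by
    intro j hj
    have := hUNQ K s hs N (fun j => ρ j - cd j) (fun i hi => by
      have hc := (hCND K s hs N hN i hi).1
      have h1i := h1 i hi
      rw [← hc] at h1i
      have : ∑ j ∈ Finset.range N, pp s i j * (ρ j - cd j) =
          ∑ j ∈ Finset.range N, pp s i j * ρ j - ∑ j ∈ Finset.range N, pp s i j * cd j := by
        rw [← Finset.sum_sub_distrib]
        exact Finset.sum_congr rfl fun j _ => by ring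
      rw [this, h1i, hcd, sub_self]) j hj
    exact sub_eq_zero.mp this
  have h4 : ∀ j < N, ρ j * gam s N e j = cd j * G j := by
    intro j hj
    have := hUNQ K s hs N (fun j => ρ j * gam s N e j - cd j * G j) (fun i hi => by
      have hc := (hCND K s hs N hN i hi).2 e
      have h2i := h2 i hi
      rw [← hc] at h2i
      have : ∑ j ∈ Finset.range N, pp s i j * (ρ j * gam s N e j - cd j * G j) =
          ∑ j ∈ Finset.range N, pp s i j * (ρ j * gam s N e j) -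
            ∑ j ∈ Finset.range N, pp s i j * (cd j * G j) := by
        rw [← Finset.sum_sub_distrib]
        exact Finset.sum_congr rfl fun j _ => by ring
      rw [this, h2i, hcd, hG, sub_self]) j hj
    exact sub_eq_zero.mp this
  have hne : cd j ≠ 0 := by
    rw [hcd]
    refine div_ne_zero (mul_ne_zero (mul_ne_zero ?_ (br_ne hs (by omega)))
      (pow_ne_zero _ (bf_ne hs _))) (mul_ne_zero (bf_ne hs _) (bf_ne hs _))
    exact pow_ne_zero _ (neg_ne_zero.mpr one_ne_zero)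
  have h5 := h4 j hj
  rw [h3 j hj] at h5
  have h6 := mul_left_cancel₀ hne h5
  rw [h6, hG]

end Pool.Agent.WD2
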