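import Pool.Agent.WD2.StF

/-!
# GRI: the coloured Jones polynomials of graph knots
-/

set_option autoImplicit false

namespace Pool.Agent.WD2

open Pool.Agent.LibH11 Pool.Agent.IT Pool.Agent.GK Pool.Agent.TwoBr Pool.Agent.WD
open Pool.Agent.LibH11.Sliced (Diag Kind cnt IsLongKnot ofDiag braidWord)
open scoped BigOperators
open PowerSeries

namespace GRI

theorem perm_tref (e : Bool) : LibH11.perm (ev 1 [(0, e), (0, e), (0, e)]) =
    Equiv.swap (0 : Fin 2) 1 := by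
  have h1 : LibH11.perm (LibH11.sg (0 : Fin 1)) = Equiv.swap (0 : Fin 2) 1 := by
    unfold LibH11.perm
    rw [liftBr_sg]
    rfl
  have h2 : ev 1 [(0, e), (0, e), (0, e)] =
      gen 1 (0, e) * (gen 1 (0, e) * gen 1 (0, e)) := by
    simp [ev]
  have h3 : LibH11.perm (gen 1 (0, e)) = Equiv.swap (0 : Fin 2) 1 := by
    cases e
    · have : gen 1 (0, false) = (LibH11.sg (0 : Fin 1))⁻¹ := rfl
      rw [this, map_inv, h1, Equiv.swap_inv]
    · have : gen 1 (0, true) = LibH11.sg (0 : Fin 1) := rfl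
      rw [this, h1]
  rw [h2, map_mul, map_mul, h3, Equiv.swap_mul_self, mul_one]

theorem isKnot_tref (e : Bool) : LibH11.IsKnot (ev 1 [(0, e), (0, e), (0, e)]) := by
  intro x y
  rw [perm_tref]
  have h : ∀ x y : Fin 2, (Equiv.swap (0 : Fin 2) 1).SameCycle x y := by
    intro x y
    by_cases hxy : x = y
    · exact ⟨0, by simp [hxy]⟩
    · refine ⟨1, ?_⟩
      rw [zpow_one]
      revert hxy
      revert x y
      decide
  exact h x y

theorem cab_tref (e : Bool) : cab 2 (if e then 3 else -3) [] = [(0, e), (0, e), (0, e)] := by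
  cases e <;> rfl

theorem cb_tref {M : CommMonoid Knot} {cb : ℕ → ℤ → Knot → Knot} (hO : Ops M cb) (e : Bool) :
    cb 2 (if e then 3 else -3) unknot =
      closure (ev 1 [(0, e), (0, e), (0, e)]) (isKnot_tref e) := by
  have h := hO.cab 0 [] (isKnot_zero 1) 2 (if e then 3 else -3)
    (by rw [cab_tref]; exact isKnot_tref e) (by intro x hx; simp at hx) (by norm_num)
    (by cases e <;> rfl)
  have h1 : closure (ev 0 []) (isKnot_zero 1) = unknot := rfl
  rw [h1] at h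
  rw [h]
  congr 1
  rw [cab_tref]

theorem E_sub_ne {N : ℕ} (hN : 1 ≤ N) : E (N : ℚ) - E (-(N : ℚ)) ≠ 0 := by
  rw [← X_mul_b1]
  refine mul_ne_zero X_ne_zero ?_
  intro h
  have h1 := constantCoeff_b1 (N : ℚ)
  rw [h, map_zero] at h1
  have h2 : (N : ℚ) ≠ 0 := by exact_mod_cast (by omega : N ≠ 0)
  exact h2 (by linarith)

theorem dvd5 (f : ℚ⟦X⟧) (p q r : ℚ) (h0 : coeff 0 f = 1) (h1 : coeff 1 f = 0)
    (h2 : coeff 2 f = p) (h3 : coeff 3 f = q) (h4 : coeff 4 f = r) :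
    X ^ (2 + 3) ∣ f - (1 + C p * X ^ 2 + C q * X ^ (2 + 1) + C r * X ^ (2 + 2)) := by
  rw [X_pow_dvd_iff]
  intro m hm
  have hm' : m < 5 := hm
  rw [map_sub, map_add, map_add, map_add, coeff_C_mul_X_pow, coeff_C_mul_X_pow,
    coeff_C_mul_X_pow, coeff_one]
  interval_cases m
  · rw [h0]; norm_num
  · rw [h1]; norm_num
  · rw [h2]; norm_num
  · rw [h3]; norm_num
  · rw [h4]; norm_num

/-- the leading terms from the first coefficients -/
theorem lde {J : ℕ → ℚ⟦X⟧} {a b α β : ℚ} (h : ∀ N : ℕ, 1 ≤ N → Ex3 a b N (J N) ∧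
    coeff 4 (J N) = ((N : ℚ) ^ 2 - 1) * (α * (N : ℚ) ^ 2 + β)) : LdE 2 a b α β J := by
  intro N hN
  obtain ⟨⟨h0, h1, h2, h3⟩, h4⟩ := h N hN
  exact dvd5 _ _ _ _ h0 h1 h2 h3 h4

end GRI

/-- GRI: the coloured Jones polynomials of graph knots. -/
theorem t_GRI (hGAB : GAB_Stmt) (hEXP : EXP4_Stmt) (hPLG : PLG_Stmt) : GRI_Stmt := by
  intro M cb v JS hO hV hJ n w h hl bd gr
  obtain ⟨G, A, B', hG, hA, hQ⟩ := hGAB M cb v hO hV _ gr
  have hbr : ∀ N : ℕ, 1 ≤ N →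
      (E N - E (-N)) * (fun N => JS N (ofDiag (cl n w) hl)) N = evB N G := fun N hN => by
    show (E N - E (-N)) * JS N (ofDiag (cl n w) hl) = evB N G
    rw [hJ.br N hN n w h hl bd, ← hG.2 N]
  refine ⟨hPLG G _ hA.odd hbr, ?_⟩
  obtain ⟨b, β, hx⟩ := hEXP G A B' (fun N => JS N (ofDiag (cl n w) hl)) (by
      have h1 := hG.2 1
      rw [hV.one, mul_one, Nat.cast_one] at h1
      exact h1) hA hbr
  have hL := GRI.lde hx
  rcases hQ with ⟨hK, -, -⟩ | ⟨hK, hA', hB⟩ | ⟨hpos, hf⟩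
  · refine Or.inl ⟨hK, fun N hN => ?_⟩
    have h1 := hJ.br N hN n w h hl bd
    rw [hK, hV.unit N] at h1
    exact mul_left_cancel₀ (GRI.E_sub_ne hN) (by rw [h1, mul_one])
  · refine Or.inr (Or.inl ⟨?_, _, _, _, _, hL, ?_, ?_⟩)
    · rcases hK with hK | hK
      · exact Or.inl ⟨GRI.isKnot_tref true, hK.trans (GRI.cb_tref hO true)⟩
      · exact Or.inr ⟨GRI.isKnot_tref false, hK.trans (GRI.cb_tref hO false)⟩
    · rw [hA']; norm_num
    · rw [hA', hB]; norm_num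
  · refine Or.inr (Or.inr ⟨_, _, _, _, hL, ?_, ?_⟩)
    · linarith
    · unfold fAB at hf
      nlinarith

end Pool.Agent.WD2
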