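import Pool.Agent.WD2.StE
import Pool.Agent.WD.GSUM

/-!
# Iterated doubles: the closure with twists and clasp, with explicit coefficients (module GS2)
-/

set_option autoImplicit false

namespace Pool.Agent.WD2

open Pool.Agent.LibH11 Pool.Agent.IT Pool.Agent.GK Pool.Agent.TwoBr Pool.Agent.WD
open scoped BigOperators

open GSUMM in
/-- GS2 -/
theorem t_GS2 (hCLM : CLM_Stmt) (hTOPV : TOPV_Stmt) (hBLKD : BLKD_Stmt)
    (hCABSUM : CABSUM_Stmt) (hMULT : MULT_Stmt) (hDBL : DBL_Stmt) (hMOP : MOP_Stmt)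
    (hFPOWOK : FPOWOK_Stmt) (hVOK : VOK_Stmt) (hRINV : RINV_Stmt) : GS2_Stmt := by
  intro K _ s hs N hN e
  have hV : IT.Ok s (V s N) := (hVOK K s hs).1 N
  have hW : IT.Ok s (fpow s (V s N) 2) := hFPOWOK K s hs (Fin N) (V s N) hV 2
  have hC := hCLM K s hs N hN e
  unfold gam
  refine ⟨?_, ?_⟩
  · -- the top coefficient
    have h1 : wtr (fpow s (V s N) 2) (2 * ((N - 1 : ℕ) : ℤ)) (clasp (MV s N) e) =
        gtop s N e := by
      unfold wtr
      have hf : (Finset.univ.filter fun x : Fin 2 → Fin N =>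
          (fpow s (V s N) 2).wt x = 2 * ((N - 1 : ℕ) : ℤ)) = {fun _ => ⟨0, hN⟩} := by
        ext x
        rw [Finset.mem_filter, Finset.mem_singleton, wt_val]
        constructor
        · rintro ⟨-, h⟩
          funext i
          apply Fin.ext
          have hi : i = 0 ∨ i = 1 := by omega
          rcases hi with rfl | rfl
          · change ((x 0 : Fin N) : ℕ) = 0
            omega
          · change ((x 1 : Fin N) : ℕ) = 0
            omega
        · intro h
          subst h
          refine ⟨Finset.mem_univ _, ?_⟩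
          push_cast [Nat.cast_sub hN]
          ring
      rw [hf, Finset.sum_singleton]
      exact hTOPV K s hs N hN e
    have h2 : wtr (fpow s (V s N) 2) (2 * ((N - 1 : ℕ) : ℤ) + 2) (clasp (MV s N) e) = 0 := by
      unfold wtr
      refine Finset.sum_eq_zero fun x hx => ?_
      exfalso
      have h := (Finset.mem_filter.mp hx).2
      rw [wt_val] at h
      omega
    change wtr (fpow s (V s N) 2) (2 * ((N - 1 : ℕ) : ℤ)) (clasp (MV s N) e) -
      wtr (fpow s (V s N) 2) (2 * ((N - 1 : ℕ) : ℤ) + 2) (clasp (MV s N) e) = _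
    rw [h1, h2, sub_zero]
  · intro m n w hk
    have hB : blkD (RD s (V s N)) 1 = RD s (fpow s (V s N) 2) :=
      hBLKD K s hs (Fin N) (V s N) hV 1
    have hTm : Mor (fpow s (V s N) 2) (fpow s (V s N) 2) (tw (RD s (V s N)) m) :=
      hMOP K s hs (Fin N) (V s N) hV 1 _
    have hX : Mor (fpow s (V s N) 2) (fpow s (V s N) 2)
        (tw (RD s (V s N)) m * clasp (MV s N) e) := by
      refine ⟨?_, ?_, ?_⟩
      · intro b a hab
        rw [Matrix.mul_apply] at hab
        obtain ⟨c, -, hc⟩ := Finset.exists_ne_zero_of_sum_ne_zero hab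
        rw [hTm.wt b c (left_ne_zero_of_mul hc), hC.wt c a (right_ne_zero_of_mul hc)]
      · rw [← Matrix.mul_assoc, hTm.E, Matrix.mul_assoc, hC.E, Matrix.mul_assoc]
      · rw [← Matrix.mul_assoc, hTm.F, Matrix.mul_assoc, hC.F, Matrix.mul_assoc]
    rw [hB, hCABSUM K s hs (Fin 2 → Fin N) (fpow s (V s N) 2) hW _ hX n w hk (2 * N - 1)]
    · rw [sum_even _ _ N hN]
      · refine Finset.sum_congr rfl fun j _ => ?_
        congr 1
        obtain ⟨r, P, Q, hQP, hEP, hwP, hQ⟩ :=
          hMULT K s hs (Fin 2 → Fin N) (fpow s (V s N) 2) hW (2 * j)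
        have hT := tw_act hDBL hRINV hVOK hs ((2 * j : ℕ) : ℤ) P hEP hwP m
        have h1 := trace_act (clasp (MV s N) e) (tw (RD s (V s N)) m) P Q hQP
          (hQ _ hC).1 _ hT
        rw [(hQ _ hX).2, (hQ _ hC).2] at h1
        have hc : ((2 * j : ℕ) : ℤ) = 2 * (j : ℤ) := by push_cast; ring
        rw [hc] at h1
        rw [hc, h1, mul_comm]
        congr 1
        rw [mul_comm m, zpow_mul]
        congr 2
        ring
      · intro k
        have hc : ((2 * k + 1 : ℕ) : ℤ) = 2 * (k : ℤ) + 1 := by push_cast; ring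
        have hc2 : ((2 * k + 1 : ℕ) : ℤ) + 2 = 2 * ((k : ℤ) + 1) + 1 := by push_cast; ring
        rw [hc2, hc, wtr_odd, wtr_odd, sub_zero, zero_mul]
    · intro a
      rw [wt_val]
      have h0 : 0 ≤ (((a 0 : Fin N) : ℕ) : ℤ) := Int.natCast_nonneg _
      have h1 : 0 ≤ (((a 1 : Fin N) : ℕ) : ℤ) := Int.natCast_nonneg _
      omega

end Pool.Agent.WD2
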