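import Pool.Agent.WD2.StF

/-!
# Iterated doubles, module WF_GVD: a nontrivial graph knot that is not a trefoil and a double (helper30)
-/

set_option autoImplicit false

namespace Pool.Agent.WD2

open Pool.Agent.LibH11 Pool.Agent.IT Pool.Agent.GK Pool.Agent.TwoBr Pool.Agent.WD
open PowerSeries

namespace GVD

theorem co {d : ℕ} {x z u v : ℚ} {J : ℕ → ℚ⟦X⟧} (h : LdE d x z u v J) {N : ℕ} (hN : 1 ≤ N)
    {n : ℕ} (hn : n < d + 3) :
    coeff n (J N) = (if n = 0 then 1 else 0) + x * ((N : ℚ) ^ 2 - 1) * (if n = d then 1 else 0) +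
      z * ((N : ℚ) ^ 2 - 1) * (if n = d + 1 then 1 else 0) +
      ((N : ℚ) ^ 2 - 1) * (u * (N : ℚ) ^ 2 + v) * (if n = d + 2 then 1 else 0) := by
  have h1 := X_pow_dvd_iff.1 (h N hN) n hn
  rw [map_sub, sub_eq_zero] at h1
  rw [h1]
  simp only [map_add, coeff_C_mul, coeff_X_pow, coeff_one]

end GVD

theorem t_GVD : GVD_Stmt := by
  intro J x z u v hJ h hx hu
  have e2 := GVD.co h (N := 2) (by norm_num) (n := 2) (by norm_num)
  have e4 := GVD.co h (N := 2) (by norm_num) (n := 4) (by norm_num)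
  have e5 := GVD.co h (N := 3) (by norm_num) (n := 4) (by norm_num)
  rcases hJ with hT | ⟨d, x', z', u', v', h', hx', ⟨rfl, hu'⟩ | ⟨hd, -⟩⟩
  · rw [hT 2 (by norm_num), coeff_one] at e2
    norm_num at e2
    exact absurd e2 hx.ne
  · have f2 := GVD.co h' (N := 2) (by norm_num) (n := 2) (by norm_num)
    have f4 := GVD.co h' (N := 2) (by norm_num) (n := 4) (by norm_num)
    have f5 := GVD.co h' (N := 3) (by norm_num) (n := 4) (by norm_num)
    rw [e2] at f2
    rw [e4] at f4
    rw [e5] at f5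
    norm_num at f2 f4 f5
    have h1 : u = u' := by linarith
    rw [h1, hu', f2] at hu
    exact lt_irrefl _ hu
  · have f2 := GVD.co h' (N := 2) (by norm_num) (n := 2) (by omega)
    rw [e2, if_neg (show ¬ 2 = d by omega), if_neg (show ¬ 2 = d + 1 by omega),
      if_neg (show ¬ 2 = d + 2 by omega)] at f2
    norm_num at f2
    exact absurd f2 hx.ne

end Pool.Agent.WD2
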