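import Pool.Agent.WD2.StF

/-! # Iterated doubles, module LDC: the expansion of the cyclotomic form -/

set_option autoImplicit false

namespace Pool.Agent.WD2

open Pool.Agent.LibH11 Pool.Agent.IT Pool.Agent.GK Pool.Agent.TwoBr Pool.Agent.WD
open scoped BigOperators
open PowerSeries

namespace LDC

theorem cm0 (a b : ℚ⟦X⟧) : coeff 0 (a * b) = coeff 0 a * coeff 0 b := by
  rw [coeff_mul]
  simp

theorem cm1 (a b : ℚ⟦X⟧) :
    coeff 1 (a * b) = coeff 0 a * coeff 1 b + coeff 1 a * coeff 0 b := by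
  rw [coeff_mul]
  simp [Finset.Nat.antidiagonal_succ]

theorem cm2 (a b : ℚ⟦X⟧) : coeff 2 (a * b) =
    coeff 0 a * coeff 2 b + coeff 1 a * coeff 1 b + coeff 2 a * coeff 0 b := by
  rw [coeff_mul]
  simp [Finset.Nat.antidiagonal_succ]
  ring

theorem cE0 (t : ℚ) : coeff 0 (E t) = 1 := by simp [E]

theorem cE1 (t : ℚ) : coeff 1 (E t) = t := by simp [E]

theorem cE2 (t : ℚ) : coeff 2 (E t) = t ^ 2 / 2 := by simp [E, Nat.factorial]

theorem cX0 : coeff 0 (X : ℚ⟦X⟧) = 0 := by simp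

theorem cX1 : coeff 1 (X : ℚ⟦X⟧) = 1 := coeff_one_X

theorem cX2 : coeff 2 (X : ℚ⟦X⟧) = 0 := by rw [coeff_X, if_neg (by norm_num)]

theorem cC0 (a : ℚ) : coeff 0 (C a : ℚ⟦X⟧) = a := by simp

theorem cC1 (a : ℚ) : coeff 1 (C a : ℚ⟦X⟧) = 0 := by rw [coeff_C, if_neg (by norm_num)]

theorem cC2 (a : ℚ) : coeff 2 (C a : ℚ⟦X⟧) = 0 := by rw [coeff_C, if_neg (by norm_num)]

theorem dvd3 (f : ℚ⟦X⟧) :
    X ^ 3 ∣ f ↔ coeff 0 f = 0 ∧ coeff 1 f = 0 ∧ coeff 2 f = 0 := by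
  rw [X_pow_dvd_iff]
  constructor
  · intro h
    exact ⟨h 0 (by norm_num), h 1 (by norm_num), h 2 (by norm_num)⟩
  · rintro ⟨h0, h1, h2⟩ m hm
    interval_cases m
    · exact h0
    · exact h1
    · exact h2

theorem dvd2 (f : ℚ⟦X⟧) : X ^ 2 ∣ f ↔ coeff 0 f = 0 ∧ coeff 1 f = 0 := by
  rw [X_pow_dvd_iff]
  constructor
  · intro h
    exact ⟨h 0 (by norm_num), h 1 (by norm_num)⟩
  · rintro ⟨h0, h1⟩ m hm
    interval_cases m
    · exact h0
    · exact h1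

theorem cancel {δ n : ℕ} {f : ℚ⟦X⟧} (h : X ^ (δ + n) ∣ X ^ δ * f) : X ^ n ∣ f := by
  rw [pow_add] at h
  exact (mul_dvd_mul_iff_left (pow_ne_zero δ X_ne_zero)).1 h

end LDC

open LDC in
theorem t_LDC (hG0 : SG0_Stmt) (hGV : GCV_Stmt) : LDC_Stmt := by
  intro e δ α β γ β₂ y J hJ hy0 hd h1 h2 h3
  obtain ⟨g00, gsum⟩ := hG0
  obtain ⟨⟨a0, a1, a2⟩, ⟨b0, b1'⟩, ⟨c0, c1⟩, d1, d2, d3, hP⟩ := hGV
  choose W hW using hd
  have hy : ∀ j, y j = 1 + X ^ δ * W j := fun j => by rw [← hW j]; ring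
  have hW0 : W 0 = 0 := by
    have h := hW 0
    rw [hy0, sub_self] at h
    rcases mul_eq_zero.1 h.symm with h4 | h4
    · exact absurd h4 (pow_ne_zero δ X_ne_zero)
    · exact h4
  -- the coefficients of `W`
  have k1 : X ^ 3 ∣ W 1 - (C α + C β * X + C γ * X ^ 2) := by
    apply cancel (δ := δ)
    rw [hy 1] at h1
    convert h1 using 1
    ring
  have k2 : X ^ 2 ∣ W 2 - (C (3 * α) + C β₂ * X) := by
    apply cancel (δ := δ)
    rw [hy 2] at h2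
    convert h2 using 1
    ring
  have k3 : X ^ 1 ∣ W 3 - C (6 * α) := by
    apply cancel (δ := δ)
    rw [hy 3] at h3
    convert h3 using 1
    ring
  rw [dvd3] at k1
  rw [dvd2] at k2
  rw [X_pow_dvd_iff] at k3
  have k3' := k3 0 (by norm_num)
  simp only [map_sub, map_add, cm0, cm1, cm2, pow_two, cC0, cC1, cC2, cX0, cX1, cX2] at k1 k2 k3'
  obtain ⟨u0, u1, u2⟩ := k1
  obtain ⟨w0, w1⟩ := k2
  have u0' : coeff 0 (W 1) = α := by linarith
  have u1' : coeff 1 (W 1) = β := by linarith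
  have u2' : coeff 2 (W 1) = γ := by linarith
  have w0' : coeff 0 (W 2) = 3 * α := by linarith
  have w1' : coeff 1 (W 2) = β₂ := by linarith
  have z0' : coeff 0 (W 3) = 6 * α := by linarith
  obtain ⟨s, hs⟩ : ∃ s : ℚ, ((sg e : ℤ) : ℚ) = s := ⟨_, rfl⟩
  have hss : s * s = 1 := by
    rw [← hs]
    exact_mod_cast sg_mul e
  have hsC : ((sg e : ℤ) : ℚ⟦X⟧) = C s := by
    rw [← hs]
    exact (map_intCast (C : ℚ →+* ℚ⟦X⟧) (sg e)).symm
  rw [hs]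
  refine ⟨-(s * β + 2 * α),
    -(s * γ + 2 * β + 2 * s * α) + s * α / 3 - 4 * (β₂ - 3 * β) / 3, fun N hN => ?_⟩
  let F : ℕ → ℚ⟦X⟧ := fun i => PT N i * (C s ^ i * E (s * (i * (i + 3) / 2))) *
    ∑ j ∈ Finset.range (i + 1), gC i j * W j
  have hterm : ∀ i : ℕ, 1 ≤ i → X ^ i * PT N i *
      (((sg e : ℤ) : ℚ⟦X⟧) ^ i * E (((sg e : ℤ) : ℚ) * (i * (i + 3) / 2))) *
      ∑ j ∈ Finset.range (i + 1), gC i j * y j = X ^ δ * (X ^ i * F i) := by
    intro i hi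
    have h4 : ∑ j ∈ Finset.range (i + 1), gC i j * y j =
        X ^ δ * ∑ j ∈ Finset.range (i + 1), gC i j * W j := by
      rw [Finset.mul_sum]
      have h5 : ∀ j, gC i j * y j = gC i j + X ^ δ * (gC i j * W j) := fun j => by
        rw [hy j]
        ring
      rw [Finset.sum_congr rfl fun j _ => h5 j, Finset.sum_add_distrib, gsum i hi, zero_add]
    rw [h4, hs, hsC]
    simp only [F]
    ring
  have h0 : X ^ 0 * PT N 0 *
      (((sg e : ℤ) : ℚ⟦X⟧) ^ 0 * E (((sg e : ℤ) : ℚ) * (((0 : ℕ) : ℚ) * (((0 : ℕ) : ℚ) + 3) / 2))) *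
      ∑ j ∈ Finset.range (0 + 1), gC 0 j * y j = 1 := by
    have hE : E 0 = 1 := by
      ext n
      rcases n with _ | n
      · simp [E]
      · simp [E, coeff_one]
    simp [PT_zero, g00, hy0, hE]
  have hsum : ∃ R : ℚ⟦X⟧, J N = 1 + X ^ δ * (X * F 1 + X ^ 2 * F 2 + X ^ 3 * F 3 + X ^ 4 * R) := by
    refine ⟨∑ i ∈ Finset.range N, X ^ i * F (4 + i), ?_⟩
    rw [hJ N hN, cyc_eq e hN (show N ≤ 4 + N by omega), Finset.sum_range_add]
    rw [Finset.sum_congr rfl fun i _ => hterm (4 + i) (by omega)]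
    rw [Finset.sum_range_succ, Finset.sum_range_succ, Finset.sum_range_succ,
      Finset.sum_range_succ, Finset.sum_range_zero, h0, hterm 1 (by omega), hterm 2 (by omega),
      hterm 3 (by omega), ← Finset.mul_sum]
    have h6 : ∑ i ∈ Finset.range N, X ^ (4 + i) * F (4 + i) =
        X ^ 4 * ∑ i ∈ Finset.range N, X ^ i * F (4 + i) := by
      rw [Finset.mul_sum]
      refine Finset.sum_congr rfl fun i _ => ?_
      rw [pow_add]
      ring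
    rw [h6]
    ring
  obtain ⟨R, hR⟩ := hsum
  -- the coefficients
  obtain ⟨⟨p0, p1, p2⟩, q0, q1⟩ := hP N
  have F1 : F 1 = PT N 1 * (C s * E (s * 2)) * (gC 1 1 * W 1) := by
    simp only [F, pow_one]
    rw [Finset.sum_range_succ, Finset.sum_range_succ, Finset.sum_range_zero, hW0,
      show (s * (((1 : ℕ) : ℚ) * (((1 : ℕ) : ℚ) + 3) / 2)) = s * 2 by norm_num]
    ring
  have F2 : F 2 = PT N 2 * (C s ^ 2 * E (s * 5)) * (gC 2 1 * W 1 + gC 2 2 * W 2) := by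
    simp only [F]
    rw [Finset.sum_range_succ, Finset.sum_range_succ, Finset.sum_range_succ,
      Finset.sum_range_zero, hW0,
      show (s * (((2 : ℕ) : ℚ) * (((2 : ℕ) : ℚ) + 3) / 2)) = s * 5 by norm_num]
    ring
  have F3 : coeff 0 (F 3) = 0 := by
    simp only [F]
    rw [Finset.sum_range_succ, Finset.sum_range_succ, Finset.sum_range_succ,
      Finset.sum_range_succ, Finset.sum_range_zero, hW0, cm0 _ (_ + _)]
    simp only [map_add, map_zero, cm0, mul_zero, u0', w0', z0', d1, d2, d3]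
    ring
  have key : X ^ 3 ∣ F 1 + X * F 2 + X ^ 2 * F 3 -
      (C (-(s * α) * ((N : ℚ) ^ 2 - 1)) + C (-(s * β + 2 * α) * ((N : ℚ) ^ 2 - 1)) * X +
        C (((N : ℚ) ^ 2 - 1) * ((-(s * α) / 3 + (β₂ - 3 * β) / 3) * (N : ℚ) ^ 2 +
          (-(s * γ + 2 * β + 2 * s * α) + s * α / 3 - 4 * (β₂ - 3 * β) / 3))) * X ^ 2) := by
    rw [dvd3, F1, F2]
    simp only [map_sub, map_add, cm0, cm1, cm2, pow_two, cC0, cC1, cC2, cX0, cX1, cX2, cE0, cE1,
      cE2, F3, u0', u1', u2', w0', w1', a0, a1, a2, b0, b1', c0, c1, p0, p1, p2, q0, q1]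
    refine ⟨?_, ?_, ?_⟩
    · ring
    · linear_combination (-(2 * α * ((N : ℚ) * N - 1))) * hss
    · linear_combination (-2 * (N : ℚ) ^ 2 * s * α + 3 * (N : ℚ) ^ 2 * β - 5 / 3 * (N : ℚ) ^ 2 * β₂ -
        (N : ℚ) ^ 4 * β + 1 / 3 * (N : ℚ) ^ 4 * β₂ + 2 * s * α - 2 * β + 4 / 3 * β₂) * hss
  obtain ⟨T, hT⟩ := key
  refine ⟨T + R, ?_⟩
  rw [hR]
  have h7 : F 1 + X * F 2 + X ^ 2 * F 3 = X ^ 3 * T +
      (C (-(s * α) * ((N : ℚ) ^ 2 - 1)) + C (-(s * β + 2 * α) * ((N : ℚ) ^ 2 - 1)) * X +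
        C (((N : ℚ) ^ 2 - 1) * ((-(s * α) / 3 + (β₂ - 3 * β) / 3) * (N : ℚ) ^ 2 +
          (-(s * γ + 2 * β + 2 * s * α) + s * α / 3 - 4 * (β₂ - 3 * β) / 3))) * X ^ 2) := by
    rw [← hT]
    ring
  have h8 : X * F 1 + X ^ 2 * F 2 + X ^ 3 * F 3 + X ^ 4 * R =
      X * (F 1 + X * F 2 + X ^ 2 * F 3) + X ^ 4 * R := by ring
  rw [h8, h7]
  ring

end Pool.Agent.WD2
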