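import Pool.Agent.WD2.StF

/-!
# The leading terms of a double (module WF_LDD)
-/

set_option autoImplicit false

namespace Pool.Agent.WD2

open Pool.Agent.LibH11 Pool.Agent.IT Pool.Agent.GK Pool.Agent.TwoBr Pool.Agent.WD
open scoped BigOperators
open PowerSeries

namespace LDD

lemma E_exp (c : ℚ) :
    (X : ℚ⟦X⟧) ^ 4 ∣ E c - (1 + C c * X + C (c ^ 2 / 2) * X ^ 2 + C (c ^ 3 / 6) * X ^ 3) := by
  rw [X_pow_dvd_iff]
  intro m hm
  have h : m = 0 ∨ m = 1 ∨ m = 2 ∨ m = 3 := by omega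
  rcases h with rfl | rfl | rfl | rfl <;>
    simp [E, coeff_one, coeff_X_pow, Nat.factorial]

lemma mulE {c a b α β γ : ℚ} {Y : ℚ⟦X⟧} (h : X ^ 4 ∣ Y - (1 + C a * X ^ 2 + C b * X ^ 3))
    (hα : α = c) (hβ : β = c ^ 2 / 2 + a) (hγ : γ = c ^ 3 / 6 + b + c * a) :
    X ^ (1 + 3) ∣ E c * Y - (1 + C α * X ^ 1 + C β * X ^ (1 + 1) + C γ * X ^ (1 + 2)) := by
  obtain ⟨f, hf⟩ := h
  obtain ⟨g, hg⟩ := E_exp c
  refine ⟨g * Y + (1 + C c * X + C (c ^ 2 / 2) * X ^ 2 + C (c ^ 3 / 6) * X ^ 3) * f +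
    (C (c ^ 2 / 2) * C a + (C (c ^ 2 / 2) * C b + C (c ^ 3 / 6) * C a) * X +
      C (c ^ 3 / 6) * C b * X ^ 2 + C c * C b), ?_⟩
  rw [hα, hβ, hγ]
  simp only [map_add, map_mul (C : ℚ →+* ℚ⟦X⟧) c a]
  linear_combination Y * hg +
    (1 + C c * X + C (c ^ 2 / 2) * X ^ 2 + C (c ^ 3 / 6) * X ^ 3) * hf

/-- the first terms -/
lemma terms {J : ℕ → ℚ⟦X⟧} (h : Inf J) : ∃ a b : ℚ, ∀ M : ℕ, 1 ≤ M →
    X ^ 4 ∣ J M - (1 + C (a * ((M : ℚ) ^ 2 - 1)) * X ^ 2 + C (b * ((M : ℚ) ^ 2 - 1)) * X ^ 3) := by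
  rcases h with h | ⟨d, x, z, u, v, hL, _, hd⟩
  · refine ⟨0, 0, fun M hM => ?_⟩
    rw [h M hM]
    simp
  · have hd2 : 2 ≤ d := by
      rcases hd with ⟨h, _⟩ | ⟨h, _⟩ | ⟨h, _⟩ <;> omega
    rcases Nat.lt_or_ge d 4 with h4 | h4
    · rcases (show d = 2 ∨ d = 3 by omega) with rfl | rfl
      · refine ⟨x, z, fun M hM => ?_⟩
        obtain ⟨f, hf⟩ := hL M hM
        refine ⟨X * f + C (((M : ℚ) ^ 2 - 1) * (u * (M : ℚ) ^ 2 + v)), ?_⟩
        linear_combination hf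
      · refine ⟨0, x, fun M hM => ?_⟩
        obtain ⟨f, hf⟩ := hL M hM
        refine ⟨X ^ 2 * f + C (z * ((M : ℚ) ^ 2 - 1)) +
          C (((M : ℚ) ^ 2 - 1) * (u * (M : ℚ) ^ 2 + v)) * X, ?_⟩
        rw [zero_mul, map_zero]
        linear_combination hf
    · refine ⟨0, 0, fun M hM => ?_⟩
      obtain ⟨k, rfl⟩ := Nat.exists_eq_add_of_le h4
      obtain ⟨f, hf⟩ := hL M hM
      refine ⟨X ^ (k + 3) * f + C (x * ((M : ℚ) ^ 2 - 1)) * X ^ k +
          C (z * ((M : ℚ) ^ 2 - 1)) * X ^ (k + 1) +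
          C (((M : ℚ) ^ 2 - 1) * (u * (M : ℚ) ^ 2 + v)) * X ^ (k + 2), ?_⟩
      rw [zero_mul, map_zero]
      linear_combination hf

lemma dvd_sub_one {p q r : ℚ} {A B : ℚ⟦X⟧} (h0 : A = B)
    (h : X ^ (1 + 3) ∣ B - (1 + C p * X ^ 1 + C q * X ^ (1 + 1) + C r * X ^ (1 + 2))) :
    X ^ 1 ∣ A - 1 := by
  obtain ⟨f, hf⟩ := h
  refine ⟨X ^ 3 * f + C p + C q * X + C r * X ^ 2, ?_⟩
  rw [h0]
  linear_combination hf

lemma sg_sq (e : Bool) : (((sg e : ℤ) : ℚ)) ^ 2 = 1 := by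
  cases e <;> simp [sg]

lemma sg_ne (e : Bool) : (((sg e : ℤ) : ℚ)) ≠ 0 := by
  cases e <;> simp [sg]

end LDD

open LDD in
/-- LDD: the leading terms of a double. -/
theorem t_LDD (hLDC : LDC_Stmt) (hSG : SG0_Stmt) (hE : ESER_Stmt) : LDD_Stmt := by
  intro e t J J' hJ1 hI hJ'
  have hE0 : E 0 = 1 := hE.1
  have hy0 : (fun j : ℕ => E (2 * j * (j + 1) * t) * J (2 * j + 1)) 0 = 1 := by
    simp [hE0, hJ1]
  by_cases ht : t = 0
  · have hy : ∀ j : ℕ, E (2 * j * (j + 1) * (t : ℤ)) * J (2 * j + 1) = J (2 * j + 1) := by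
      intro j
      rw [ht, Int.cast_zero, mul_zero, hE0, one_mul]
    rcases hI with h | ⟨d, x, z, u, v, hL, hx, hd⟩
    · left
      intro N hN
      have hy1 : (fun j : ℕ => E (2 * j * (j + 1) * t) * J (2 * j + 1)) = fun _ => 1 := by
        funext j
        rw [hy, h _ (by omega)]
      rw [hJ' N hN, hy1]
      unfold cyc
      rw [Finset.sum_eq_single 0]
      · simp [PT_zero, hSG.1, hE0]
      · intro i _ hi
        have h1 : ∑ j ∈ Finset.range (i + 1), gC i j * 1 = 0 := by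
          simp only [mul_one]
          exact hSG.2 i (by omega)
        rw [h1, mul_zero]
      · intro h
        exact absurd (Finset.mem_range.2 (by omega)) h
    · right
      have hd2 : 2 ≤ d := by
        rcases hd with ⟨h, _⟩ | ⟨h, _⟩ | ⟨h, _⟩ <;> omega
      obtain ⟨z', v', h⟩ := hLDC e d (8 * x) (8 * z) (8 * (9 * u + v)) (24 * z)
        (fun j => E (2 * j * (j + 1) * t) * J (2 * j + 1)) J' hJ' hy0 (by
          intro j
          obtain ⟨f, hf⟩ := hL (2 * j + 1) (by omega)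
          rw [hy]
          refine ⟨X ^ 3 * f + C (x * (((2 * j + 1 : ℕ) : ℚ) ^ 2 - 1)) +
            C (z * (((2 * j + 1 : ℕ) : ℚ) ^ 2 - 1)) * X +
            C ((((2 * j + 1 : ℕ) : ℚ) ^ 2 - 1) * (u * ((2 * j + 1 : ℕ) : ℚ) ^ 2 + v)) * X ^ 2, ?_⟩
          linear_combination hf) (by
          have h1 := hL 3 (by norm_num)
          simp only [hy]
          have e1 : x * (((3 : ℕ) : ℚ) ^ 2 - 1) = 8 * x := by push_cast; ring
          have e2 : z * (((3 : ℕ) : ℚ) ^ 2 - 1) = 8 * z := by push_cast; ring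
          have e3 : (((3 : ℕ) : ℚ) ^ 2 - 1) * (u * ((3 : ℕ) : ℚ) ^ 2 + v) = 8 * (9 * u + v) := by
            push_cast; ring
          rw [e1, e2, e3] at h1
          exact h1) (by
          obtain ⟨f, hf⟩ := hL 5 (by norm_num)
          simp only [hy]
          have e1 : x * (((5 : ℕ) : ℚ) ^ 2 - 1) = 3 * (8 * x) := by push_cast; ring
          have e2 : z * (((5 : ℕ) : ℚ) ^ 2 - 1) = 24 * z := by push_cast; ring
          rw [e1, e2] at hf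
          refine ⟨X * f + C ((((5 : ℕ) : ℚ) ^ 2 - 1) * (u * ((5 : ℕ) : ℚ) ^ 2 + v)), ?_⟩
          linear_combination hf) (by
          obtain ⟨f, hf⟩ := hL 7 (by norm_num)
          simp only [hy]
          have e1 : x * (((7 : ℕ) : ℚ) ^ 2 - 1) = 6 * (8 * x) := by push_cast; ring
          rw [e1] at hf
          refine ⟨X ^ 2 * f + C (z * (((7 : ℕ) : ℚ) ^ 2 - 1)) +
            C ((((7 : ℕ) : ℚ) ^ 2 - 1) * (u * ((7 : ℕ) : ℚ) ^ 2 + v)) * X, ?_⟩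
          linear_combination hf)
      refine ⟨d + 1, _, _, _, _, h, ?_, Or.inr ⟨by omega, ?_⟩⟩
      · exact neg_ne_zero.2 (mul_ne_zero (sg_ne e) (mul_ne_zero (by norm_num) hx))
      · ring
  · right
    obtain ⟨a, b, hab⟩ := terms hI
    obtain ⟨z', v', h⟩ := hLDC e 1 (4 * t) (8 * (t : ℚ) ^ 2 + 8 * a)
      (32 * (t : ℚ) ^ 3 / 3 + 32 * t * a + 8 * b) (72 * (t : ℚ) ^ 2 + 24 * a)
      (fun j => E (2 * j * (j + 1) * t) * J (2 * j + 1)) J' hJ' hy0 (by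
        intro j
        have h1 := mulE (c := 2 * j * (j + 1) * t) (hab (2 * j + 1) (by omega)) rfl rfl rfl
        exact dvd_sub_one rfl h1) (by
        exact mulE (hab 3 (by norm_num)) (by push_cast; ring) (by push_cast; ring)
          (by push_cast; ring)) (by
        obtain ⟨f, hf⟩ := mulE (c := 2 * (2 : ℕ) * ((2 : ℕ) + 1) * t) (α := 3 * (4 * t))
          (β := 72 * (t : ℚ) ^ 2 + 24 * a) (hab 5 (by norm_num)) (by push_cast; ring)
          (by push_cast; ring) rfl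
        refine ⟨X * f + C ((2 * (2 : ℕ) * ((2 : ℕ) + 1) * t) ^ 3 / 6 +
          b * (((5 : ℕ) : ℚ) ^ 2 - 1) + (2 * (2 : ℕ) * ((2 : ℕ) + 1) * t) *
            (a * (((5 : ℕ) : ℚ) ^ 2 - 1))), ?_⟩
        simp only [Nat.reduceMul, Nat.reduceAdd]
        linear_combination hf) (by
        obtain ⟨f, hf⟩ := mulE (c := 2 * (3 : ℕ) * ((3 : ℕ) + 1) * t) (α := 6 * (4 * t))
          (hab 7 (by norm_num)) (by push_cast; ring) rfl rfl
        refine ⟨X ^ 2 * f + C ((2 * (3 : ℕ) * ((3 : ℕ) + 1) * t) ^ 2 / 2 +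
          a * (((7 : ℕ) : ℚ) ^ 2 - 1)) + C ((2 * (3 : ℕ) * ((3 : ℕ) + 1) * t) ^ 3 / 6 +
          b * (((7 : ℕ) : ℚ) ^ 2 - 1) + (2 * (3 : ℕ) * ((3 : ℕ) + 1) * t) *
            (a * (((7 : ℕ) : ℚ) ^ 2 - 1))) * X, ?_⟩
        simp only [Nat.reduceMul, Nat.reduceAdd]
        linear_combination hf)
    refine ⟨2, _, _, _, _, h, ?_, Or.inl ⟨rfl, ?_⟩⟩
    · exact neg_ne_zero.2 (mul_ne_zero (sg_ne e) (mul_ne_zero (by norm_num)
        (Int.cast_ne_zero.2 ht)))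
    · linear_combination (-16 * (t : ℚ) ^ 2) * sg_sq e

end Pool.Agent.WD2
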