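import Pool.Agent.WD2.StF

/-!
# Two doubles with opposite clasps: the twists

The coefficients of `X`, `X²`, `X³` of the two relations (as in `WD/OPPB.lean`).
-/

set_option autoImplicit false

namespace Pool.Agent.WD2

open Pool.Agent.LibH11 Pool.Agent.IT Pool.Agent.GK Pool.Agent.TwoBr Pool.Agent.WD
open scoped BigOperators
open PowerSeries

namespace OPB

theorem E_eq (a : ℚ) : E a = rescale a (exp ℚ) := by
  ext n
  simp [E, coeff_rescale, coeff_exp, div_eq_mul_inv]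

theorem E_add (a b : ℚ) : E (a + b) = E a * E b := by
  rw [E_eq, E_eq, E_eq, exp_mul_exp_eq_exp_add]

theorem cE (s : ℚ) : coeff 0 (E s) = 1 ∧ coeff 1 (E s) = s ∧ coeff 2 (E s) = s ^ 2 / 2 ∧
    coeff 3 (E s) = s ^ 3 / 6 := by
  refine ⟨?_, ?_, ?_, ?_⟩ <;> simp [E, Nat.factorial] <;> norm_num

/-- The coefficients of `E s * J`. -/
theorem cEJ (s a b : ℚ) (M : ℕ) (J : ℚ⟦X⟧) (h : Ex3 a b M J) :
    coeff 1 (E s * J) = s ∧ coeff 2 (E s * J) = s ^ 2 / 2 + a * ((M : ℚ) ^ 2 - 1) ∧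
      coeff 3 (E s * J) = s ^ 3 / 6 + s * (a * ((M : ℚ) ^ 2 - 1)) + b * ((M : ℚ) ^ 2 - 1) := by
  obtain ⟨e0, e1, e2, e3⟩ := cE s
  obtain ⟨j0, j1, j2, j3⟩ := h
  refine ⟨?_, ?_, ?_⟩
  · rw [coeff_mul, Finset.Nat.antidiagonal_succ]
    simp only [Finset.Nat.antidiagonal_zero, Finset.map_singleton, Finset.sum_cons,
      Finset.sum_singleton, Function.Embedding.prodMap, Function.Embedding.coeFn_mk,
      Prod.map, Function.Embedding.refl_apply, Nat.succ_eq_add_one, zero_add]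
    rw [e0, e1, j0, j1]
    ring
  · rw [coeff_mul]
    have : (Finset.HasAntidiagonal.antidiagonal 2 : Finset (ℕ × ℕ)) = {(0, 2), (1, 1), (2, 0)} := rfl
    rw [this, Finset.sum_insert (by decide), Finset.sum_insert (by decide), Finset.sum_singleton]
    simp only
    rw [e0, e1, e2, j0, j1, j2]
    ring
  · rw [coeff_mul]
    have : (Finset.HasAntidiagonal.antidiagonal 3 : Finset (ℕ × ℕ)) = {(0, 3), (1, 2), (2, 1), (3, 0)} := rfl
    rw [this, Finset.sum_insert (by decide), Finset.sum_insert (by decide),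
      Finset.sum_insert (by decide), Finset.sum_singleton]
    simp only
    rw [e0, e1, e2, e3, j0, j1, j2, j3]
    ring

end OPB

open OPB in
/-- `OPB`: two doubles with opposite clasps, the twists. -/
theorem t_OPB : OPB_Stmt := by
  intro t t' a b a' b' J3 J5 J3' J5' h3 h5 h3' h5' hA hB
  have hA' : E (4 * (t' : ℚ)) * J3' - 1 = E 4 - E (4 + 4 * t) * J3 := by
    rw [hA, E_add]
    ring
  have hB' : E (12 * (t' : ℚ)) * J5' - 1 = E (10 + 12 * t) * J5 - E 10 -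
      (E (2 + 4 * t) * J3 - E 2 + (E (4 + 4 * t) * J3 - E 4) + (E (6 + 4 * t) * J3 - E 6) +
        (E (8 + 4 * t) * J3 - E 8) + (E (10 + 4 * t) * J3 - E 10) +
        (E (12 + 4 * t) * J3 - E 12)) := by
    have k4 : E 4 = E 2 * E 2 := by rw [← E_add]; norm_num
    have k6 : E 6 = E 2 * E 2 * E 2 := by rw [← E_add, ← E_add]; norm_num
    have k8 : E 8 = E 2 * E 2 * E 2 * E 2 := by rw [← E_add, ← E_add, ← E_add]; norm_num
    have k10 : E 10 = E 2 * E 2 * E 2 * E 2 * E 2 := by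
      rw [← E_add, ← E_add, ← E_add, ← E_add]; norm_num
    have k12 : E 12 = E 2 * E 2 * E 2 * E 2 * E 2 * E 2 := by
      rw [← E_add, ← E_add, ← E_add, ← E_add, ← E_add]; norm_num
    rw [hB, E_add 10, E_add 2, E_add 4, E_add 6, E_add 8, E_add 10, E_add 12, k12, k10, k8, k6, k4]
    ring
  have c1 : (PowerSeries.coeff 1 : ℚ⟦X⟧ →ₗ[ℚ] ℚ) 1 = 0 := by
    rw [coeff_one, if_neg (by norm_num)]
  have c2 : (PowerSeries.coeff 2 : ℚ⟦X⟧ →ₗ[ℚ] ℚ) 1 = 0 := by
    rw [coeff_one, if_neg (by norm_num)]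
  have c3 : (PowerSeries.coeff 3 : ℚ⟦X⟧ →ₗ[ℚ] ℚ) 1 = 0 := by
    rw [coeff_one, if_neg (by norm_num)]
  have A1 := congrArg (PowerSeries.coeff 1) hA'
  have A2 := congrArg (PowerSeries.coeff 2) hA'
  have A3 := congrArg (PowerSeries.coeff 3) hA'
  have B3 := congrArg (PowerSeries.coeff 3) hB'
  simp only [map_sub, map_add, c1, c2, c3, (cEJ _ _ _ _ _ h3).1, (cEJ _ _ _ _ _ h3).2.1,
    (cEJ _ _ _ _ _ h3).2.2,
    (cEJ _ _ _ _ _ h5).2.2, (cEJ _ _ _ _ _ h3').1, (cEJ _ _ _ _ _ h3').2.1,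
    (cEJ _ _ _ _ _ h3').2.2,
    (cEJ _ _ _ _ _ h5').2.2, (cE _).2.1, (cE _).2.2.1, (cE _).2.2.2] at A1 A2 A3 B3
  push_cast at A1 A2 A3 B3
  have hT : (t' : ℚ) = -t := by linarith
  rw [hT] at A2 A3 B3
  have ha'2 : a' = -a - 2 * t * (t + 1) := by linarith
  rw [ha'2] at A3 B3
  have key : (t : ℚ) * (4 * t - 1) * (t + 1) = 0 := by
    linear_combination (3 * A3 - B3) / 32
  have hti : t * (4 * t - 1) * (t + 1) = 0 := by exact_mod_cast key
  have htt : t = 0 ∨ t = -1 := by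
    rcases mul_eq_zero.mp hti with h | h
    · rcases mul_eq_zero.mp h with h | h
      · exact Or.inl h
      · omega
    · right
      omega
  exact ⟨by exact_mod_cast hT, htt⟩

end Pool.Agent.WD2
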