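import Pool.Agent.WD2.StF

/-!
# Iterated doubles: two doubles with opposite clasps (module `WF_OPC`)
-/

set_option autoImplicit false

namespace Pool.Agent.WD2

open Pool.Agent.LibH11 Pool.Agent.IT Pool.Agent.GK Pool.Agent.TwoBr Pool.Agent.WD
open Pool.Agent.LibH11.Sliced (Diag Kind cnt IsLongKnot ofDiag braidWord)
open scoped BigOperators
open PowerSeries

namespace OPC

/-- the coefficients of the leading terms -/
theorem co {d : ℕ} {x z u v : ℚ} {J : ℕ → ℚ⟦X⟧} (h : LdE d x z u v J) {N : ℕ} (hN : 1 ≤ N)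
    {n : ℕ} (hn : n < d + 3) :
    coeff n (J N) = (if n = 0 then 1 else 0) + (if n = d then x * ((N : ℚ) ^ 2 - 1) else 0) +
      (if n = d + 1 then z * ((N : ℚ) ^ 2 - 1) else 0) +
      (if n = d + 2 then ((N : ℚ) ^ 2 - 1) * (u * (N : ℚ) ^ 2 + v) else 0) := by
  have h1 := (X_pow_dvd_iff.mp (h N hN)) n hn
  rw [map_sub, sub_eq_zero] at h1
  rw [h1]
  simp only [map_add, coeff_C_mul, coeff_X_pow, coeff_one, mul_ite, mul_one, mul_zero]

/-- the expansion to order 3 -/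
theorem ex3_of_inf {J : ℕ → ℚ⟦X⟧} (h : Inf J) :
    ∃ a b : ℚ, ∀ M : ℕ, 1 ≤ M → Ex3 a b M (J M) := by
  rcases h with h | ⟨d, x, z, u, v, hL, -, hc⟩
  · refine ⟨0, 0, fun M hM => ?_⟩
    rw [h M hM]
    constructor <;> simp [coeff_one]
  · have key : d = 2 ∨ 3 ≤ d := by
      rcases hc with ⟨hd, -⟩ | ⟨hd, -⟩ | ⟨hd, -, -⟩
      · exact Or.inl hd
      · exact Or.inr hd
      · exact Or.inl hd
    rcases key with hd | hd
    · subst hd
      refine ⟨x, z, fun M hM => ?_⟩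
      constructor
      · rw [co hL hM (by omega)]; simp
      · rw [co hL hM (by omega)]; simp
      · rw [co hL hM (by omega)]; simp
      · rw [co hL hM (by omega)]; simp
    · refine ⟨0, if d = 3 then x else 0, fun M hM => ?_⟩
      constructor
      · rw [co hL hM (by omega), if_pos rfl, if_neg (by omega), if_neg (by omega),
          if_neg (by omega)]
        ring
      · rw [co hL hM (by omega), if_neg (by omega), if_neg (by omega), if_neg (by omega),
          if_neg (by omega)]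
        ring
      · rw [co hL hM (by omega), if_neg (by omega), if_neg (by omega), if_neg (by omega),
          if_neg (by omega)]
        ring
      · rw [co hL hM (by omega), if_neg (by omega), if_neg (by omega : ¬ (3 = d + 1)),
          if_neg (by omega : ¬ (3 = d + 2))]
        by_cases h3 : d = 3
        · rw [if_pos h3, if_pos h3.symm]
          ring
        · rw [if_neg h3, if_neg (fun h => h3 h.symm)]
          ring

/-- The arithmetic: no combination of the cases is possible. -/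
theorem arith {d d' : ℕ} {x u x' u' s : ℚ} (hs : s = -x / 6 ∨ s = 5 * x / 6) (hd : d' = d)
    (hx' : x' = -x) (hu' : u' = u + s) (hx : x ≠ 0)
    (h : (d = 2 ∧ u = x / 3 + x ^ 2) ∨ (3 ≤ d ∧ u = x / 3) ∨
      (d = 2 ∧ x < 0 ∧ u < x / 3 + x ^ 2))
    (h' : (d' = 2 ∧ u' = x' / 3 + x' ^ 2) ∨ (3 ≤ d' ∧ u' = x' / 3) ∨
      (d' = 2 ∧ x' < 0 ∧ u' < x' / 3 + x' ^ 2)) : False := by
  subst hd hx' hu'
  have hsq : (-x) ^ 2 = x ^ 2 := by ring
  rw [hsq] at h'
  have hx2 : x < 0 ∨ 0 < x := lt_or_gt_of_ne hx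
  rcases h with ⟨h1, h2⟩ | ⟨h1, h2⟩ | ⟨h1, h2, h3⟩ <;>
  rcases h' with ⟨k1, k2⟩ | ⟨k1, k2⟩ | ⟨k1, k2, k3⟩ <;>
  first
  | omega
  | (rcases hs with hs | hs <;> rcases hx2 with hx2 | hx2 <;> linarith)

end OPC

open OPC in
/-- `OPC`: two doubles with opposite clasps. -/
theorem t_OPC (hA : OPPA_Stmt) (hB : OPB_Stmt) (hL : OPL_Stmt) (_hE : ESER_Stmt) : OPC_Stmt := by
  intro JS Cf t t' K1 K K1' K' hD hD' hI hI' hsame
  have d2 := hD.d2
  have d3 := hD.d3
  have d2' := hD'.d2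
  have d3' := hD'.d3
  rw [if_pos rfl] at d2 d3
  rw [if_neg (by decide)] at d2' d3'
  rw [← hsame 2 (by norm_num)] at d2'
  rw [← hsame 3 (by norm_num)] at d3'
  obtain ⟨e1, e2⟩ := hA _ _ _ _ _ _ _ _ d2 d3 d2' d3'
  obtain ⟨a, b, hx⟩ := ex3_of_inf hI
  obtain ⟨a', b', hx'⟩ := ex3_of_inf hI'
  obtain ⟨h1, h2⟩ := hB t t' a b a' b' _ _ _ _ (hx 3 (by norm_num)) (hx 5 (by norm_num))
    (hx' 3 (by norm_num)) (hx' 5 (by norm_num)) e1 e2
  refine ⟨h1, h2, ?_⟩
  rcases hI with hT | ⟨d, x, z, u, v, hl, hx0, hc⟩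
  · exact Or.inl hT
  rcases hI' with hT' | ⟨d', x', z', u', v', hl', hx0', hc'⟩
  · exact Or.inr hT'
  exfalso
  subst h1
  obtain ⟨k1, k2, k3⟩ := hL t d d' x z u v x' z' u' v' (fun N => JS N K) (fun N => JS N K')
    h2 hl hl' hx0 hx0' e1 e2
  refine arith (s := if t = 0 then -x / 6 else 5 * x / 6) ?_ k1 k2 k3 hx0 hc hc'
  split_ifs
  · exact Or.inl rfl
  · exact Or.inr rfl

end Pool.Agent.WD2
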