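import Pool.Agent.WD2.StF

/-!
# Iterated doubles, module OPL: doubles with opposite clasps, the leading terms of the companions
-/

set_option autoImplicit false

namespace Pool.Agent.WD2

open Pool.Agent.LibH11 Pool.Agent.IT Pool.Agent.GK Pool.Agent.TwoBr Pool.Agent.WD
open scoped BigOperators
open PowerSeries

namespace OPL

theorem c0 (a b : ℚ⟦X⟧) : coeff 0 (a * b) = coeff 0 a * coeff 0 b := by
  rw [coeff_mul, Finset.Nat.antidiagonal_zero, Finset.sum_singleton]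

theorem c1 (a b : ℚ⟦X⟧) : coeff 1 (a * b) = coeff 0 a * coeff 1 b + coeff 1 a * coeff 0 b := by
  rw [coeff_mul, Finset.Nat.antidiagonal_succ]
  simp

theorem c2' (a b : ℚ⟦X⟧) : coeff 2 (a * b) =
    coeff 0 a * coeff 2 b + coeff 1 a * coeff 1 b + coeff 2 a * coeff 0 b := by
  rw [coeff_mul, Finset.Nat.sum_antidiagonal_eq_sum_range_succ_mk]
  simp only [Finset.sum_range_succ, Finset.sum_range_zero]
  ring

theorem e0 (a : ℚ) : coeff 0 (E a) = 1 := by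
  rw [E, coeff_mk]
  simp

theorem e1 (a : ℚ) : coeff 1 (E a) = a := by
  rw [E, coeff_mk]
  simp

theorem e2 (a : ℚ) : coeff 2 (E a) = a ^ 2 / 2 := by
  rw [E, coeff_mk]
  simp

theorem epow (he : ESER_Stmt) (a : ℚ) (k : ℕ) : E (k * a) = E a ^ k := by
  induction k with
  | zero => rw [Nat.cast_zero, zero_mul, he.1, pow_zero]
  | succ k ih => rw [Nat.cast_succ, add_mul, one_mul, he.2.1, ih, pow_succ]

theorem ld {d : ℕ} {x z u v : ℚ} {J : ℕ → ℚ⟦X⟧} (h : LdE d x z u v J) (N : ℕ) (hN : 1 ≤ N) :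
    ∃ W : ℚ⟦X⟧, J N - 1 = X ^ d * W ∧ coeff 0 W = x * ((N : ℚ) ^ 2 - 1) ∧
      coeff 1 W = z * ((N : ℚ) ^ 2 - 1) ∧
      coeff 2 W = ((N : ℚ) ^ 2 - 1) * (u * (N : ℚ) ^ 2 + v) := by
  obtain ⟨R, hR⟩ := h N hN
  generalize x * ((N : ℚ) ^ 2 - 1) = a at *
  generalize z * ((N : ℚ) ^ 2 - 1) = b at *
  generalize ((N : ℚ) ^ 2 - 1) * (u * (N : ℚ) ^ 2 + v) = c at *
  refine ⟨C a + C b * X ^ 1 + C c * X ^ 2 + X ^ 3 * R, by linear_combination hR, ?_, ?_, ?_⟩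
  · simp only [map_add, coeff_C_mul, coeff_X_pow, coeff_X_pow_mul', coeff_C]
    simp
  · simp only [map_add, coeff_C_mul, coeff_X_pow, coeff_X_pow_mul', coeff_C]
    simp
  · simp only [map_add, coeff_C_mul, coeff_X_pow, coeff_X_pow_mul', coeff_C]
    simp

theorem unx {d : ℕ} {U U' : ℚ⟦X⟧} (h : X ^ d * U' = X ^ d * U) : U' = U :=
  mul_left_cancel₀ (pow_ne_zero d X_ne_zero) h

theorem aux {d k : ℕ} {U U' : ℚ⟦X⟧} (h : X ^ (d + (k + 1)) * U' = X ^ d * U) : coeff 0 U = 0 := by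
  have h1 : X ^ d * (X ^ (k + 1) * U') = X ^ d * U := by
    rw [← h]
    ring
  have h2 := unx h1
  rw [← h2, c0, coeff_X_pow, if_neg (by omega), zero_mul]

theorem exp_eq {d d' : ℕ} {U U' : ℚ⟦X⟧} (h : X ^ d' * U' = X ^ d * U) (hU : coeff 0 U ≠ 0)
    (hU' : coeff 0 U' ≠ 0) : d' = d := by
  rcases lt_trichotomy d d' with h1 | h1 | h1
  · obtain ⟨k, rfl⟩ : ∃ k, d' = d + (k + 1) := ⟨d' - d - 1, by omega⟩
    exact absurd (aux h) hU
  · exact h1.symm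
  · obtain ⟨k, rfl⟩ : ∃ k, d = d' + (k + 1) := ⟨d - d' - 1, by omega⟩
    exact absurd (aux h.symm) hU'

/-- the computation with the coefficients -/
theorem core {d d' : ℕ} {x z u v x' z' u' v' : ℚ} {J J' : ℕ → ℚ⟦X⟧}
    (h : LdE d x z u v J) (h' : LdE d' x' z' u' v' J') (hx : x ≠ 0) (hx' : x' ≠ 0)
    (A B T : ℚ⟦X⟧) (a1 a2 b1 b2 t1 t2 : ℚ)
    (hA : coeff 0 A = 1 ∧ coeff 1 A = a1 ∧ coeff 2 A = a2)
    (hB : coeff 0 B = 1 ∧ coeff 1 B = b1 ∧ coeff 2 B = b2)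
    (hT : coeff 0 T = 6 ∧ coeff 1 T = t1 ∧ coeff 2 T = t2)
    (r3 : J' 3 - 1 = -(A * (J 3 - 1))) (r5 : J' 5 - 1 = B * (J 5 - 1) - T * (J 3 - 1)) :
    d' = d ∧ x' = -x ∧ 9 * u' + v' = -(9 * u + v + a1 * z + a2 * x) ∧
      25 * u' + v' = 25 * u + v + b1 * z + b2 * x - (6 * (9 * u + v) + t1 * z + t2 * x) / 3 := by
  obtain ⟨W3, g3, p0, p1, p2⟩ := ld h 3 (by norm_num)
  obtain ⟨W5, g5, q0, q1, q2⟩ := ld h 5 (by norm_num)
  obtain ⟨W3', g3', p0', p1', p2'⟩ := ld h' 3 (by norm_num)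
  obtain ⟨W5', g5', q0', q1', q2'⟩ := ld h' 5 (by norm_num)
  obtain ⟨hA0, hA1, hA2⟩ := hA
  obtain ⟨hB0, hB1, hB2⟩ := hB
  obtain ⟨hT0, hT1, hT2⟩ := hT
  push_cast at p0 p1 p2 q0 q1 q2 p0' p1' p2' q0' q1' q2'
  have k3 : X ^ d' * W3' = X ^ d * (-(A * W3)) := by
    rw [← g3', r3, g3]
    ring
  have n3 : coeff 0 (-(A * W3)) ≠ 0 := by
    rw [map_neg, c0, hA0, p0]
    intro h
    apply hx
    linarith
  have n3' : coeff 0 W3' ≠ 0 := by
    rw [p0']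
    intro h
    apply hx'
    linarith
  have hd : d' = d := exp_eq k3 n3 n3'
  subst hd
  have m3 : W3' = -(A * W3) := unx k3
  have m5 : W5' = B * W5 - T * W3 := by
    apply unx (d := d')
    rw [← g5', r5, g3, g5]
    ring
  have f0 : coeff 0 W3' = -(coeff 0 (A * W3)) := by rw [m3, map_neg]
  have f2 : coeff 2 W3' = -(coeff 2 (A * W3)) := by rw [m3, map_neg]
  have f5 : coeff 2 W5' = coeff 2 (B * W5) - coeff 2 (T * W3) := by rw [m5, map_sub]
  rw [c0, hA0, p0, p0'] at f0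
  rw [c2', hA0, hA1, hA2, p0, p1, p2, p2'] at f2
  rw [c2', c2', hB0, hB1, hB2, hT0, hT1, hT2, p0, p1, p2, q0, q1, q2, q2'] at f5
  refine ⟨rfl, by linarith, by linarith, by linarith⟩

end OPL

open OPL in
theorem t_OPL (he : ESER_Stmt) : OPL_Stmt := by
  rintro t d d' x z u v x' z' u' v' J J' (rfl | rfl) h h' hx hx' r3 r5
  · have e00 : E (4 * ((-(0 : ℤ) : ℤ) : ℚ)) = 1 := by
      have : (4 * ((-(0 : ℤ) : ℤ) : ℚ)) = 0 := by norm_num
      rw [this, he.1]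
    have e01 : E (4 * ((0 : ℤ) : ℚ)) = 1 := by
      have : (4 * ((0 : ℤ) : ℚ)) = 0 := by norm_num
      rw [this, he.1]
    have e02 : E (12 * ((-(0 : ℤ) : ℤ) : ℚ)) = 1 := by
      have : (12 * ((-(0 : ℤ) : ℤ) : ℚ)) = 0 := by norm_num
      rw [this, he.1]
    have e03 : E (12 * ((0 : ℤ) : ℚ)) = 1 := by
      have : (12 * ((0 : ℤ) : ℚ)) = 0 := by norm_num
      rw [this, he.1]
    rw [e00, e01, one_mul, one_mul] at r3
    rw [e02, e03, e01, one_mul, one_mul, one_mul] at r5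
    obtain ⟨k1, k2, k3, k4⟩ := core h h' hx hx' (E 4) (E 10) (E 2 * (1 + E 6) * (1 + E 2 + E 4))
      4 8 10 50 42 182 ⟨e0 _, e1 _, by rw [e2]; norm_num⟩ ⟨e0 _, e1 _, by rw [e2]; norm_num⟩
      ⟨by
        rw [c0, c0]
        simp only [map_add, e0, coeff_one]
        norm_num, by
        rw [c1, c1, c0]
        simp only [map_add, e0, e1, coeff_one]
        norm_num, by
        rw [c2', c2', c1, c0]
        simp only [map_add, e0, e1, e2, coeff_one]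
        norm_num⟩ r3 r5
    refine ⟨k1, k2, ?_⟩
    rw [if_pos rfl]
    linarith
  · have e40 : (4 * ((-(-1 : ℤ) : ℤ) : ℚ)) = ((2 : ℕ) : ℚ) * 2 := by norm_num
    have e41 : (4 * ((-1 : ℤ) : ℚ)) = ((2 : ℕ) : ℚ) * (-2) := by norm_num
    have e42 : (12 * ((-(-1 : ℤ) : ℤ) : ℚ)) = ((6 : ℕ) : ℚ) * 2 := by norm_num
    have e43 : (12 * ((-1 : ℤ) : ℚ)) = ((6 : ℕ) : ℚ) * (-2) := by norm_num
    have e44 : (E 4 : ℚ⟦X⟧) = E 2 ^ 2 := by
      rw [← epow he]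
      norm_num
    have e46 : (E 6 : ℚ⟦X⟧) = E 2 ^ 3 := by
      rw [← epow he]
      norm_num
    have e410 : (E 10 : ℚ⟦X⟧) = E 2 ^ 5 := by
      rw [← epow he]
      norm_num
    rw [e40, e41, epow he, epow he, e44] at r3
    rw [e42, e43, e41, epow he, epow he, epow he, e44, e46, e410] at r5
    have hef : E 2 * E (-2) = 1 := by
      rw [← he.2.1, ← he.1]
      norm_num
    obtain ⟨k1, k2, k3, k4⟩ := core h h' hx hx' (E (-2) ^ 2) (E (-2) ^ 7)
      (E (-2) ^ 8 * (E 2 * (1 + E 2 ^ 3) * (1 + E 2 + E 2 ^ 2))) (-4) 8 (-14) 98 (-54) 278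
      (by
        rw [← epow he, e0, e1, e2]
        norm_num)
      (by
        rw [← epow he, e0, e1, e2]
        norm_num)
      (by
        rw [← e44, ← e46, ← epow he]
        refine ⟨?_, ?_, ?_⟩
        · simp only [c0, map_add, e0, coeff_one]
          norm_num
        · simp only [c0, c1, map_add, e0, e1, coeff_one]
          norm_num
        · simp only [c0, c1, c2', map_add, e0, e1, e2, coeff_one]
          norm_num) (by
        generalize (E 2 : ℚ⟦X⟧) = e at *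
        generalize (E (-2) : ℚ⟦X⟧) = f at *
        have q2 : e ^ 2 * f ^ 2 = 1 := by rw [← mul_pow, hef, one_pow]
        linear_combination f ^ 2 * r3 - (J' 3 + J 3 * f ^ 2 - 1) * q2)
      (by
        generalize (E 2 : ℚ⟦X⟧) = e at *
        generalize (E (-2) : ℚ⟦X⟧) = f at *
        have q : ∀ k : ℕ, e ^ k * f ^ k = 1 := fun k => by rw [← mul_pow, hef, one_pow]
        have p1 := q 6
        have p2 : e ^ 5 * f ^ 12 = f ^ 7 := by linear_combination f ^ 7 * q 5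
        have p3 : e ^ 5 * f ^ 6 = f := by linear_combination f * q 5
        have p4 : e * (1 + e ^ 3) * (1 + e + e ^ 2) * f ^ 6 =
            1 + f + f ^ 2 + f ^ 3 + f ^ 4 + f ^ 5 := by
          linear_combination f ^ 5 * q 1 + f ^ 4 * q 2 + f ^ 3 * q 3 + f ^ 2 * q 4 + f * q 5 + q 6
        have p5 : e * (1 + e ^ 3) * (1 + e + e ^ 2) * f ^ 8 =
            f ^ 2 + f ^ 3 + f ^ 4 + f ^ 5 + f ^ 6 + f ^ 7 := by
          linear_combination f ^ 7 * q 1 + f ^ 6 * q 2 + f ^ 5 * q 3 + f ^ 4 * q 4 +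
            f ^ 3 * q 5 + f ^ 2 * q 6
        linear_combination f ^ 6 * r5 - J' 5 * p1 + J 5 * p2 - p3 + p4 - p5)
    refine ⟨k1, k2, ?_⟩
    rw [if_neg (by norm_num)]
    linarith

end Pool.Agent.WD2
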