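import Pool.Agent.WD2.StF

/-!
# Module PLD: the coefficients of the cyclotomic form are polynomials in `N`
-/

set_option autoImplicit false

namespace Pool.Agent.WD2

open Pool.Agent.LibH11 Pool.Agent.IT Pool.Agent.GK Pool.Agent.TwoBr Pool.Agent.WD
open scoped BigOperators
open PowerSeries

namespace PLD

theorem const (h : ℚ⟦X⟧) : PolyC (fun _ => h) := fun r =>
  ⟨Polynomial.C (coeff r h), fun N _ => by rw [Polynomial.eval_C]⟩

theorem mul {F G : ℕ → ℚ⟦X⟧} (hF : PolyC F) (hG : PolyC G) : PolyC (fun N => F N * G N) := by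
  intro r
  choose p hp using hF
  choose q hq using hG
  refine ⟨∑ x ∈ Finset.HasAntidiagonal.antidiagonal r, p x.1 * q x.2, fun N hN => ?_⟩
  rw [coeff_mul, Polynomial.eval_finsetSum]
  exact Finset.sum_congr rfl fun x _ => by rw [hp _ N hN, hq _ N hN, Polynomial.eval_mul]

theorem sub {F G : ℕ → ℚ⟦X⟧} (hF : PolyC F) (hG : PolyC G) : PolyC (fun N => F N - G N) := by
  intro r
  obtain ⟨p, hp⟩ := hF r
  obtain ⟨q, hq⟩ := hG r
  exact ⟨p - q, fun N hN => by rw [map_sub, hp N hN, hq N hN, Polynomial.eval_sub]⟩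

theorem sum (s : Finset ℕ) (F : ℕ → ℕ → ℚ⟦X⟧) (h : ∀ i, PolyC (F i)) :
    PolyC (fun N => ∑ i ∈ s, F i N) := by
  intro r
  choose p hp using fun i => h i r
  refine ⟨∑ i ∈ s, p i, fun N hN => ?_⟩
  rw [map_sum, Polynomial.eval_finsetSum]
  exact Finset.sum_congr rfl fun i _ => hp i N hN

theorem pc2 : PolyC (fun N => c2 (2 * (N : ℚ))) := by
  intro r
  refine ⟨Polynomial.C (1 / ((r + 2).factorial : ℚ)) * ((Polynomial.C 2 * Polynomial.X) ^ (r + 2) +
    (-(Polynomial.C 2 * Polynomial.X)) ^ (r + 2)), fun N _ => ?_⟩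
  rw [Polynomial.eval_mul, Polynomial.eval_add, Polynomial.eval_pow, Polynomial.eval_pow,
    Polynomial.eval_neg, Polynomial.eval_mul, Polynomial.eval_C, Polynomial.eval_C,
    Polynomial.eval_X]
  simp only [c2, coeff_mk]
  ring

theorem pPT (i : ℕ) : PolyC (fun N => PT (N : ℚ) i) := by
  induction i with
  | zero =>
    have e : (fun N : ℕ => PT (N : ℚ) 0) = fun _ => 1 := funext fun N => PT_zero _
    rw [e]
    exact const 1
  | succ i ih =>
    have e : (fun N : ℕ => PT (N : ℚ) (i + 1)) =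
        fun N : ℕ => PT (N : ℚ) i * (c2 (2 * (N : ℚ)) - c2 (2 * (i + 1))) :=
      funext fun N => PT_succ _ _
    rw [e]
    exact mul ih (sub pc2 (const _))

end PLD

open PLD in
theorem t_PLD : PLD_Stmt := by
  intro e y J hJ r
  have h : PolyC (fun N => ∑ i ∈ Finset.range (r + 1), X ^ i * PT (N : ℚ) i *
      (((sg e : ℤ) : ℚ⟦X⟧) ^ i * E (((sg e : ℤ) : ℚ) * (i * (i + 3) / 2))) *
      ∑ j ∈ Finset.range (i + 1), gC i j * y j) :=
    PLD.sum _ (fun i N => X ^ i * PT (N : ℚ) i *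
      (((sg e : ℤ) : ℚ⟦X⟧) ^ i * E (((sg e : ℤ) : ℚ) * (i * (i + 3) / 2))) *
      ∑ j ∈ Finset.range (i + 1), gC i j * y j) fun i =>
      PLD.mul (PLD.mul (PLD.mul (PLD.const _) (pPT i)) (PLD.const _)) (PLD.const _)
  obtain ⟨p, hp⟩ := h r
  refine ⟨p, fun N hN => ?_⟩
  rw [← hp N hN, hJ N hN, cyc_eq e hN (Nat.le_add_right N (r + 1)) y, map_sum, map_sum]
  symm
  refine Finset.sum_subset (Finset.range_mono (by omega)) fun i _ hi => ?_
  rw [Finset.mem_range, not_lt] at hi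
  rw [mul_assoc, mul_assoc, coeff_X_pow_mul', if_neg (by omega)]

end Pool.Agent.WD2
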