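import Pool.Agent.WD2.StF

/-!
# PLG: the coefficients of the coloured Jones polynomials of a graph knot are polynomials in `N`

`E N - E (-N) = X b1 N`, `coeff i (b1 N) = N (bc i N^i)` with `bc 0 = 2`, and the coefficient of
`X ^ (r + 1)` of `evB N G` is divisible by `N` since `G` is odd. So the coefficients of `J N` are
determined recursively by polynomials in `N`.
-/

set_option autoImplicit false

namespace Pool.Agent.WD2

open Pool.Agent.LibH11 Pool.Agent.IT Pool.Agent.GK Pool.Agent.TwoBr Pool.Agent.WD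
open scoped BigOperators
open PowerSeries

namespace PLG

/-- the coefficients of `b1 N / N` -/
noncomputable def bc (i : ℕ) : ℚ := (1 - (-1) ^ (i + 1)) / ((i + 1).factorial : ℚ)

theorem bc_zero : bc 0 = 2 := by
  unfold bc
  norm_num

theorem coeff_b1 (a : ℚ) (i : ℕ) : coeff i (b1 a) = a * (bc i * a ^ i) := by
  unfold b1 bc
  rw [coeff_mk]
  have h : (-a) ^ (i + 1) = (-1) ^ (i + 1) * a ^ (i + 1) := by
    rw [← mul_pow, neg_one_mul]
  rw [h, pow_succ a i]
  ring

theorem coeff_left (a : ℚ) (j : ℚ⟦X⟧) (r : ℕ) : coeff (r + 1) ((E a - E (-a)) * j) =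
    a * ∑ i ∈ Finset.range (r + 1), bc i * a ^ i * coeff (r - i) j := by
  rw [← X_mul_b1, mul_assoc, coeff_succ_X_mul, coeff_mul,
    Finset.Nat.sum_antidiagonal_eq_sum_range_succ (fun i k => coeff i (b1 a) * coeff k j),
    Finset.mul_sum]
  refine Finset.sum_congr rfl fun i _ => ?_
  rw [coeff_b1]
  ring

theorem coeff_right (a : ℚ) (G : B) (hG : OddB G) (r : ℕ) : coeff (r + 1) (evB a G) =
    a * ∑ k ∈ Finset.range (r + 1), coeff (r + 1 - k) (coeff k G) * a ^ (r - k) := by
  unfold evB
  rw [coeff_mk, Finset.sum_range_succ, Nat.sub_self, hG (r + 1) 0 Even.zero, zero_mul, add_zero,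
    Finset.mul_sum]
  refine Finset.sum_congr rfl fun k hk => ?_
  rw [Finset.mem_range] at hk
  have h : r + 1 - k = (r - k) + 1 := by omega
  rw [h, pow_succ]
  ring

theorem recursion (a : ℚ) (ha : a ≠ 0) (G : B) (hG : OddB G) (j : ℚ⟦X⟧)
    (h : (E a - E (-a)) * j = evB a G) (r : ℕ) :
    ∑ i ∈ Finset.range (r + 1), bc i * a ^ i * coeff (r - i) j =
      ∑ k ∈ Finset.range (r + 1), coeff (r + 1 - k) (coeff k G) * a ^ (r - k) := by
  have h1 := coeff_left a j r
  rw [h, coeff_right a G hG r] at h1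
  exact (mul_left_cancel₀ ha h1).symm

end PLG

theorem t_PLG : PLG_Stmt := by
  intro G J hG hJ r
  induction r using Nat.strong_induction_on with
  | _ r ih =>
    choose! p hp using ih
    refine ⟨Polynomial.C (1 / 2) * (∑ k ∈ Finset.range (r + 1),
      Polynomial.C (coeff (r + 1 - k) (coeff k G)) * Polynomial.X ^ (r - k) -
      ∑ i ∈ Finset.range r, Polynomial.C (PLG.bc (i + 1)) * Polynomial.X ^ (i + 1) *
        p (r - (i + 1))), ?_⟩
    intro N hN
    have ha : (N : ℚ) ≠ 0 := by
      have : N ≠ 0 := by omega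
      exact_mod_cast this
    have h1 := PLG.recursion (N : ℚ) ha G hG (J N) (hJ N hN) r
    rw [Finset.sum_range_succ', PLG.bc_zero, pow_zero, Nat.sub_zero, mul_one] at h1
    have h2 : ∑ i ∈ Finset.range r, PLG.bc (i + 1) * (N : ℚ) ^ (i + 1) *
        coeff (r - (i + 1)) (J N) =
        ∑ i ∈ Finset.range r, PLG.bc (i + 1) * (N : ℚ) ^ (i + 1) *
          (p (r - (i + 1))).eval (N : ℚ) := by
      refine Finset.sum_congr rfl fun i hi => ?_
      rw [Finset.mem_range] at hi
      rw [hp (r - (i + 1)) (by omega) N hN]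
    rw [h2] at h1
    rw [Polynomial.eval_mul, Polynomial.eval_sub, Polynomial.eval_finsetSum,
      Polynomial.eval_finsetSum, Polynomial.eval_C]
    simp only [Polynomial.eval_mul, Polynomial.eval_pow, Polynomial.eval_C, Polynomial.eval_X]
    linarith

end Pool.Agent.WD2
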