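import Pool.Agent.WD2.StF

/-!
# WF_PLX (helper90): equality for odd dimensions implies equality for all
-/

set_option autoImplicit false

namespace Pool.Agent.WD2

open PowerSeries

theorem t_PLX : PLX_Stmt := by
  intro J J' hJ hJ' h N hN
  ext r
  obtain ⟨p, hp⟩ := hJ r
  obtain ⟨p', hp'⟩ := hJ' r
  have hinj : Function.Injective (fun n : ℕ => ((2 * n + 1 : ℕ) : ℚ)) := by
    intro a b hab
    have h1 : 2 * a + 1 = 2 * b + 1 := Nat.cast_injective (R := ℚ) hab
    omega
  have hinf : Set.Infinite {x : ℚ | p.eval x = p'.eval x} := by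
    refine Set.Infinite.mono ?_ (Set.infinite_range_of_injective hinj)
    rintro _ ⟨n, rfl⟩
    show p.eval ((2 * n + 1 : ℕ) : ℚ) = p'.eval ((2 * n + 1 : ℕ) : ℚ)
    rw [← hp _ (by omega), ← hp' _ (by omega), h _ ⟨n, rfl⟩]
  have hpp : p = p' := Polynomial.eq_of_infinite_eval_eq p p' hinf
  rw [hp N hN, hp' N hN, hpp]

end Pool.Agent.WD2
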