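import Pool.Agent.WD2.StF

/-!
SG0: the sums of the coefficients of the cyclotomic form.
-/

set_option autoImplicit false

namespace Pool.Agent.WD2.SG0

open Pool.Agent.LibH11 Pool.Agent.IT Pool.Agent.GK Pool.Agent.TwoBr Pool.Agent.WD
open Pool.Agent.WD2
open scoped BigOperators
open PowerSeries

theorem toK_inj : Function.Injective toK := IsFractionRing.injective ℚ⟦X⟧ KQ

theorem toK_X_ne : toK (X : ℚ⟦X⟧) ≠ 0 := by
  intro h
  have h1 : (X : ℚ⟦X⟧) = 0 := toK_inj (by rw [h, map_zero])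
  exact X_ne_zero h1

/-- `{n} = X b1 n` -/
theorem br_eq (he : ESER_Stmt) (n : ℤ) : br sQ n = toK X * toK (b1 n) := by
  obtain ⟨_, _, _, h4, _⟩ := he
  rw [← map_mul, X_mul_b1, map_sub]
  unfold br
  rw [h4, h4]
  have e1 : (((2 * n : ℤ) : ℚ) / 2) = (n : ℚ) := by
    push_cast
    ring
  have e2 : (((-(2 * n) : ℤ) : ℚ) / 2) = -(n : ℚ) := by
    push_cast
    ring
  rw [e1, e2]

/-- `{n}! = X ^ n uF n` -/
theorem bf_eq (he : ESER_Stmt) (n : ℕ) : bf sQ n = toK X ^ n * toK (uF n) := by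
  induction n with
  | zero => rw [bf_zero, uF_zero, pow_zero, map_one, mul_one]
  | succ n ih =>
    rw [bf_succ, ih, uF_succ, map_mul, pow_succ, br_eq he]
    have e : (((n : ℤ) + 1 : ℤ) : ℚ) = (n : ℚ) + 1 := by push_cast; ring
    rw [e]
    ring

theorem toK_gC (he : ESER_Stmt) {i j : ℕ} (hj : j ≤ i) : toK (gC i j) =
    (-1) ^ i * (toK X ^ i * bf sQ i) * ((-1) ^ (i + j) * br sQ (2 * j + 1) * pp sQ 0 j /
      (bf sQ (i - j) * bf sQ (i + j + 1))) := by
  have hX := toK_X_ne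
  have hG : IT.Gen sQ := he.2.2.2.2.1
  have n1 := bf_ne hG (i - j)
  have n2 := bf_ne hG (i + j + 1)
  have h1 := congrArg toK (gC_mul i j)
  rw [map_mul, map_mul, map_mul, map_mul, map_pow, map_neg, map_one] at h1
  have h2 : br sQ (2 * j + 1) = toK X * toK (b1 (2 * (j : ℚ) + 1)) := by
    rw [br_eq he]
    push_cast
    rfl
  rw [pp_zero, mul_one, ← mul_div_assoc, eq_div_iff (mul_ne_zero n1 n2), h2, bf_eq he i,
    bf_eq he (i - j), bf_eq he (i + j + 1)]
  have hs : ((-1 : KQ)) ^ i * (-1) ^ (i + j) = (-1) ^ j := by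
    rw [← pow_add, show i + (i + j) = 2 * i + j by ring, pow_add, pow_mul, neg_one_sq, one_pow,
      one_mul]
  have hp : toK X ^ (i - j) * toK X ^ (i + j + 1) = toK X ^ i * toK X ^ i * toK X := by
    rw [← pow_add, ← pow_add, ← pow_succ]
    congr 1
    omega
  calc toK (gC i j) * (toK X ^ (i - j) * toK (uF (i - j)) *
        (toK X ^ (i + j + 1) * toK (uF (i + j + 1))))
      = (toK X ^ (i - j) * toK X ^ (i + j + 1)) *
          (toK (gC i j) * (toK (uF (i - j)) * toK (uF (i + j + 1)))) := by ring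
    _ = (toK X ^ i * toK X ^ i * toK X) *
          ((-1) ^ j * (toK (uF i) * toK (b1 (2 * (j : ℚ) + 1)))) := by rw [hp, h1]
    _ = (toK X ^ i * toK X ^ i * toK X) * ((((-1 : KQ)) ^ i * (-1) ^ (i + j)) *
          (toK (uF i) * toK (b1 (2 * (j : ℚ) + 1)))) := by rw [hs]
    _ = _ := by ring

end Pool.Agent.WD2.SG0

namespace Pool.Agent.WD2

open Pool.Agent.LibH11 Pool.Agent.IT Pool.Agent.GK Pool.Agent.TwoBr Pool.Agent.WD
open scoped BigOperators
open PowerSeries

/-- **SG0**: the sums of the coefficients. -/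
theorem t_SG0 (h1 : D0_Stmt) (h2 : ESER_Stmt) : SG0_Stmt := by
  constructor
  · have h := gC_mul 0 0
    have hu : uF (0 + 0 + 1) = uF 0 * b1 (2 * ((0 : ℕ) : ℚ) + 1) := by
      have := uF_succ 0
      rw [Nat.zero_add] at this ⊢
      rw [this]
      norm_num
    rw [← hu, Nat.sub_zero, uF_zero, pow_zero, one_mul] at h
    have hne : uF (0 + 0 + 1) ≠ 0 := by
      intro h0
      apply constantCoeff_uF_ne (0 + 0 + 1)
      rw [h0, map_zero]
    exact mul_right_cancel₀ hne (h.trans (by ring))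
  · intro i hi
    apply SG0.toK_inj
    rw [map_sum, map_zero]
    have h3 := h1 KQ sQ h2.2.2.2.2.1 0 i (Nat.zero_le i)
    rw [if_neg (by omega)] at h3
    rw [Finset.sum_congr rfl fun j hj => SG0.toK_gC h2
      (Nat.lt_succ_iff.1 (Finset.mem_range.1 hj)), ← Finset.mul_sum, h3, mul_zero]

end Pool.Agent.WD2
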