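import Pool.Agent.WD2.StF

/-!
# WF_TR2: two doubles with the same clasp (MP_31fd3b_gt)
-/

set_option autoImplicit false

namespace Pool.Agent.WD2

open Pool.Agent.LibH11 Pool.Agent.IT Pool.Agent.GK Pool.Agent.TwoBr Pool.Agent.WD
open Pool.Agent.LibH11.Sliced (Diag Kind cnt IsLongKnot ofDiag braidWord)
open scoped BigOperators
open PowerSeries

namespace TR2

/-- The first two coefficients. -/
theorem coeff_lde {d : ℕ} {x z u v : ℚ} {J : ℕ → ℚ⟦X⟧} (hd : 2 ≤ d) (h : LdE d x z u v J) {N : ℕ}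
    (hN : 1 ≤ N) : coeff 0 (J N) = 1 ∧ coeff 1 (J N) = 0 := by
  have h1 := PowerSeries.X_pow_dvd_iff.1 (h N hN)
  have h2 := h1 0 (by omega)
  have h3 := h1 1 (by omega)
  rw [map_sub, sub_eq_zero] at h2 h3
  rw [h2, h3]
  simp only [map_add, PowerSeries.coeff_C_mul, PowerSeries.coeff_X_pow, PowerSeries.coeff_one]
  rw [if_neg (show ¬ 0 = d by omega), if_neg (show ¬ 0 = d + 1 by omega),
    if_neg (show ¬ 0 = d + 2 by omega), if_neg (show ¬ 1 = d by omega),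
    if_neg (show ¬ 1 = d + 1 by omega), if_neg (show ¬ 1 = d + 2 by omega)]
  constructor <;> norm_num

theorem coeff_inf {J : ℕ → ℚ⟦X⟧} (h : Inf J) : coeff 0 (J 3) = 1 ∧ coeff 1 (J 3) = 0 := by
  rcases h with h | ⟨d, x, z, u, v, h, -, hd⟩
  · rw [h 3 (by norm_num)]
    constructor <;> simp [PowerSeries.coeff_one]
  · refine coeff_lde ?_ h (by norm_num)
    rcases hd with ⟨h1, -⟩ | ⟨h1, -⟩ | ⟨h1, -⟩ <;> omega

end TR2

open TR2 in
theorem t_TR2 (hTRIA : TRIA_Stmt) : TR2_Stmt := by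
  intro JS Cf hC h1 e t t' K1 K K1' K' D D' I I' hJ
  obtain ⟨a0, a1⟩ := coeff_inf I
  obtain ⟨b0, b1⟩ := coeff_inf I'
  obtain ⟨ha, hb⟩ := hTRIA (Cf e) t t' (fun N => JS N K) (fun N => JS N K') (hC e) (h1 K) (h1 K')
    a0 b0 a1 b1 (fun N hN => by rw [← D.sum N hN, ← D'.sum N hN, hJ N hN])
  refine ⟨ha, fun N hN => ?_⟩
  obtain ⟨j, rfl⟩ := hN
  exact hb j

end Pool.Agent.WD2
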