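import Pool.Agent.WD2.StE

/-!
# Iterated doubles: UNQ, uniqueness of the coefficients
-/

set_option autoImplicit false

namespace Pool.Agent.WD2

open scoped BigOperators

/-- UNQ -/
theorem t_UNQ : UNQ_Stmt := by
  intro K _ s hs N a h
  have key : ∀ k : ℕ, ∀ j < N, N ≤ j + k → a j = 0 := by
    intro k
    induction k with
    | zero =>
      intro j hj h1
      omega
    | succ k ih =>
      intro j hj h1
      have h2 := h j hj
      rw [Finset.sum_eq_single j] at h2
      · exact (mul_eq_zero.mp h2).resolve_left (pp_ne hs (le_refl j))
      · intro l hl hlj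
        have hl := Finset.mem_range.mp hl
        rcases lt_or_gt_of_ne hlj with h3 | h3
        · rw [pp_of_lt h3, zero_mul]
        · rw [ih l hl (by omega), mul_zero]
      · intro h3
        exact absurd (Finset.mem_range.mpr hj) h3
  exact fun j hj => key N j hj (by omega)

end Pool.Agent.WD2
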