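import Pool.Agent.WD.QAll
import Pool.Agent.WD.Final
import Pool.Agent.WD2.D0
import Pool.Agent.WD2.D1
import Pool.Agent.WD2.D2
import Pool.Agent.WD2.UNQ
import Pool.Agent.WD2.GBT
import Pool.Agent.WD2.CND
import Pool.Agent.WD2.ENT
import Pool.Agent.WD2.FEN
import Pool.Agent.WD2.CRW
import Pool.Agent.WD2.BIV
import Pool.Agent.WD2.GMF
import Pool.Agent.WD2.GS2
import Pool.Agent.WD2.JX2
import Pool.Agent.WD2.CYF
import Pool.Agent.WD2.SG0
import Pool.Agent.WD2.GCV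
import Pool.Agent.WD2.LDC
import Pool.Agent.WD2.LDD
import Pool.Agent.WD2.PLD
import Pool.Agent.WD2.PLG
import Pool.Agent.WD2.PLX
import Pool.Agent.WD2.GRI
import Pool.Agent.WD2.GGO
import Pool.Agent.WD2.ADX
import Pool.Agent.WD2.TR2
import Pool.Agent.WD2.OPB
import Pool.Agent.WD2.OPL
import Pool.Agent.WD2.OPC
import Pool.Agent.WD2.GVD

/-!
The modules of the project on iterated doubles, assembled.
-/

set_option autoImplicit false

namespace Pool.Agent.WD2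

open Pool.Agent.IT.Fin Pool.Agent.GK.Fin Pool.Agent.WD Pool.Agent.WD.QA

theorem wCND : CND_Stmt := t_CND t_D0 t_D1 t_D2
theorem wENT : ENT_Stmt := t_ENT fMULT fBRK fFPOWOK fVOK
theorem wBIV : BIV_Stmt := t_BIV t_FEN t_CRW t_GBT
theorem wGMF : GMF_Stmt := t_GMF wENT wBIV wCND t_UNQ qCLM
theorem wGS2 : GS2_Stmt :=
  t_GS2 qCLM qTOPV fBLKD fCABSUM fMULT fDBL fMOP fFPOWOK fVOK fRINV
theorem wJX2 : JX2_Stmt :=
  t_JX2 qEVT qINT qMPM qOKF qGAU qFTZ qJFD qCJF wGS2 qPAR fJMAP fESER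
theorem wCYF : CYF_Stmt := t_CYF wGMF fESER
theorem wSG0 : SG0_Stmt := t_SG0 t_D0 fESER
theorem wLDC : LDC_Stmt := t_LDC wSG0 t_GCV
theorem wLDD : LDD_Stmt := t_LDD wLDC wSG0 fESER
theorem wPLD : PLD_Stmt := t_PLD
theorem wPLX : PLX_Stmt := t_PLX
theorem wGRI : GRI_Stmt := t_GRI qGAB qEXP4 t_PLG
theorem wGGO : GGO_Stmt := t_GGO qGKO
theorem wADX : ADX_Stmt := t_ADX wCYF wGS2 qCFV dbe_all fESER
theorem wTR2 : TR2_Stmt := t_TR2 qTRIA
theorem wOPL : OPL_Stmt := t_OPL fESER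
theorem wOPC : OPC_Stmt := t_OPC qOPPA t_OPB wOPL fESER
theorem wGVD : GVD_Stmt := t_GVD

end Pool.Agent.WD2
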