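import Pool.Agent.WD2.Asm
import Pool.Agent.WD2.AAll
import Pool.Agent.WD2.QAll

/-!
Finite type invariants separate all graph knots and all their iterated twisted Whitehead doubles: all
modules together.
-/

set_option autoImplicit false

namespace Pool.Agent.WD2

open Pool.Agent.LibH11 Pool.Agent.IT Pool.Agent.GK Pool.Agent.TwoBr Pool.Agent.WD

theorem mods_all : Asm.Mods where
  ldd := wLDD
  pld := wPLD
  plx := wPLX
  tr2 := wTR2
  opc := wOPC
  gvd := wGVD
  mrk := mrk_all
  dbe := dbe_all
  lkc := t_LKC
  lkd := t_LKD

/-- Finite type invariants with values in any nontrivial abelian group separate all graph knots and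
all their iterated twisted Whitehead doubles. -/
theorem main_thm (A : Type*) [AddCommGroup A] [Nontrivial A] (K K' : SKnot)
    (hK : IsIterated K) (hK' : IsIterated K')
    (h : ∀ v : SKnot → A, Sliced.IsFiniteType v → v K = v K') : K = K' :=
  main_int GK.Fin.gOPS wJX2 wGRI wGGO wADX alx_all mods_all K K' hK hK' (same0_of A h)

end Pool.Agent.WD2
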