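import Pool.Agent.WD2.StF

/-!
# WF_GCV: the first coefficients (MP_31fd3b_gt)
-/

set_option autoImplicit false

namespace Pool.Agent.WD2

open Pool.Agent.LibH11 Pool.Agent.IT Pool.Agent.GK Pool.Agent.TwoBr Pool.Agent.WD
open scoped BigOperators
open PowerSeries

namespace GCV

theorem m0 (f g : ℚ⟦X⟧) : coeff 0 (f * g) = coeff 0 f * coeff 0 g := by
  rw [coeff_mul]
  simp

theorem m1 (f g : ℚ⟦X⟧) :
    coeff 1 (f * g) = coeff 0 f * coeff 1 g + coeff 1 f * coeff 0 g := by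
  rw [coeff_mul]
  simp [Finset.Nat.antidiagonal_succ]

theorem m2 (f g : ℚ⟦X⟧) : coeff 2 (f * g) =
    coeff 0 f * coeff 2 g + coeff 1 f * coeff 1 g + coeff 2 f * coeff 0 g := by
  rw [coeff_mul]
  simp [Finset.Nat.antidiagonal_succ]
  ring

theorem b0 (a : ℚ) : coeff 0 (b1 a) = 2 * a := by
  simp [b1]
  ring

theorem bb1 (a : ℚ) : coeff 1 (b1 a) = 0 := by
  simp only [b1, coeff_mk]
  ring

theorem bb2 (a : ℚ) : coeff 2 (b1 a) = a ^ 3 / 3 := by
  simp only [b1, coeff_mk, Nat.factorial]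
  push_cast
  ring

theorem cc0 (a : ℚ) : coeff 0 (c2 a) = a ^ 2 := by
  simp only [c2, coeff_mk, Nat.factorial]
  push_cast
  ring

theorem cc1 (a : ℚ) : coeff 1 (c2 a) = 0 := by
  simp only [c2, coeff_mk, Nat.factorial]
  push_cast
  ring

theorem cc2 (a : ℚ) : coeff 2 (c2 a) = a ^ 4 / 12 := by
  simp only [c2, coeff_mk, Nat.factorial]
  push_cast
  ring

theorem one0 : coeff 0 (1 : ℚ⟦X⟧) = 1 := by simp
theorem one1 : coeff 1 (1 : ℚ⟦X⟧) = 0 := by
  rw [coeff_one]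
  simp
theorem one2 : coeff 2 (1 : ℚ⟦X⟧) = 0 := by
  rw [coeff_one]
  simp

theorem bne (n : ℕ) (h : 1 ≤ n) : b1 (n : ℚ) ≠ 0 := by
  intro h0
  have h1 := b0 (n : ℚ)
  rw [h0, map_zero] at h1
  have h2 : (n : ℚ) = 0 := by linarith
  have h3 : n = 0 := by exact_mod_cast h2
  omega

theorem u1 : uF 1 = b1 1 := by rw [uF_succ, uF_zero]; norm_num
theorem u2 : uF 2 = b1 1 * b1 2 := by rw [uF_succ, u1]; norm_num
theorem u3 : uF 3 = b1 1 * b1 2 * b1 3 := by rw [uF_succ, u2]; norm_num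
theorem u4 : uF 4 = b1 1 * b1 2 * b1 3 * b1 4 := by rw [uF_succ, u3]; norm_num
theorem u5 : uF 5 = b1 1 * b1 2 * b1 3 * b1 4 * b1 5 := by rw [uF_succ, u4]; norm_num
theorem u6 : uF 6 = b1 1 * b1 2 * b1 3 * b1 4 * b1 5 * b1 6 := by rw [uF_succ, u5]; norm_num
theorem u7 : uF 7 = b1 1 * b1 2 * b1 3 * b1 4 * b1 5 * b1 6 * b1 7 := by
  rw [uF_succ, u6]; norm_num

theorem n1 : b1 1 ≠ 0 := by simpa using bne 1 (by norm_num)
theorem n2 : b1 2 ≠ 0 := by simpa using bne 2 (by norm_num)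
theorem n3 : b1 3 ≠ 0 := by simpa using bne 3 (by norm_num)
theorem n5 : b1 5 ≠ 0 := by simpa using bne 5 (by norm_num)
theorem n7 : b1 7 ≠ 0 := by simpa using bne 7 (by norm_num)

theorem g11 : b1 2 * gC 1 1 = -1 := by
  have h := gC_mul 1 1
  norm_num [uF_zero, u1, u3] at h
  refine mul_right_cancel₀ (mul_ne_zero n1 n3) ?_
  linear_combination h

theorem g21 : b1 1 * b1 4 * gC 2 1 = -1 := by
  have h := gC_mul 2 1
  norm_num [uF_zero, u1, u2, u4] at h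
  refine mul_right_cancel₀ (mul_ne_zero (mul_ne_zero n1 n2) n3) ?_
  linear_combination h

theorem g22 : b1 3 * b1 4 * gC 2 2 = 1 := by
  have h := gC_mul 2 2
  norm_num [uF_zero, u2, u5] at h
  refine mul_right_cancel₀ (mul_ne_zero (mul_ne_zero n1 n2) n5) ?_
  linear_combination h

theorem g31 : b1 1 * b1 2 * b1 4 * b1 5 * gC 3 1 = -b1 3 := by
  have h := gC_mul 3 1
  norm_num [uF_zero, u2, u3, u5] at h
  refine mul_right_cancel₀ (mul_ne_zero (mul_ne_zero n1 n2) n3) ?_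
  linear_combination h

theorem g32 : b1 1 * b1 4 * b1 6 * gC 3 2 = 1 := by
  have h := gC_mul 3 2
  norm_num [uF_zero, u1, u3, u6] at h
  refine mul_right_cancel₀ (mul_ne_zero (mul_ne_zero (mul_ne_zero n1 n2) n3) n5) ?_
  linear_combination h

theorem g33 : b1 4 * b1 5 * b1 6 * gC 3 3 = -1 := by
  have h := gC_mul 3 3
  norm_num [uF_zero, u3, u7] at h
  refine mul_right_cancel₀ (mul_ne_zero (mul_ne_zero (mul_ne_zero n1 n2) n3) n7) ?_
  linear_combination h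

theorem pt1 (a : ℚ) : PT a 1 = c2 (2 * a) - c2 2 := by
  rw [PT_succ, PT_zero]
  norm_num

theorem pt2 (a : ℚ) : PT a 2 = (c2 (2 * a) - c2 2) * (c2 (2 * a) - c2 4) := by
  rw [PT_succ, pt1]
  norm_num

theorem p11 : coeff 0 (gC 1 1) = -1 / 4 ∧ coeff 1 (gC 1 1) = 0 ∧ coeff 2 (gC 1 1) = 1 / 6 := by
  have e0 := congrArg (coeff 0) g11
  have e1 := congrArg (coeff 1) g11
  have e2 := congrArg (coeff 2) g11
  rw [m0, b0, map_neg, one0] at e0
  rw [m1, b0, bb1, map_neg, one1] at e1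
  rw [m2, b0, bb1, bb2, map_neg, one2] at e2
  have f0 : coeff 0 (gC 1 1) = -1 / 4 := by linarith
  have f1 : coeff 1 (gC 1 1) = 0 := by linarith
  refine ⟨f0, f1, ?_⟩
  rw [f0, f1] at e2
  linarith

theorem p21 : coeff 0 (gC 2 1) = -1 / 16 ∧ coeff 1 (gC 2 1) = 0 := by
  have e0 := congrArg (coeff 0) g21
  have e1 := congrArg (coeff 1) g21
  rw [m0, m0, b0, b0, map_neg, one0] at e0
  rw [m1, m0, m1, b0, b0, bb1, bb1, map_neg, one1] at e1
  exact ⟨by linarith, by linarith⟩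

theorem p22 : coeff 0 (gC 2 2) = 1 / 48 ∧ coeff 1 (gC 2 2) = 0 := by
  have e0 := congrArg (coeff 0) g22
  have e1 := congrArg (coeff 1) g22
  rw [m0, m0, b0, b0, one0] at e0
  rw [m1, m0, m1, b0, b0, bb1, bb1, one1] at e1
  exact ⟨by linarith, by linarith⟩

theorem p31 : coeff 0 (gC 3 1) = -3 / 320 := by
  have e0 := congrArg (coeff 0) g31
  rw [m0, m0, m0, m0, b0, b0, b0, b0, map_neg, b0] at e0
  linarith

theorem p32 : coeff 0 (gC 3 2) = 1 / 192 := by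
  have e0 := congrArg (coeff 0) g32
  rw [m0, m0, m0, b0, b0, b0, one0] at e0
  linarith

theorem p33 : coeff 0 (gC 3 3) = -1 / 960 := by
  have e0 := congrArg (coeff 0) g33
  rw [m0, m0, m0, b0, b0, b0, map_neg, one0] at e0
  linarith

end GCV

open GCV in
theorem t_GCV : GCV_Stmt := by
  refine ⟨p11, p21, p22, p31, p32, p33, fun a => ⟨⟨?_, ?_, ?_⟩, ?_, ?_⟩⟩
  · rw [pt1, map_sub, cc0, cc0]
    ring
  · rw [pt1, map_sub, cc1, cc1]
    ring
  · rw [pt1, map_sub, cc2, cc2]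
    ring
  · rw [pt2, m0, map_sub, map_sub, cc0, cc0, cc0]
    ring
  · rw [pt2, m1, map_sub, map_sub, map_sub, map_sub, cc0, cc0, cc0, cc1, cc1, cc1]
    ring

end Pool.Agent.WD2
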